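import Pool.Agent.Helper24.WH.St6

/-!
# PROJECT WL (MP_76577a_lc, lower bound eps_0), definitions

Classes of subsets of spaces. A space is a type `X` with a bit map `i : X → ℕ → Bool`; its topology is generated by the
cylinders of `i`. Two operations on classes: `ExpC` (refine the topology by countably many closed sets) and `SumC`. Two
operations on tree languages: `Ex` and `Su`. A language `L` is complete for a class `C` if it is a member and HARD: every
member of `C` is `k ⁻¹' L` for a CONTRACTING map `k`. Contracting maps of the tree space have fixed points, so complete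
languages are not self dual. Chains of classes of length `θ` give chains of length `ω ^ θ`.
-/

set_option autoImplicit false

namespace Pool.Agent.Helper30.WL

open Set
open Pool.Agent.Helper24.WH (Tre pT)
open Ordinal hiding univ

/-! ## Spaces -/

/-- bit map -/
abbrev Bits (X : Type) : Type := X → ℕ → Bool

/-- `x`, `y` agree in the first `n` bits -/
def Ag {X : Type} (i : Bits X) (n : ℕ) (x y : X) : Prop := ∀ k, k < n → i x k = i y k

/-- cylinder -/
def Cy {X : Type} (i : Bits X) (n : ℕ) (x : X) : Set X := {y | Ag i n x y}

/-- open sets -/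
def Op {X : Type} (i : Bits X) (O : Set X) : Prop := ∀ x ∈ O, ∃ n, Cy i n x ⊆ O

/-- closed sets -/
def Cl {X : Type} (i : Bits X) (F : Set X) : Prop := Op i Fᶜ

/-- continuous maps -/
def Cts {Y X : Type} (i' : Bits Y) (i : Bits X) (f : Y → X) : Prop :=
  ∀ n y, ∃ n', ∀ y', Ag i' n' y y' → Ag i n (f y) (f y')

/-- bits of a subspace -/
def res {X : Type} (i : Bits X) (p : Set X) : Bits p := fun x => i x.1

/-- trace of `A` on the subspace `p` -/
def tr {X : Type} (p A : Set X) : Set p := {x | x.1 ∈ A}

/-- classes of subsets of spaces -/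
abbrev Cls : Type 1 := (X : Type) → Bits X → Set X → Prop

/-- the class of the empty sets -/
def C0 : Cls := fun _ _ A => A = ∅

/-- `A` is in the class `C` for a topology given by countably many closed sets -/
def ExpC (C : Cls) : Cls := fun X i A => ∃ j : Bits X, (∀ k, Cl i {x | j x k = true}) ∧ C X j A

/-- the open set `O` misses `B` and `A` or its complement is in the class `U` on `O` -/
def Off {X : Type} (U : Cls) (i : Bits X) (B A O : Set X) : Prop :=
  Disjoint O B ∧ (U O (res i O) (tr O A) ∨ U O (res i O) (tr O Aᶜ))

/-- `E` on a closed set `B`, locally `U` or dual of `U` off `B` -/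
def SumC (U E : Cls) : Cls := fun X i A => ∃ B : Set X, Cl i B ∧ E B (res i B) (tr B A) ∧
  ∀ x, x ∉ B → ∃ n, Off U i B A (Cy i n x)

/-- good classes: closed under continuous preimages and clopen pasting, containing the empty sets -/
structure Good (C : Cls) : Prop where
  pre : ∀ (X Y : Type) (i : Bits X) (i' : Bits Y) (f : Y → X) (A : Set X), Cts i' i f → C X i A → C Y i' (f ⁻¹' A)
  paste : ∀ (X : Type) (i : Bits X) (κ : X → ℕ) (A : Set X), (∀ x, ∃ n, ∀ y, Ag i n x y → κ y = κ x) →
    (∀ c, C {x | κ x = c} (res i {x | κ x = c}) (tr {x | κ x = c} A)) → C X i A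
  empty : ∀ (X : Type) (i : Bits X), C X i ∅

/-- inclusion of classes -/
def LeC (C C' : Cls) : Prop := ∀ (X : Type) (i : Bits X) (A : Set X), C X i A → C' X i A

/-- `C` and its dual are included in `C'` -/
def LtC (C C' : Cls) : Prop := ∀ (X : Type) (i : Bits X) (A : Set X), C X i A ∨ C X i Aᶜ → C' X i A

/-! ## Folding along the Cantor normal form -/

theorem sub_log_lt (b : Ordinal.{0}) (h : b ≠ 0) : b - ω ^ log ω b < b := by
  have h1 : ω ^ log ω b ≤ b := opow_log_le_self ω h
  have h2 : ω ^ log ω b + (b - ω ^ log ω b) = b := Ordinal.add_sub_cancel_of_le h1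
  rcases lt_or_eq_of_le (Ordinal.sub_le_self b (ω ^ log ω b)) with h3 | h3
  · exact h3
  · exfalso
    rw [h3] at h2
    have h4 := Ordinal.add_eq_right_iff_mul_omega0_le.mp h2
    have h5 : b < ω ^ Order.succ (log ω b) := lt_opow_succ_log_self one_lt_omega0 b
    rw [opow_succ] at h5
    exact absurd h4 (not_le.mpr h5)

/-- apply `st · α` for all exponents `α` of the Cantor normal form of `b`, the largest first -/
noncomputable def fold {W : Type 1} (st : W → Ordinal.{0} → W) (b : Ordinal.{0}) (w : W) : W :=
  open Classical in
  if _h : b = 0 then w else fold st (b - ω ^ log ω b) (st w (log ω b))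
termination_by b
decreasing_by exact sub_log_lt b _h

/-! ## Trees -/

/-- standard bits of trees: the bit `n` is the value of one letter bit at a node of length at most `n`; every letter bit
occurs infinitely often -/
noncomputable def std {P : Type} [Countable P] : Bits (Tre (P → Bool)) := fun t n =>
  match @Encodable.decode (List Bool × P) (Encodable.ofCountable _) n.unpair.1 with
  | some (u, p) => if u.length ≤ n then t u p else false
  | none => false

/-- contracting maps into trees: the letter at a node of length `n` depends on the first `n` bits only -/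
def Ctr {X A : Type} (i : Bits X) (k : X → Tre A) : Prop := ∀ (u : List Bool) (x y : X), Ag i u.length x y → k x u = k y u

/-- letters: propositions from `Q` and three marks -/
abbrev Lt3 (Q : Type) : Type := (Q ⊕ Fin 3) → Bool

/-- hardness with contracting maps; the root of the tree does not have the mark 0 -/
def Hard {Q : Type} (C : Cls) (L : Set (Tre (Lt3 Q))) : Prop :=
  ∀ (X : Type) (i : Bits X) (A : Set X), C X i A →
    ∃ k : X → Tre (Lt3 Q), Ctr i k ∧ (∀ x, k x [] (Sum.inr 0) = false) ∧ ∀ x, x ∈ A ↔ k x ∈ L

/-- complete languages -/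
def Cpl {Q : Type} [Countable Q] (C : Cls) (L : Set (Tre (Lt3 Q))) : Prop := C (Tre (Lt3 Q)) std L ∧ Hard C L

/-! ## The exponential language

Node types below a node `w` of `t` (a logical node): the children `[e]` are choice nodes; a choice node has one child with the
mark 0 (auxiliary part) and one without (connector); the connector has one child with the mark 1 and one without; these two
are logical nodes again. If the auxiliary part has a reachable mark 2 then the child with the mark 1 is selected, otherwise the
child without the mark 1. -/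

/-- no mark 2 can be reached through nodes with the mark 0 (the tree `c` starts at the choice node) -/
def NB {Q : Type} (c : Tre (Lt3 Q)) : Prop :=
  ∀ v : List Bool, v ≠ [] → (∀ w : List Bool, w ≠ [] → w <+: v → c w (Sum.inr 0) = true) → c v (Sum.inr 2) = false

/-- direction of the connector -/
def dk {Q : Type} (c : Tre (Lt3 Q)) : Bool := c [false] (Sum.inr 0)

open Classical in
/-- path from the choice node to the selected logical node -/
noncomputable def sel {Q : Type} (c : Tre (Lt3 Q)) : List Bool :=
  [dk c, if NB c then c [dk c, false] (Sum.inr 1) else !(c [dk c, false] (Sum.inr 1))]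

/-- letter at `u` of the decoded tree -/
noncomputable def dec {Q : Type} : List Bool → Tre (Lt3 Q) → (Q → Bool)
  | [], t => fun p => t [] (Sum.inl p)
  | e :: u, t => dec u (t.sub (e :: sel (t.sub [e])))

/-- well formed up to logical depth `n` -/
def WFn {Q : Type} : ℕ → Tre (Lt3 Q) → Prop
  | 0, _ => True
  | n + 1, t => ∀ e : Bool, t [e, false] (Sum.inr 0) ≠ t [e, true] (Sum.inr 0) ∧
      t [e, dk (t.sub [e]), false] (Sum.inr 1) ≠ t [e, dk (t.sub [e]), true] (Sum.inr 1) ∧
      ∀ s : Bool, WFn n (t.sub [e, dk (t.sub [e]), s])

/-- the exponential of a language -/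
def Ex {Q : Type} (L : Set (Tre (Q → Bool))) : Set (Tre (Lt3 Q)) :=
  {t | (∀ n, WFn n t) ∧ (fun u => dec u t) ∈ L}

/-! ## The sum of two languages

The spine starts at the root and follows the unique child with the mark 0, as long as there is a unique one and the node has no
mark 1. If it goes on forever, the other child of the root has to be in `H`. At the first node with the mark 1 the other child
has to be in `K` (no mark 2) or outside `K` (mark 2). -/

/-- direction of the child with the mark 0 -/
def dX {Q : Type} (t : Tre (Lt3 Q)) : Bool := !(t [false] (Sum.inr 0))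

/-- exactly one child has the mark 0 -/
def wfX {Q : Type} (t : Tre (Lt3 Q)) : Prop := t [false] (Sum.inr 0) ≠ t [true] (Sum.inr 0)

/-- the spine goes on -/
def stay {Q : Type} (t : Tre (Lt3 Q)) : Prop := wfX t ∧ t [] (Sum.inr 1) = false

/-- next spine node -/
def nx {Q : Type} (t : Tre (Lt3 Q)) : Tre (Lt3 Q) := t.sub [dX t]

/-- the other child -/
def pt {Q : Type} (t : Tre (Lt3 Q)) : Tre (Lt3 Q) := t.sub [!(dX t)]

/-- the switch case -/
def Sw {Q : Type} (K : Set (Tre (Lt3 Q))) (t : Tre (Lt3 Q)) : Prop :=
  wfX t ∧ t [] (Sum.inr 1) = true ∧ (pt t ∈ K ↔ t [] (Sum.inr 2) = false)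

/-- the sum of two languages -/
def Su {Q : Type} (K H : Set (Tre (Lt3 Q))) : Set (Tre (Lt3 Q)) :=
  {t | (∃ n, (∀ m, m < n → stay (nx^[m] t)) ∧ Sw K (nx^[n] t)) ∨ ((∀ n, stay (nx^[n] t)) ∧ pt t ∈ H)}

/-- propositions of level `m` -/
def QQ : ℕ → Type
  | 0 => Empty
  | m + 1 => QQ m ⊕ Fin 3

/-- lengths of the chains: `1, ω, ω ^ ω, ...` -/
noncomputable def th : ℕ → Ordinal.{0}
  | 0 => 1
  | m + 1 => ω ^ th m

end Pool.Agent.Helper30.WL
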