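import Pool.Agent.Helper30.WL.St2

set_option autoImplicit false

namespace Pool.Agent.Helper30.WL

open Set
open Pool.Agent.Helper24.WH
open Ordinal hiding univ

private theorem dfb_empty_CN (P : Type) : Dfb (∅ : Set (Tre (P → Bool))) := by
  refine ⟨Fm.bot, fun n h => h, trivial, ?_⟩
  ext t
  constructor
  · intro h; exact h.elim
  · intro h; exact h.elim

private theorem th_CN (m : ℕ) : th m = (fun a : Ordinal.{0} => ω ^ a)^[m + 1] 0 := by
  induction m with
  | zero => simp [th]
  | succ m ih =>
    rw [Function.iterate_succ_apply', ← ih]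
    rfl

theorem hCN (hST : StST) (hHZ : StHZ) (hGE : StGE) : StCN := by
  constructor
  · intro m
    induction m with
    | zero =>
      have hF : Finite (QQ 0) := inferInstanceAs (Finite Empty)
      refine ⟨hF, fun _ => C0, fun _ => ∅, ?_⟩
      constructor
      · intro a _; exact hGE.1
      · intro a _; exact hHZ (QQ 0)
      · intro a b hab hb
        have h1 : b < 1 := hb
        rw [Order.lt_one_iff] at h1
        rw [h1] at hab
        exact absurd hab not_lt_zero
      · intro a _; exact dfb_empty_CN _
    | succ m ih =>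
      obtain ⟨hF, C, L, h⟩ := ih
      obtain ⟨C', L', h'⟩ := hST (QQ m) (th m) C L h
      have hF' : Finite (QQ (m + 1)) := inferInstanceAs (Finite (QQ m ⊕ Fin 3))
      exact ⟨hF', C', L', h'⟩
  · intro a ha
    obtain ⟨n, hn⟩ := Ordinal.lt_epsilon_zero.mp ha
    cases n with
    | zero => exact absurd hn not_lt_zero
    | succ n => exact ⟨n, by rw [th_CN]; exact hn⟩

end Pool.Agent.Helper30.WL
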