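import Pool.Agent.Helper30.WL.St2

set_option autoImplicit false

namespace Pool.Agent.Helper30.WL

open Set
open Pool.Agent.Helper24.WH
open Ordinal hiding univ

theorem bt_free_DE {Q : Type} (n : ℕ) : ¬ (bt (Q := Q)).free n := by
  rintro (h | h | h)
  · exact h
  · exact h
  · exact absurd h (Nat.succ_ne_zero n).symm

theorem nb_free_DE {Q : Type} (n : ℕ) : ¬ (nb (Q := Q)).free n := by
  rintro (h | h | h)
  · exact h
  · exact h
  · exact absurd h (Nat.succ_ne_zero n).symm

theorem bt_nu_DE {Q : Type} (n : ℕ) : ¬ (bt (Q := Q)).nuDep n := by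
  rintro (h | h | h) <;> exact h

theorem nb_mu_DE {Q : Type} (n : ℕ) : ¬ (nb (Q := Q)).muDep n := by
  rintro (h | h | h) <;> exact h

theorem bt_mu_DE {Q : Type} (n : ℕ) : ¬ (bt (Q := Q)).muDep n := by
  rintro (h | h | h)
  · exact h
  · exact h
  · exact absurd h (Nat.succ_ne_zero n).symm

theorem nb_nu_DE {Q : Type} (n : ℕ) : ¬ (nb (Q := Q)).nuDep n := by
  rintro (h | h | h)
  · exact h
  · exact h
  · exact absurd h (Nat.succ_ne_zero n).symm

theorem bt_alt_DE {Q : Type} : (bt (Q := Q)).altFree := by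
  refine ⟨⟨trivial, trivial, trivial⟩, ?_⟩
  rintro (h | h | h) <;> exact h

theorem nb_alt_DE {Q : Type} : (nb (Q := Q)).altFree := by
  refine ⟨⟨trivial, trivial, trivial⟩, ?_⟩
  rintro (h | h | h) <;> exact h

theorem slf_free_DE {Q : Type} (ψ : Fm (Q ⊕ Fin 3)) (n : ℕ) : (slf ψ).free n ↔ ψ.free n := by
  constructor
  · rintro ((h | h | h | h) | (h | h | h | h))
    · exact absurd h (bt_free_DE n)
    · exact h.elim
    · exact h.elim
    · exact h
    · exact absurd h (nb_free_DE n)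
    · exact h.elim
    · exact h.elim
    · exact h
  · intro h
    exact Or.inl (Or.inr (Or.inr (Or.inr h)))

theorem slf_nu_DE {Q : Type} (ψ : Fm (Q ⊕ Fin 3)) (n : ℕ) : (slf ψ).nuDep n ↔ ψ.nuDep n := by
  constructor
  · rintro ((h | h | h | h) | (h | h | h | h))
    · exact absurd h (bt_nu_DE n)
    · exact h.elim
    · exact h.elim
    · exact h
    · exact absurd h (nb_nu_DE n)
    · exact h.elim
    · exact h.elim
    · exact h
  · intro h
    exact Or.inl (Or.inr (Or.inr (Or.inr h)))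

theorem slf_mu_DE {Q : Type} (ψ : Fm (Q ⊕ Fin 3)) (n : ℕ) : (slf ψ).muDep n ↔ ψ.muDep n := by
  constructor
  · rintro ((h | h | h | h) | (h | h | h | h))
    · exact absurd h (bt_mu_DE n)
    · exact h.elim
    · exact h.elim
    · exact h
    · exact absurd h (nb_mu_DE n)
    · exact h.elim
    · exact h.elim
    · exact h
  · intro h
    exact Or.inl (Or.inr (Or.inr (Or.inr h)))

theorem slf_alt_DE {Q : Type} (ψ : Fm (Q ⊕ Fin 3)) : (slf ψ).altFree ↔ ψ.altFree := by
  constructor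
  · rintro ⟨⟨_, _, _, h⟩, _⟩
    exact h
  · intro h
    exact ⟨⟨bt_alt_DE, trivial, trivial, h⟩, ⟨nb_alt_DE, trivial, trivial, h⟩⟩

theorem trf_free_DE {Q : Type} (φ : Fm Q) : ∀ n, (trf φ).free n ↔ φ.free n := by
  induction φ with
  | prop p => intro n; exact Iff.rfl
  | nprop p => intro n; exact Iff.rfl
  | top => intro n; exact Iff.rfl
  | bot => intro n; exact Iff.rfl
  | var k => intro n; exact Iff.rfl
  | and φ ψ h1 h2 => intro n; exact or_congr (h1 n) (h2 n)
  | or φ ψ h1 h2 => intro n; exact or_congr (h1 n) (h2 n)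
  | dia φ h => intro n; exact (slf_free_DE (trf φ) n).trans (h n)
  | box φ h => intro n; exact (slf_free_DE (trf φ) n).trans (h n)
  | mu φ h => intro n; exact h (n + 1)
  | nu φ h => intro n; exact h (n + 1)

theorem trf_nu_DE {Q : Type} (φ : Fm Q) : ∀ n, (trf φ).nuDep n ↔ φ.nuDep n := by
  induction φ with
  | prop p => intro n; exact Iff.rfl
  | nprop p => intro n; exact Iff.rfl
  | top => intro n; exact Iff.rfl
  | bot => intro n; exact Iff.rfl
  | var k => intro n; exact Iff.rfl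
  | and φ ψ h1 h2 => intro n; exact or_congr (h1 n) (h2 n)
  | or φ ψ h1 h2 => intro n; exact or_congr (h1 n) (h2 n)
  | dia φ h => intro n; exact (slf_nu_DE (trf φ) n).trans (h n)
  | box φ h => intro n; exact (slf_nu_DE (trf φ) n).trans (h n)
  | mu φ h => intro n; exact h (n + 1)
  | nu φ h => intro n; exact trf_free_DE φ (n + 1)

theorem trf_mu_DE {Q : Type} (φ : Fm Q) : ∀ n, (trf φ).muDep n ↔ φ.muDep n := by
  induction φ with
  | prop p => intro n; exact Iff.rfl
  | nprop p => intro n; exact Iff.rfl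
  | top => intro n; exact Iff.rfl
  | bot => intro n; exact Iff.rfl
  | var k => intro n; exact Iff.rfl
  | and φ ψ h1 h2 => intro n; exact or_congr (h1 n) (h2 n)
  | or φ ψ h1 h2 => intro n; exact or_congr (h1 n) (h2 n)
  | dia φ h => intro n; exact (slf_mu_DE (trf φ) n).trans (h n)
  | box φ h => intro n; exact (slf_mu_DE (trf φ) n).trans (h n)
  | mu φ h => intro n; exact trf_free_DE φ (n + 1)
  | nu φ h => intro n; exact h (n + 1)

theorem trf_alt_DE {Q : Type} (φ : Fm Q) : (trf φ).altFree ↔ φ.altFree := by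
  induction φ with
  | prop p => exact Iff.rfl
  | nprop p => exact Iff.rfl
  | top => exact Iff.rfl
  | bot => exact Iff.rfl
  | var k => exact Iff.rfl
  | and φ ψ h1 h2 => exact and_congr h1 h2
  | or φ ψ h1 h2 => exact and_congr h1 h2
  | dia φ h => exact (slf_alt_DE (trf φ)).trans h
  | box φ h => exact (slf_alt_DE (trf φ)).trans h
  | mu φ h => exact and_congr h (not_congr (trf_nu_DE φ 0))
  | nu φ h => exact and_congr h (not_congr (trf_mu_DE φ 0))

theorem wff_free_DE {Q : Type} (n : ℕ) : ¬ (wff (Q := Q)).free n := by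
  rintro ((h | h) | (h | (h | h) | h))
  · exact h
  · exact h
  · exact h
  · exact h
  · exact h
  · exact absurd h (Nat.succ_ne_zero n).symm

theorem wff_alt_DE {Q : Type} : (wff (Q := Q)).altFree := by
  refine ⟨⟨⟨trivial, trivial⟩, ⟨trivial, ⟨trivial, trivial⟩, trivial⟩⟩, ?_⟩
  rintro ((h | h) | (h | (h | h) | h)) <;> exact h

theorem toB_dcS_DE {Q : Type} (t : Tre (Set (Q ⊕ Fin 3))) : toB (dcS t) = fun u => dec u (toB t) := by
  have h : ∀ (b : Bool) (i : Decidable (b = true)), @decide (b = true) i = b := by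
    intro b i
    cases b
    · exact decide_eq_false (fun h => Bool.noConfusion h)
    · exact decide_eq_true rfl
  funext u p
  exact h (dec u (toB t) p) _

theorem hDE (hTA : StTA) (hTL : StTL) (hLG : StLG) : StDE := by
  rintro Q L ⟨φ, hf, ha, hl⟩
  refine ⟨.and wff (trf φ), ?_, ⟨wff_alt_DE, (trf_alt_DE φ).mpr ha⟩, ?_⟩
  · rintro n (h | h)
    · exact wff_free_DE n h
    · exact hf n ((trf_free_DE φ n).mp h)
  · have hc : ∀ n, ¬ (Fm.and wff (trf φ)).free n := by
      rintro n (h | h)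
      · exact wff_free_DE n h
      · exact hf n ((trf_free_DE φ n).mp h)
    rw [hLG _ _ hc (fun _ => ∅)]
    ext t
    have h1 := (hTA Q (fun _ => ∅)).2.2.1
    have h2 := hTL Q φ (fun _ => ∅) (fun _ => ∅) (fun n t _ => Iff.rfl) t
    have h3 : (t ∈ (Fm.and wff (trf φ)).SEM (fun _ => ∅)) ↔
        (t ∈ (wff (Q := Q)).SEM (fun _ => ∅) ∧ t ∈ (trf φ).SEM (fun _ => ∅)) := Iff.rfl
    rw [h3, h1]
    have h4 : dcS t ∈ φ.SEM (fun _ => ∅) ↔ toB (dcS t) ∈ L := by
      rw [← hLG _ _ hf (fun _ => ∅), hl]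
      exact Iff.rfl
    have h5 : (t ∈ {t : Tre (Set (Q ⊕ Fin 3)) | toB t ∈ Ex L}) ↔
        ((∀ n, WFn n (toB t)) ∧ (fun u => dec u (toB t)) ∈ L) := Iff.rfl
    have h6 : (fun u => dec u (toB t)) ∈ L ↔ toB (dcS t) ∈ L := by
      rw [toB_dcS_DE]
      exact Iff.rfl
    rw [h5]
    constructor
    · rintro ⟨ha1, hb⟩
      exact ⟨ha1, h6.mpr (h4.mp ((h2 ha1).mp hb))⟩
    · rintro ⟨ha1, hb⟩
      exact ⟨ha1, (h2 ha1).mpr (h4.mpr (h6.mp hb))⟩

end Pool.Agent.Helper30.WL
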