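import Pool.Agent.Helper30.WL.St

/-!
# PROJECT WL (MP_76577a_lc), module FD: the fold along the Cantor normal form is strictly increasing
-/

set_option autoImplicit false

namespace Pool.Agent.Helper30.WL

open Set
open Ordinal hiding univ

private theorem fold_zero_FD {W : Type 1} (st : W → Ordinal.{0} → W) (w : W) : fold st 0 w = w := by
  rw [fold]
  simp

private theorem fold_ne_FD {W : Type 1} (st : W → Ordinal.{0} → W) {b : Ordinal.{0}} (hb : b ≠ 0) (w : W) :
    fold st b w = fold st (b - ω ^ log ω b) (st w (log ω b)) := by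
  rw [fold, dif_neg hb]

theorem hFD (hGE : StGE) (hGS : StGS) (hLT : StLT) (hKEY : StKEY) : StFD := by
  obtain ⟨hL1, hL2, hL3, -⟩ := hLT
  intro C θ hC hlt U hU
  set st : Cls → Ordinal.{0} → Cls := fun U a => SumC U (ExpC (C a)) with hst
  have hE : ∀ a, a < θ → Good (ExpC (C a)) := fun a ha => hGE.2 _ (hC a ha)
  have hstG : ∀ a, a < θ → ∀ V, Good V → Good (st V a) := fun a ha V hV => hGS _ _ hV (hE a ha)
  have hlog : ∀ b : Ordinal.{0}, ∀ c : Ordinal.{0}, b ≠ 0 → b < ω ^ c → log ω b < c := by
    intro b c hb hbc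
    exact (Ordinal.lt_opow_iff_log_lt one_lt_omega0 hb).mp hbc
  have hG : ∀ b : Ordinal.{0}, b < ω ^ θ → ∀ V, Good V → Good (fold st b V) := by
    intro b
    induction b using WellFoundedLT.induction with
    | _ b ih =>
      intro hb V hV
      by_cases h0 : b = 0
      · rw [h0, fold_zero_FD]
        exact hV
      · rw [fold_ne_FD st h0]
        have h1 := sub_log_lt b h0
        exact ih _ h1 (h1.trans hb) _ (hstG _ (hlog b θ h0 hb) V hV)
  have hA : ∀ g, g < θ → ∀ W : Cls, Good W → ∀ b : Ordinal.{0}, b < ω ^ g → ∀ V : Cls, LtC V (st W g) →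
      LtC (fold st b V) (st W g) := by
    intro g hg W hW b
    induction b using WellFoundedLT.induction with
    | _ b ih =>
      intro hb V hV
      by_cases h0 : b = 0
      · rw [h0, fold_zero_FD]
        exact hV
      · rw [fold_ne_FD st h0]
        have h1 := sub_log_lt b h0
        have h2 := hlog b g h0 hb
        exact ih _ h1 (h1.trans hb) _ (hKEY W V (C (log ω b)) (C g) hW (hC g hg) (hlt _ _ h2 hg) hV)
  have hB : ∀ b : Ordinal.{0}, b < ω ^ θ → ∀ V, Good V → LeC V (fold st b V) := by
    intro b
    induction b using WellFoundedLT.induction with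
    | _ b ih =>
      intro hb V hV
      by_cases h0 : b = 0
      · rw [h0, fold_zero_FD]
        exact fun _ _ _ h => h
      · rw [fold_ne_FD st h0]
        have h1 := sub_log_lt b h0
        have h2 := hlog b θ h0 hb
        have h3 : LeC V (st V (log ω b)) := hL1 _ _ (hL3 V _ hV (hE _ h2))
        have h4 := ih _ h1 (h1.trans hb) _ (hstG _ h2 V hV)
        exact fun X i A h => h4 X i A (h3 X i A h)
  have hD : ∀ b' : Ordinal.{0}, b' < ω ^ θ → ∀ b, b < b' → ∀ V, Good V → LtC (fold st b V) (fold st b' V) := by
    intro b'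
    induction b' using WellFoundedLT.induction with
    | _ b' ih =>
      intro hb' b hb V hV
      have h0 : b' ≠ 0 := (bot_le.trans_lt hb).ne'
      have h1 := sub_log_lt b' h0
      have h2 := hlog b' θ h0 hb'
      rw [fold_ne_FD st h0]
      by_cases hc : b < ω ^ log ω b'
      · have h3 : LtC (fold st b V) (st V (log ω b')) := hA _ h2 V hV b hc V (hL3 V _ hV (hE _ h2))
        exact hL2 _ _ _ h3 (hB _ (h1.trans hb') _ (hstG _ h2 V hV))
      · rw [not_lt] at hc
        have hb0 : b ≠ 0 := by
          rintro rfl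
          exact absurd hc (not_le.mpr (opow_pos _ omega0_pos))
        have hlb : log ω b = log ω b' := by
          refine le_antisymm (Ordinal.log_mono_right _ hb.le) ?_
          exact (Ordinal.opow_le_iff_le_log one_lt_omega0 hb0).mp hc
        rw [fold_ne_FD st hb0, hlb]
        refine ih _ h1 (h1.trans hb') _ ?_ _ (hstG _ h2 V hV)
        by_contra hcon
        rw [not_lt] at hcon
        have h5 : ω ^ log ω b' + (b' - ω ^ log ω b') = b' :=
          Ordinal.add_sub_cancel_of_le (opow_log_le_self ω h0)
        have h6 : ω ^ log ω b' + (b - ω ^ log ω b') = b := Ordinal.add_sub_cancel_of_le hc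
        have h7 : b' ≤ b := by
          rw [← h5, ← h6]
          exact add_le_add_right hcon _
        exact absurd hb (not_lt.mpr h7)
  exact ⟨fun b hb => hG b hb U hU, fun b b' hbb hb' => hD b' hb' b hbb U hU⟩

end Pool.Agent.Helper30.WL
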