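import Pool.Agent.Helper30.WL.St

/-!
# PROJECT WL, module GE: `C0` and `ExpC C` are good
-/

set_option autoImplicit false

namespace Pool.Agent.Helper30.WL

open Set
open Pool.Agent.Helper24.WH (Tre pT)

private theorem good_C0_GE : Good C0 where
  pre := by
    intro X Y i i' f A _ hA
    change A = ∅ at hA
    subst hA
    rfl
  paste := by
    intro X i κ A _ h
    change A = ∅
    ext x
    simp only [mem_empty_iff_false, iff_false]
    intro hx
    have h1 : tr {y | κ y = κ x} A = ∅ := h (κ x)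
    have h2 : (⟨x, rfl⟩ : {y | κ y = κ x}) ∈ tr {y | κ y = κ x} A := hx
    rw [h1] at h2
    exact h2
  empty := fun X i => rfl

open Classical in
/-- new bits for pasting, two indices -/
private noncomputable def nbp_GE {X : Type} (κ : X → ℕ) (j : (c : ℕ) → Bits {x | κ x = c}) (x : X) : ℕ → ℕ → Bool
  | 0, b => decide (κ x = b)
  | c + 1, b => if h : κ x = c then j c ⟨x, h⟩ b else false

/-- new bits for pasting -/
private noncomputable def nb_GE {X : Type} (κ : X → ℕ) (j : (c : ℕ) → Bits {x | κ x = c}) : Bits X := fun x n =>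
  nbp_GE κ j x n.unpair.1 n.unpair.2

private theorem nb0_GE {X : Type} (κ : X → ℕ) (j : (c : ℕ) → Bits {x | κ x = c}) (x : X) (b : ℕ) :
    nb_GE κ j x (Nat.pair 0 b) = true ↔ κ x = b := by
  simp [nb_GE, nbp_GE]

private theorem nb1_GE {X : Type} (κ : X → ℕ) (j : (c : ℕ) → Bits {x | κ x = c}) (c : ℕ) (x : {x | κ x = c}) (b : ℕ) :
    nb_GE κ j x.1 (Nat.pair (c + 1) b) = j c x b := by
  have h : κ x.1 = c := x.2
  simp only [nb_GE, Nat.unpair_pair, nbp_GE]
  exact dif_pos h

private theorem nb2_GE {X : Type} (κ : X → ℕ) (j : (c : ℕ) → Bits {x | κ x = c}) (c : ℕ) (x : X) (h : κ x ≠ c) (b : ℕ) :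
    nb_GE κ j x (Nat.pair (c + 1) b) = false := by
  simp only [nb_GE, Nat.unpair_pair, nbp_GE]
  exact dif_neg h

private theorem Ag_mono_GE {X : Type} {i : Bits X} {n m : ℕ} {x y : X} (h : n ≤ m) (hxy : Ag i m x y) : Ag i n x y :=
  fun k hk => hxy k (lt_of_lt_of_le hk h)

theorem hGE : StGE := by
  refine ⟨good_C0_GE, fun C hC => ⟨?_, ?_, ?_⟩⟩
  · rintro X Y i i' f A hf ⟨j, hj, hA⟩
    refine ⟨fun y => j (f y), fun k => ?_, ?_⟩
    · intro y hy
      have h1 : f y ∈ {x | j x k = true}ᶜ := hy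
      obtain ⟨n, hn⟩ := hj k (f y) h1
      obtain ⟨n', hn'⟩ := hf n y
      refine ⟨n', fun y' hy' => ?_⟩
      exact hn (hn' y' hy')
    · exact hC.pre X Y j (fun y => j (f y)) f A (fun n y => ⟨n, fun y' hy' => hy'⟩) hA
  · intro X i κ A hκ h
    choose j hj hjC using h
    refine ⟨nb_GE κ j, fun k => ?_, ?_⟩
    · intro x hx
      obtain ⟨n₀, hn₀⟩ := hκ x
      obtain ⟨a, b, rfl⟩ : ∃ a b, k = Nat.pair a b := ⟨k.unpair.1, k.unpair.2, (Nat.pair_unpair k).symm⟩
      cases a with
      | zero =>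
        refine ⟨n₀, fun y hy => ?_⟩
        intro hy'
        apply hx
        change nb_GE κ j y (Nat.pair 0 b) = true at hy'
        change nb_GE κ j x (Nat.pair 0 b) = true
        rw [nb0_GE] at hy' ⊢
        rw [← hn₀ y hy]
        exact hy'
      | succ c =>
        by_cases hxc : κ x = c
        · have h1 : (⟨x, hxc⟩ : {x | κ x = c}) ∈ {x | j c x b = true}ᶜ := by
            intro h2
            apply hx
            change nb_GE κ j x (Nat.pair (c + 1) b) = true
            rw [nb1_GE κ j c ⟨x, hxc⟩ b]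
            exact h2
          obtain ⟨n₁, hn₁⟩ := hj c b ⟨x, hxc⟩ h1
          refine ⟨max n₀ n₁, fun y hy => ?_⟩
          have hyc : κ y = c := (hn₀ y (Ag_mono_GE (le_max_left _ _) hy)).trans hxc
          have h2 : (⟨y, hyc⟩ : {x | κ x = c}) ∈ {x | j c x b = true}ᶜ :=
            hn₁ (show Ag (res i {x | κ x = c}) n₁ ⟨x, hxc⟩ ⟨y, hyc⟩ from
              fun k hk => hy k (lt_of_lt_of_le hk (le_max_right _ _)))
          intro hy'
          apply h2
          change nb_GE κ j y (Nat.pair (c + 1) b) = true at hy'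
          rw [nb1_GE κ j c ⟨y, hyc⟩ b] at hy'
          exact hy'
        · refine ⟨n₀, fun y hy => ?_⟩
          intro hy'
          change nb_GE κ j y (Nat.pair (c + 1) b) = true at hy'
          rw [nb2_GE κ j c y (by rw [hn₀ y hy]; exact hxc) b] at hy'
          exact Bool.false_ne_true hy'
    · refine hC.paste X (nb_GE κ j) κ A (fun x => ?_) (fun c => ?_)
      · refine ⟨Nat.pair 0 (κ x) + 1, fun y hy => ?_⟩
        have h1 := hy (Nat.pair 0 (κ x)) (Nat.lt_succ_self _)
        have h2 : nb_GE κ j x (Nat.pair 0 (κ x)) = true := (nb0_GE κ j x (κ x)).2 rfl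
        rw [h2] at h1
        exact (nb0_GE κ j y (κ x)).1 h1.symm
      · refine hC.pre {x | κ x = c} {x | κ x = c} (j c) (res (nb_GE κ j) {x | κ x = c}) id (tr {x | κ x = c} A)
          (fun n y => ⟨Nat.pair (c + 1) n + 1, fun y' hy' b hb => ?_⟩) (hjC c)
        have h1 : Nat.pair (c + 1) b < Nat.pair (c + 1) n + 1 :=
          lt_trans (Nat.pair_lt_pair_right (c + 1) hb) (Nat.lt_succ_self _)
        have h2 := hy' _ h1
        change nb_GE κ j y.1 (Nat.pair (c + 1) b) = nb_GE κ j y'.1 (Nat.pair (c + 1) b) at h2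
        rw [nb1_GE, nb1_GE] at h2
        exact h2
  · intro X i
    refine ⟨fun _ _ => false, fun k x _ => ⟨0, fun y _ => ?_⟩, hC.empty X _⟩
    intro hy
    exact Bool.false_ne_true hy

end Pool.Agent.Helper30.WL
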