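import Pool.Agent.Helper30.WL.St

set_option autoImplicit false

namespace Pool.Agent.Helper30.WL

open Set

private theorem gs_res {X Y : Type} {i : Bits X} {i' : Bits Y} {f : Y → X} (hf : Cts i' i f) (p : Set Y) (q : Set X)
    (h : ∀ y ∈ p, f y ∈ q) : Cts (res i' p) (res i q) (fun z => ⟨f z.1, h z.1 z.2⟩) := by
  intro n y
  obtain ⟨n', hn'⟩ := hf n y.1
  exact ⟨n', fun y' h' => hn' y'.1 h'⟩

private theorem gs_ag_mono {X : Type} {i : Bits X} {m n : ℕ} {x y : X} (hmn : m ≤ n) (h : Ag i n x y) : Ag i m x y :=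
  fun k hk => h k (lt_of_lt_of_le hk hmn)

private theorem gs_cl_empty {X : Type} (i : Bits X) : Cl i (∅ : Set X) := by
  intro x _
  exact ⟨0, fun y _ => fun hy => hy⟩

private theorem gs_empty {U E : Cls} (hU : Good U) (hE : Good E) (X : Type) (i : Bits X) : SumC U E X i ∅ := by
  refine ⟨∅, gs_cl_empty i, ?_, ?_⟩
  · have h : tr (∅ : Set X) (∅ : Set X) = ∅ := by
      ext z
      exact ⟨fun h => h, fun h => h⟩
    rw [h]
    exact hE.empty _ _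
  · intro x _
    refine ⟨0, disjoint_empty _, Or.inl ?_⟩
    have h : tr (Cy i 0 x) (∅ : Set X) = ∅ := by
      ext z
      exact ⟨fun h => h, fun h => h⟩
    rw [h]
    exact hU.empty _ _

private theorem gs_pre {U E : Cls} (hU : Good U) (hE : Good E) (X Y : Type) (i : Bits X) (i' : Bits Y) (f : Y → X)
    (A : Set X) (hf : Cts i' i f) (hA : SumC U E X i A) : SumC U E Y i' (f ⁻¹' A) := by
  obtain ⟨B, hB, hEB, hoff⟩ := hA
  refine ⟨f ⁻¹' B, ?_, ?_, ?_⟩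
  · intro y hy
    obtain ⟨n, hn⟩ := hB (f y) hy
    obtain ⟨n', hn'⟩ := hf n y
    exact ⟨n', fun y' hy' => hn (hn' y' hy')⟩
  · exact hE.pre B (f ⁻¹' B : Set Y) (res i B) (res i' (f ⁻¹' B)) (fun z => ⟨f z.1, z.2⟩) (tr B A)
      (gs_res hf (f ⁻¹' B) B (fun y hy => hy)) hEB
  · intro y hy
    obtain ⟨n, hd, hU'⟩ := hoff (f y) hy
    obtain ⟨n', hn'⟩ := hf n y
    have hmap : ∀ z ∈ Cy i' n' y, f z ∈ Cy i n (f y) := fun z hz => hn' z hz
    refine ⟨n', ?_, ?_⟩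
    · rw [Set.disjoint_left]
      intro z hz hzB
      exact (Set.disjoint_left.mp hd) (hmap z hz) hzB
    · rcases hU' with h | h
      · exact Or.inl (hU.pre (Cy i n (f y)) (Cy i' n' y) _ _ (fun z => ⟨f z.1, hmap z.1 z.2⟩) _
          (gs_res hf _ _ hmap) h)
      · exact Or.inr (hU.pre (Cy i n (f y)) (Cy i' n' y) _ _ (fun z => ⟨f z.1, hmap z.1 z.2⟩) _
          (gs_res hf _ _ hmap) h)

private theorem gs_paste {U E : Cls} (hU : Good U) (hE : Good E) (X : Type) (i : Bits X) (κ : X → ℕ) (A : Set X)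
    (hκ : ∀ x, ∃ n, ∀ y, Ag i n x y → κ y = κ x)
    (hP : ∀ c, SumC U E {x | κ x = c} (res i {x | κ x = c}) (tr {x | κ x = c} A)) : SumC U E X i A := by
  choose B hBcl hBE hBoff using hP
  have hmem : ∀ (x : X) (c : ℕ) (h : κ x = c),
      ((⟨x, rfl⟩ : {x' | κ x' = κ x}) ∈ B (κ x) ↔ (⟨x, h⟩ : {x' | κ x' = c}) ∈ B c) := by
    intro x c h
    subst h
    exact Iff.rfl
  let BB : Set X := {x | (⟨x, rfl⟩ : {x' | κ x' = κ x}) ∈ B (κ x)}
  have hBB : ∀ x, x ∈ BB ↔ (⟨x, rfl⟩ : {x' | κ x' = κ x}) ∈ B (κ x) := fun x => Iff.rfl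
  refine ⟨BB, ?_, ?_, ?_⟩
  · intro x hx
    obtain ⟨N1, h1⟩ := hκ x
    obtain ⟨N2, h2⟩ := hBcl (κ x) ⟨x, rfl⟩ (fun h => hx ((hBB x).mpr h))
    refine ⟨max N1 N2, fun y hy => ?_⟩
    have hc : κ y = κ x := h1 y (gs_ag_mono (le_max_left _ _) hy)
    have hy2 : (⟨y, hc⟩ : {x' | κ x' = κ x}) ∈ (B (κ x))ᶜ :=
      h2 (fun k hk => hy k (lt_of_lt_of_le hk (le_max_right _ _)))
    exact fun hyB => hy2 ((hmem y (κ x) hc).mp hyB)
  · refine hE.paste BB (res i BB) (fun z => κ z.1) (tr BB A) ?_ ?_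
    · intro z
      obtain ⟨N1, h1⟩ := hκ z.1
      exact ⟨N1, fun y hy => h1 y.1 hy⟩
    · intro c
      refine hE.pre (B c) {z : BB | κ z.1 = c} (res (res i {x | κ x = c}) (B c)) (res (res i BB) {z : BB | κ z.1 = c})
        (fun z => ⟨⟨z.1.1, z.2⟩, (hmem z.1.1 c z.2).mp z.1.2⟩) (tr (B c) (tr {x | κ x = c} A)) ?_ (hBE c)
      intro n y
      exact ⟨n, fun y' h' => h'⟩
  · intro x hx
    obtain ⟨N1, h1⟩ := hκ x
    obtain ⟨N2, hd, hU'⟩ := hBoff (κ x) ⟨x, rfl⟩ (fun h => hx ((hBB x).mpr h))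
    have hc : ∀ z ∈ Cy i (max N1 N2) x, κ z = κ x := fun z hz => h1 z (gs_ag_mono (le_max_left _ _) hz)
    have hcy : ∀ (z : X) (hz : z ∈ Cy i (max N1 N2) x),
        (⟨z, hc z hz⟩ : {x' | κ x' = κ x}) ∈ Cy (res i {x' | κ x' = κ x}) N2 ⟨x, rfl⟩ :=
      fun z hz k hk => hz k (lt_of_lt_of_le hk (le_max_right _ _))
    refine ⟨max N1 N2, ?_, ?_⟩
    · rw [Set.disjoint_left]
      intro z hz hzB
      exact (Set.disjoint_left.mp hd) (hcy z hz) ((hmem z (κ x) (hc z hz)).mp hzB)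
    · have hg : ∀ D : Set {x' | κ x' = κ x}, U (Cy (res i {x' | κ x' = κ x}) N2 ⟨x, rfl⟩)
          (res (res i {x' | κ x' = κ x}) (Cy (res i {x' | κ x' = κ x}) N2 ⟨x, rfl⟩))
          (tr (Cy (res i {x' | κ x' = κ x}) N2 ⟨x, rfl⟩) D) →
          U (Cy i (max N1 N2) x) (res i (Cy i (max N1 N2) x))
            {z | (⟨z.1, hc z.1 z.2⟩ : {x' | κ x' = κ x}) ∈ D} := by
        intro D hD
        let g : Cy i (max N1 N2) x → Cy (res i {x' | κ x' = κ x}) N2 ⟨x, rfl⟩ :=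
          fun z => ⟨⟨z.1, hc z.1 z.2⟩, hcy z.1 z.2⟩
        exact hU.pre _ _ _ (res i (Cy i (max N1 N2) x)) g _ (fun n y => ⟨n, fun y' h' => h'⟩) hD
      rcases hU' with h | h
      · exact Or.inl (hg _ h)
      · exact Or.inr (hg _ h)

theorem hGS : StGS := fun _ _ hU hE =>
  { pre := gs_pre hU hE
    paste := gs_paste hU hE
    empty := gs_empty hU hE }

end Pool.Agent.Helper30.WL
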