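import Pool.Agent.Helper30.WL.St

set_option autoImplicit false

namespace Pool.Agent.Helper30.WL

open Set
open Pool.Agent.Helper24.WH (Tre pT)

/-- the reversed word of the first `n` bits -/
private def pre_HE {X : Type} (j : Bits X) (x : X) : ℕ → List Bool
  | 0 => []
  | n + 1 => j x n :: pre_HE j x n

private lemma pre_inj_HE {X : Type} (j : Bits X) (x y : X) :
    ∀ n, pre_HE j x n = pre_HE j y n → Ag j n x y := by
  intro n
  induction n with
  | zero => intro _ k hk; omega
  | succ n ih =>
    intro h k hk
    simp only [pre_HE, List.cons.injEq] at h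
    rcases Nat.lt_succ_iff_lt_or_eq.1 hk with hk' | rfl
    · exact ih h.2 k hk'
    · exact h.1

open Classical in
/-- the letter of `k` read off from the reversed word of the first bits -/
private noncomputable def K_HE {X Q : Type} (j : Bits X) (k : X → Tre (Lt3 Q)) (s u : List Bool) :
    Lt3 Q :=
  if h : ∃ x', pre_HE j x' u.length = s then k h.choose u else fun _ => false

private lemma K_eq_HE {X Q : Type} (j : Bits X) (k : X → Tre (Lt3 Q)) (hk : Ctr j k) (x : X)
    (u : List Bool) : K_HE j k (pre_HE j x u.length) u = k x u := by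
  have h : ∃ x', pre_HE j x' u.length = pre_HE j x u.length := ⟨x, rfl⟩
  unfold K_HE
  rw [dif_pos h]
  exact hk u _ _ (pre_inj_HE j _ _ _ h.choose_spec)

private def Vi_HE {X : Type} (i j : Bits X) (x : X) (m N : ℕ) : Prop :=
  ∀ y, Ag i N x y → j y m = false

private lemma Vi_congr_HE {X : Type} (i j : Bits X) (x y : X) (m N : ℕ) (h : Ag i N x y) :
    Vi_HE i j x m N ↔ Vi_HE i j y m N := by
  constructor
  · intro hx z hz
    exact hx z (fun l hl => (h l hl).trans (hz l hl))
  · intro hy z hz
    exact hy z (fun l hl => (h l hl).symm.trans (hz l hl))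

open Classical in
/-- the tree below the logical node `(s, u)` -/
private noncomputable def psi_HE {X Q : Type} (i j : Bits X) (k : X → Tre (Lt3 Q)) (x : X) :
    List Bool → List Bool → List Bool → Lt3 (Q ⊕ Fin 3)
  | s, u, [] => fun p => match p with
    | Sum.inl q => K_HE j k s u q
    | Sum.inr a => if a = 1 ∧ s.head? = some false then true else false
  | _, _, [_] => fun _ => false
  | s, _, _ :: false :: v => fun p => match p with
    | Sum.inl _ => false
    | Sum.inr a => if a = 0 ∨ (a = 2 ∧ Vi_HE i j x s.length v.length) then true else false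
  | _, _, [_, true] => fun _ => false
  | s, u, e :: true :: σ :: v => psi_HE i j k x (σ :: s) (u ++ [e]) v

private lemma psi_sub_HE {X Q : Type} (i j : Bits X) (k : X → Tre (Lt3 Q)) (x : X)
    (s u : List Bool) (e σ : Bool) :
    Tre.sub (psi_HE i j k x s u) [e, true, σ] = psi_HE i j k x (σ :: s) (u ++ [e]) := by
  funext v
  show psi_HE i j k x s u (e :: true :: σ :: v) = _
  rw [psi_HE]

private lemma psi_ctr_HE {X Q : Type} (i j : Bits X) (k : X → Tre (Lt3 Q)) (x y : X) :
    ∀ (n : ℕ) (v s u : List Bool), v.length ≤ n → Ag i v.length x y →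
      psi_HE i j k x s u v = psi_HE i j k y s u v := by
  intro n
  induction n with
  | zero =>
    intro v s u hv _
    have : v = [] := List.length_eq_zero_iff.1 (by omega)
    subst this
    rw [psi_HE, psi_HE]
  | succ n ih =>
    intro v s u hv hag
    match v with
    | [] => rw [psi_HE, psi_HE]
    | [_] => rw [psi_HE, psi_HE]
    | e :: false :: v =>
      rw [psi_HE, psi_HE]
      have h : Vi_HE i j x s.length v.length ↔ Vi_HE i j y s.length v.length :=
        Vi_congr_HE i j x y _ _ (fun l hl => hag l (by simp; omega))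
      funext p
      rcases p with p | a
      · rfl
      · by_cases h0 : a = 0 ∨ (a = 2 ∧ Vi_HE i j x s.length v.length)
        · have h0' : a = 0 ∨ (a = 2 ∧ Vi_HE i j y s.length v.length) :=
            h0.imp id (fun h' => ⟨h'.1, h.1 h'.2⟩)
          exact (if_pos h0).trans (if_pos h0').symm
        · have h0' : ¬ (a = 0 ∨ (a = 2 ∧ Vi_HE i j y s.length v.length)) :=
            fun h1 => h0 (h1.imp id (fun h' => ⟨h'.1, h.2 h'.2⟩))
          exact (if_neg h0).trans (if_neg h0').symm
    | [_, true] => rw [psi_HE, psi_HE]
    | e :: true :: σ :: v =>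
      rw [psi_HE, psi_HE]
      apply ih
      · simp at hv
        omega
      · intro l hl
        exact hag l (by simp; omega)

private lemma dk_HE {X Q : Type} (i j : Bits X) (k : X → Tre (Lt3 Q)) (x : X)
    (s u : List Bool) (e : Bool) :
    dk (Tre.sub (psi_HE i j k x s u) [e]) = true := by
  show psi_HE i j k x s u [e, false] (Sum.inr 0) = true
  rw [psi_HE]
  simp

private lemma m1_HE {X Q : Type} (i j : Bits X) (k : X → Tre (Lt3 Q)) (x : X)
    (s u : List Bool) (e σ : Bool) :
    psi_HE i j k x s u [e, true, σ] (Sum.inr 1) = !σ := by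
  rw [psi_HE, psi_HE]
  cases σ <;> simp

private lemma wf_HE {X Q : Type} (i j : Bits X) (k : X → Tre (Lt3 Q)) (x : X) :
    ∀ (n : ℕ) (s u : List Bool), WFn n (psi_HE i j k x s u : Tre (Lt3 (Q ⊕ Fin 3))) := by
  intro n
  induction n with
  | zero => intro s u; trivial
  | succ n ih =>
    intro s u e
    rw [dk_HE]
    refine ⟨?_, ?_, ?_⟩
    · have h1 : psi_HE i j k x s u [e, false] (Sum.inr 0) = true := by rw [psi_HE]; simp
      have h2 : psi_HE i j k x s u [e, true] (Sum.inr 0) = false := by rw [psi_HE]
      rw [h1, h2]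
      simp
    · rw [m1_HE, m1_HE]
      simp
    · intro σ
      rw [psi_sub_HE]
      exact ih _ _

private lemma nb_HE {X Q : Type} (i j : Bits X) (k : X → Tre (Lt3 Q)) (x : X)
    (hcl : ∀ m, Cl i {x | j x m = true}) (s u : List Bool) (e : Bool) :
    NB (Tre.sub (psi_HE i j k x s u) [e]) ↔ j x s.length = true := by
  have hV : j x s.length = false ↔ ∃ N, Vi_HE i j x s.length N := by
    constructor
    · intro h
      obtain ⟨N, hN⟩ := hcl s.length x (by simp [h])
      refine ⟨N, fun y hy => ?_⟩
      have := hN hy
      simpa using this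
    · rintro ⟨N, hN⟩
      exact hN x (fun _ _ => rfl)
  have hc : ∀ v, Tre.sub (psi_HE i j k x s u) [e] v = psi_HE i j k x s u (e :: v) := fun v => rfl
  constructor
  · intro h
    by_contra hne
    have h0 : j x s.length = false := by simpa using hne
    obtain ⟨N, hN⟩ := hV.1 h0
    have h1 := h (false :: List.replicate N false) (by simp) (by
      intro w hw hpre
      match w with
      | [] => exact absurd rfl hw
      | b :: w =>
        have hb : b = false := by
          obtain ⟨r, hr⟩ := hpre
          simp only [List.cons_append, List.cons.injEq] at hr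
          exact hr.1
        subst hb
        rw [hc, psi_HE]
        simp)
    rw [hc, psi_HE] at h1
    simp [hN] at h1
  · intro h v hv hw
    match v with
    | [] => exact absurd rfl hv
    | true :: v =>
      exfalso
      have h1 := hw [true] (by simp) ⟨v, rfl⟩
      rw [hc, psi_HE] at h1
      exact absurd h1 (by simp)
    | false :: v =>
      rw [hc, psi_HE]
      have h2 : ¬ Vi_HE i j x s.length v.length := by
        intro hVi
        have := hV.2 ⟨_, hVi⟩
        rw [h] at this
        exact absurd this (by simp)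
      simp [h2]

private lemma sel_HE {X Q : Type} (i j : Bits X) (k : X → Tre (Lt3 Q)) (x : X)
    (hcl : ∀ m, Cl i {x | j x m = true}) (s u : List Bool) (e : Bool) :
    sel (Tre.sub (psi_HE i j k x s u) [e]) = [true, j x s.length] := by
  unfold sel
  rw [dk_HE]
  have h1 : Tre.sub (psi_HE i j k x s u) [e] [true, false] (Sum.inr 1) = true := by
    show psi_HE i j k x s u [e, true, false] (Sum.inr 1) = true
    rw [m1_HE]
    rfl
  rw [h1]
  by_cases h : j x s.length = true
  · rw [if_pos ((nb_HE i j k x hcl s u e).2 h), h]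
  · rw [if_neg (fun h' => h ((nb_HE i j k x hcl s u e).1 h'))]
    have : j x s.length = false := by simpa using h
    rw [this]
    rfl

private lemma len_pre_HE {X : Type} (j : Bits X) (x : X) : ∀ n, (pre_HE j x n).length = n := by
  intro n
  induction n with
  | zero => rfl
  | succ n ih => simp [pre_HE, ih]

private lemma dec_HE {X Q : Type} (i j : Bits X) (k : X → Tre (Lt3 Q)) (hk : Ctr j k) (x : X)
    (hcl : ∀ m, Cl i {x | j x m = true}) :
    ∀ (u' u : List Bool), dec u' (psi_HE i j k x (pre_HE j x u.length) u) = k x (u ++ u') := by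
  intro u'
  induction u' with
  | nil =>
    intro u
    rw [List.append_nil]
    funext p
    show psi_HE i j k x (pre_HE j x u.length) u [] (Sum.inl p) = _
    rw [psi_HE, K_eq_HE j k hk]
  | cons e u' ih =>
    intro u
    show dec u' (Tre.sub (psi_HE i j k x (pre_HE j x u.length) u)
      (e :: sel (Tre.sub (psi_HE i j k x (pre_HE j x u.length) u) [e]))) = _
    rw [sel_HE i j k x hcl, psi_sub_HE, len_pre_HE]
    have h := ih (u ++ [e])
    rw [List.append_assoc] at h
    have e1 : pre_HE j x (u ++ [e]).length = j x u.length :: pre_HE j x u.length := by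
      rw [List.length_append]
      rfl
    rw [e1] at h
    exact h

theorem hHE : StHE := by
  intro Q C L hL X i A hA
  obtain ⟨j, hcl, hC⟩ := hA
  obtain ⟨k, hk, -, hAk⟩ := hL X j A hC
  refine ⟨fun x => psi_HE i j k x [] [], ?_, ?_, ?_⟩
  · intro u x y h
    exact psi_ctr_HE i j k x y u.length u [] [] le_rfl h
  · intro x
    show psi_HE i j k x [] [] [] (Sum.inr 0) = false
    rw [psi_HE]
    simp
  · intro x
    rw [hAk x]
    have h1 : (fun u => dec u (psi_HE i j k x [] [] : Tre (Lt3 (Q ⊕ Fin 3)))) = k x := by
      funext u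
      exact dec_HE i j k hk x hcl u []
    constructor
    · intro h
      refine ⟨fun n => wf_HE i j k x n [] [], ?_⟩
      show (fun u => dec u (psi_HE i j k x [] [] : Tre (Lt3 (Q ⊕ Fin 3)))) ∈ L
      rw [h1]
      exact h
    · intro h
      have h2 : (fun u => dec u (psi_HE i j k x [] [] : Tre (Lt3 (Q ⊕ Fin 3)))) ∈ L := h.2
      rw [h1] at h2
      exact h2

end Pool.Agent.Helper30.WL
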