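import Pool.Agent.Helper30.WL.St

set_option autoImplicit false

namespace Pool.Agent.Helper30.WL

open Set
open Pool.Agent.Helper24.WH (Tre pT)

private lemma Ag_mono_HS {X : Type} (i : Bits X) {m n : ℕ} {x y : X} (h : Ag i n x y)
    (hmn : m ≤ n) : Ag i m x y := fun k hk => h k (by omega)

private lemma Ag_symm_HS {X : Type} (i : Bits X) {n : ℕ} {x y : X} (h : Ag i n x y) :
    Ag i n y x := fun k hk => (h k hk).symm

private lemma Cy_eq_HS {X : Type} (i : Bits X) {n : ℕ} {x y : X} (h : Ag i n x y) :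
    Cy i n x = Cy i n y := by
  ext z
  constructor
  · intro hz k hk
    exact (h k hk).symm.trans (hz k hk)
  · intro hz k hk
    exact (h k hk).trans (hz k hk)

/-- the empty tree -/
private def junk_HS (Q : Type) : Tre (Lt3 Q) := fun _ _ => false

/-- the tree with spine letters `sp` and other parts `pa` -/
private def psi_HS {Q : Type} (sp : ℕ → Lt3 Q) (pa : ℕ → Tre (Lt3 Q)) :
    ℕ → List Bool → Lt3 Q
  | m, [] => sp m
  | m, true :: v => psi_HS sp pa (m + 1) v
  | m, false :: v => pa m v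

/-- the same as a tree -/
private def T_HS {Q : Type} (sp : ℕ → Lt3 Q) (pa : ℕ → Tre (Lt3 Q)) (m : ℕ) : Tre (Lt3 Q) :=
  psi_HS sp pa m

section tree

variable {Q : Type} (sp : ℕ → Lt3 Q) (pa : ℕ → Tre (Lt3 Q))

private lemma T0_HS (m : ℕ) : T_HS sp pa m [] = sp m := by
  show psi_HS sp pa m [] = sp m
  rw [psi_HS]

private lemma Tt_HS (m : ℕ) (v : List Bool) : T_HS sp pa m (true :: v) = T_HS sp pa (m + 1) v := by
  show psi_HS sp pa m (true :: v) = psi_HS sp pa (m + 1) v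
  rw [psi_HS]

private lemma Tf_HS (m : ℕ) (v : List Bool) : T_HS sp pa m (false :: v) = pa m v := by
  show psi_HS sp pa m (false :: v) = pa m v
  rw [psi_HS]

private lemma dX_HS (h1 : ∀ m, pa m [] (Sum.inr 0) = false) (m : ℕ) :
    dX (T_HS sp pa m) = true := by
  unfold dX
  rw [Tf_HS, h1]
  rfl

private lemma nx_HS (h1 : ∀ m, pa m [] (Sum.inr 0) = false) (m : ℕ) :
    nx (T_HS sp pa m) = T_HS sp pa (m + 1) := by
  unfold nx
  rw [dX_HS sp pa h1]
  funext v
  exact Tt_HS sp pa m v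

private lemma pt_HS (h1 : ∀ m, pa m [] (Sum.inr 0) = false) (m : ℕ) :
    pt (T_HS sp pa m) = pa m := by
  unfold pt
  rw [dX_HS sp pa h1]
  funext v
  exact Tf_HS sp pa m v

private lemma nxn_HS (h1 : ∀ m, pa m [] (Sum.inr 0) = false) (n : ℕ) :
    nx^[n] (T_HS sp pa 0) = T_HS sp pa n := by
  induction n with
  | zero => rfl
  | succ n ih => rw [Function.iterate_succ_apply', ih, nx_HS sp pa h1]

private lemma wf_HS (h1 : ∀ m, pa m [] (Sum.inr 0) = false)
    (h2 : ∀ m, sp (m + 1) (Sum.inr 0) = true) (m : ℕ) : wfX (T_HS sp pa m) := by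
  unfold wfX
  rw [Tf_HS, Tt_HS, T0_HS, h1, h2]
  simp

private lemma stay_HS (h1 : ∀ m, pa m [] (Sum.inr 0) = false)
    (h2 : ∀ m, sp (m + 1) (Sum.inr 0) = true) (m : ℕ) :
    stay (T_HS sp pa m) ↔ sp m (Sum.inr 1) = false := by
  unfold stay
  rw [T0_HS]
  exact ⟨fun h => h.2, fun h => ⟨wf_HS sp pa h1 h2 m, h⟩⟩

private lemma sw_HS (K : Set (Tre (Lt3 Q))) (h1 : ∀ m, pa m [] (Sum.inr 0) = false)
    (h2 : ∀ m, sp (m + 1) (Sum.inr 0) = true) (m : ℕ) :
    Sw K (T_HS sp pa m) ↔ sp m (Sum.inr 1) = true ∧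
      (pa m ∈ K ↔ sp m (Sum.inr 2) = false) := by
  unfold Sw
  rw [T0_HS, pt_HS sp pa h1]
  exact ⟨fun h => h.2, fun h => ⟨wf_HS sp pa h1 h2 m, h⟩⟩

private lemma mem_HS (K H : Set (Tre (Lt3 Q))) (h1 : ∀ m, pa m [] (Sum.inr 0) = false)
    (h2 : ∀ m, sp (m + 1) (Sum.inr 0) = true) :
    T_HS sp pa 0 ∈ Su K H ↔
      (∃ n, (∀ m, m < n → sp m (Sum.inr 1) = false) ∧ sp n (Sum.inr 1) = true ∧
        (pa n ∈ K ↔ sp n (Sum.inr 2) = false)) ∨
      ((∀ n, sp n (Sum.inr 1) = false) ∧ pa 0 ∈ H) := by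
  have e : (T_HS sp pa 0 ∈ Su K H) =
      ((∃ n, (∀ m, m < n → stay (nx^[m] (T_HS sp pa 0))) ∧ Sw K (nx^[n] (T_HS sp pa 0))) ∨
      ((∀ n, stay (nx^[n] (T_HS sp pa 0))) ∧ pt (T_HS sp pa 0) ∈ H)) := rfl
  rw [e]
  simp only [nxn_HS sp pa h1, stay_HS sp pa h1 h2, sw_HS sp pa K h1 h2, pt_HS sp pa h1]

end tree

private lemma ctr_HS {X Q : Type} (i : Bits X) (sp : X → ℕ → Lt3 Q)
    (pa : X → ℕ → Tre (Lt3 Q)) (x y : X) (h1 : ∀ m, Ag i m x y → sp x m = sp y m)
    (h2 : ∀ m v, Ag i (m + v.length) x y → pa x m v = pa y m v) :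
    ∀ (v : List Bool) (m : ℕ), Ag i (m + v.length) x y →
      T_HS (sp x) (pa x) m v = T_HS (sp y) (pa y) m v := by
  intro v
  induction v with
  | nil =>
    intro m h
    rw [T0_HS, T0_HS]
    exact h1 m (by simpa using h)
  | cons e v ih =>
    intro m h
    rw [List.length_cons] at h
    cases e with
    | false =>
      rw [Tf_HS, Tf_HS]
      exact h2 m v (Ag_mono_HS i h (by omega))
    | true =>
      rw [Tt_HS, Tt_HS]
      exact ih (m + 1) (Ag_mono_HS i h (by omega))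

private lemma ext_HS {X Q : Type} (i : Bits X) (O : Set X) (C : Cls) (A : Set X)
    (L : Set (Tre (Lt3 Q))) (hL : Hard C L) (hC : C O (res i O) (tr O A)) :
    ∃ k : X → Tre (Lt3 Q), (∀ x ∈ O, ∀ y ∈ O, ∀ u : List Bool, Ag i u.length x y →
      k x u = k y u) ∧ (∀ x, k x [] (Sum.inr 0) = false) ∧ ∀ x ∈ O, (x ∈ A ↔ k x ∈ L) := by
  classical
  obtain ⟨k, hk1, hk2, hk3⟩ := hL O (res i O) (tr O A) hC
  let k' : X → Tre (Lt3 Q) := fun x => if h : x ∈ O then k ⟨x, h⟩ else junk_HS Q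
  have hpos : ∀ x (hx : x ∈ O), k' x = k ⟨x, hx⟩ := fun x hx => dif_pos hx
  have hneg : ∀ x, x ∉ O → k' x = junk_HS Q := fun x hx => dif_neg hx
  refine ⟨k', ?_, ?_, ?_⟩
  · intro x hx y hy u h
    rw [hpos x hx, hpos y hy]
    exact hk1 u ⟨x, hx⟩ ⟨y, hy⟩ h
  · intro x
    by_cases hx : x ∈ O
    · rw [hpos x hx]
      exact hk2 _
    · rw [hneg x hx]
      rfl
  · intro x hx
    rw [hpos x hx]
    exact hk3 ⟨x, hx⟩

private lemma off_HS {X Q : Type} (i : Bits X) (B A O : Set X) (U : Cls)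
    (K : Set (Tre (Lt3 Q))) (hK : Hard U K) (hO : Off U i B A O) :
    ∃ (g : Bool) (k : X → Tre (Lt3 Q)), (∀ x ∈ O, ∀ y ∈ O, ∀ u : List Bool,
      Ag i u.length x y → k x u = k y u) ∧ (∀ x, k x [] (Sum.inr 0) = false) ∧
      ∀ x ∈ O, (x ∈ A ↔ (k x ∈ K ↔ g = false)) := by
  rcases hO.2 with h | h
  · obtain ⟨k, h1, h2, h3⟩ := ext_HS i O U A K hK h
    refine ⟨false, k, h1, h2, ?_⟩
    intro x hx
    rw [h3 x hx]
    simp
  · obtain ⟨k, h1, h2, h3⟩ := ext_HS i O U Aᶜ K hK h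
    refine ⟨true, k, h1, h2, ?_⟩
    intro x hx
    have h4 := h3 x hx
    rw [Set.mem_compl_iff] at h4
    rw [← h4]
    simp

theorem hHS : StHS := by
  classical
  intro Q U E K H hK hH X i A hA
  obtain ⟨B, hBcl, hBE, hBU⟩ := hA
  obtain ⟨kB, hB1, hB2, hB3⟩ := ext_HS i B E A H hH hBE
  have hOff : ∀ O, Off U i B A O → ∃ (g : Bool) (k : X → Tre (Lt3 Q)), (∀ x ∈ O, ∀ y ∈ O,
      ∀ u : List Bool, Ag i u.length x y → k x u = k y u) ∧ (∀ x, k x [] (Sum.inr 0) = false) ∧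
      ∀ x ∈ O, (x ∈ A ↔ (k x ∈ K ↔ g = false)) := fun O hO => off_HS i B A O U K hK hO
  haveI : Nonempty (Tre (Lt3 Q)) := ⟨junk_HS Q⟩
  choose! g k hk1 hk2 hk3 using hOff
  let P : X → ℕ → Prop := fun x n => Off U i B A (Cy i n x)
  let F : X → ℕ → Prop := fun x n => P x n ∧ ∀ m, m < n → ¬ P x m
  have hPc : ∀ x y n, Ag i n x y → (P x n ↔ P y n) := by
    intro x y n h
    show Off U i B A (Cy i n x) ↔ Off U i B A (Cy i n y)
    rw [Cy_eq_HS i h]
  have hFc : ∀ x y n, Ag i n x y → (F x n ↔ F y n) := by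
    intro x y n h
    have h2 : ∀ m, m < n → (P x m ↔ P y m) := fun m hm => hPc x y m (Ag_mono_HS i h (by omega))
    constructor
    · rintro ⟨h3, h4⟩
      exact ⟨(hPc x y n h).1 h3, fun m hm h5 => h4 m hm ((h2 m hm).2 h5)⟩
    · rintro ⟨h3, h4⟩
      exact ⟨(hPc x y n h).2 h3, fun m hm h5 => h4 m hm ((h2 m hm).1 h5)⟩
  have hxC : ∀ (x : X) (n : ℕ), x ∈ Cy i n x := fun x n _ _ => rfl
  have hPB : ∀ x, x ∈ B → ∀ n, ¬ P x n := by
    intro x hx n hP
    exact Set.disjoint_left.1 hP.1 (hxC x n) hx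
  have hFex : ∀ x, x ∉ B → ∃ n, F x n := by
    intro x hx
    have hex : ∃ n, P x n := hBU x hx
    exact ⟨Nat.find hex, Nat.find_spec hex, fun m hm => Nat.find_min hex hm⟩
  have hFu : ∀ x m n, F x m → P x n → m ≤ n := by
    intro x m n hm hn
    by_contra h
    exact hm.2 n (by omega) hn
  -- spine letters
  let sp : X → ℕ → Lt3 Q := fun x m p => match p with
    | Sum.inl _ => false
    | Sum.inr a => decide ((a = 0 ∧ m ≠ 0) ∨ (a = 1 ∧ ∃ n, n < m ∧ P x n) ∨
        (a = 2 ∧ ∃ n, n < m ∧ F x n ∧ g (Cy i n x) = true))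
  let pa : X → ℕ → Tre (Lt3 Q) := fun x m v => match m with
    | 0 => if h : (B ∩ Cy i v.length x).Nonempty then kB h.some v else fun _ => false
    | n + 1 => if F x n then k (Cy i n x) x v else fun _ => false
  have hsp : ∀ x y m, Ag i m x y → sp x m = sp y m := by
    intro x y m h
    have e1 : (∃ n, n < m ∧ P x n) ↔ ∃ n, n < m ∧ P y n := by
      apply exists_congr
      intro n
      apply and_congr_right
      intro hn
      exact hPc x y n (Ag_mono_HS i h (by omega))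
    have e2 : (∃ n, n < m ∧ F x n ∧ g (Cy i n x) = true) ↔
        ∃ n, n < m ∧ F y n ∧ g (Cy i n y) = true := by
      apply exists_congr
      intro n
      apply and_congr_right
      intro hn
      rw [hFc x y n (Ag_mono_HS i h (by omega)), Cy_eq_HS i (Ag_mono_HS i h (by omega : n ≤ m))]
    funext p
    rcases p with p | a
    · rfl
    · show decide ((a = 0 ∧ m ≠ 0) ∨ (a = 1 ∧ ∃ n, n < m ∧ P x n) ∨
        (a = 2 ∧ ∃ n, n < m ∧ F x n ∧ g (Cy i n x) = true)) =
        decide ((a = 0 ∧ m ≠ 0) ∨ (a = 1 ∧ ∃ n, n < m ∧ P y n) ∨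
        (a = 2 ∧ ∃ n, n < m ∧ F y n ∧ g (Cy i n y) = true))
      rw [decide_eq_decide, e1, e2]
  have hpa : ∀ x y m (v : List Bool), Ag i (m + v.length) x y → pa x m v = pa y m v := by
    intro x y m v h
    match m with
    | 0 =>
      have e : B ∩ Cy i v.length x = B ∩ Cy i v.length y := by
        rw [Cy_eq_HS i (Ag_mono_HS i h (by omega))]
      show (if h : (B ∩ Cy i v.length x).Nonempty then kB h.some v else fun _ => false) =
        (if h : (B ∩ Cy i v.length y).Nonempty then kB h.some v else fun _ => false)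
      rw [e]
    | n + 1 =>
      show (if F x n then k (Cy i n x) x v else (fun _ => false : Lt3 Q)) =
        (if F y n then k (Cy i n y) y v else (fun _ => false : Lt3 Q))
      have hn : Ag i n x y := Ag_mono_HS i h (by omega)
      by_cases hF : F x n
      · rw [if_pos hF, if_pos ((hFc x y n hn).1 hF), ← Cy_eq_HS i hn]
        exact hk1 _ hF.1 x (hxC x n) y hn v (Ag_mono_HS i h (by omega))
      · rw [if_neg hF, if_neg (fun h' => hF ((hFc x y n hn).2 h'))]
  have hp0 : ∀ x m, pa x m [] (Sum.inr 0) = false := by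
    intro x m
    match m with
    | 0 =>
      show (if h : (B ∩ Cy i ([] : List Bool).length x).Nonempty then kB h.some [] else
        fun _ => false) (Sum.inr 0) = false
      by_cases h : (B ∩ Cy i ([] : List Bool).length x).Nonempty
      · rw [dif_pos h]
        exact hB2 _
      · rw [dif_neg h]
    | n + 1 =>
      show (if F x n then k (Cy i n x) x [] else (fun _ => false : Lt3 Q)) (Sum.inr 0) = false
      by_cases hF : F x n
      · rw [if_pos hF]
        exact hk2 _ hF.1 x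
      · rw [if_neg hF]
  have hs0 : ∀ x m, sp x (m + 1) (Sum.inr 0) = true := by
    intro x m
    show decide (_ ∨ _) = true
    rw [decide_eq_true_eq]
    exact Or.inl ⟨rfl, Nat.succ_ne_zero m⟩
  have hs1 : ∀ x m, (sp x m (Sum.inr 1) = true ↔ ∃ n, n < m ∧ P x n) := by
    intro x m
    show (decide (((1 : Fin 3) = 0 ∧ m ≠ 0) ∨ ((1 : Fin 3) = 1 ∧ ∃ n, n < m ∧ P x n) ∨
        ((1 : Fin 3) = 2 ∧ ∃ n, n < m ∧ F x n ∧ g (Cy i n x) = true)) = true) ↔ _
    rw [decide_eq_true_eq]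
    simp
  have hs1' : ∀ x m, (sp x m (Sum.inr 1) = false ↔ ¬ ∃ n, n < m ∧ P x n) := by
    intro x m
    rw [← hs1]
    simp
  have hs2 : ∀ x m, (sp x m (Sum.inr 2) = false ↔
      ¬ ∃ n, n < m ∧ F x n ∧ g (Cy i n x) = true) := by
    intro x m
    show (decide (((2 : Fin 3) = 0 ∧ m ≠ 0) ∨ ((2 : Fin 3) = 1 ∧ ∃ n, n < m ∧ P x n) ∨
        ((2 : Fin 3) = 2 ∧ ∃ n, n < m ∧ F x n ∧ g (Cy i n x) = true)) = false) ↔ _
    rw [decide_eq_false_iff_not]
    simp
  refine ⟨fun x => T_HS (sp x) (pa x) 0, ?_, ?_, ?_⟩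
  · intro u x y h
    exact ctr_HS i sp pa x y (hsp x y) (hpa x y) u 0 (by simpa using h)
  · intro x
    show T_HS (sp x) (pa x) 0 [] (Sum.inr 0) = false
    rw [T0_HS]
    show decide (((0 : Fin 3) = 0 ∧ (0 : ℕ) ≠ 0) ∨ ((0 : Fin 3) = 1 ∧ ∃ n, n < 0 ∧ P x n) ∨
        ((0 : Fin 3) = 2 ∧ ∃ n, n < 0 ∧ F x n ∧ g (Cy i n x) = true)) = false
    rw [decide_eq_false_iff_not]
    simp
  · intro x
    show x ∈ A ↔ T_HS (sp x) (pa x) 0 ∈ Su K H
    rw [mem_HS (sp x) (pa x) K H (hp0 x) (hs0 x)]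
    by_cases hx : x ∈ B
    · have hno : ∀ n, ¬ ∃ m, m < n ∧ P x m := by
        rintro n ⟨m, -, hm⟩
        exact hPB x hx m hm
      have hpa0 : pa x 0 = kB x := by
        funext v
        have hne : (B ∩ Cy i v.length x).Nonempty := ⟨x, hx, hxC x _⟩
        show (if h : (B ∩ Cy i v.length x).Nonempty then kB h.some v else fun _ => false) = _
        rw [dif_pos hne]
        exact hB1 _ hne.some_mem.1 x hx v (Ag_symm_HS i hne.some_mem.2)
      rw [hpa0, hB3 x hx]
      constructor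
      · intro h
        exact Or.inr ⟨fun n => (hs1' x n).2 (hno n), h⟩
      · rintro (⟨n, -, h3, -⟩ | ⟨-, h3⟩)
        · exact absurd ((hs1 x n).1 h3) (hno n)
        · exact h3
    · obtain ⟨N, hN⟩ := hFex x hx
      have hlow : ∀ m, m ≤ N → ¬ ∃ n, n < m ∧ P x n := by
        rintro m hm ⟨n, hn, hP⟩
        exact hN.2 n (by omega) hP
      have hpaN : pa x (N + 1) = k (Cy i N x) x := by
        funext v
        show (if F x N then k (Cy i N x) x v else (fun _ => false : Lt3 Q)) = _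
        rw [if_pos hN]
      have hg : sp x (N + 1) (Sum.inr 2) = false ↔ g (Cy i N x) = false := by
        rw [hs2]
        constructor
        · intro h
          by_contra hne
          exact h ⟨N, Nat.lt_succ_self N, hN, by simpa using hne⟩
        · rintro h ⟨n, hn, hF, hgt⟩
          have e : n = N := le_antisymm (by omega) (hFu x N n hN hF.1)
          subst e
          rw [h] at hgt
          exact absurd hgt (by simp)
      have hkey := hk3 (Cy i N x) hN.1 x (hxC x N)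
      rw [hkey]
      constructor
      · intro h
        refine Or.inl ⟨N + 1, fun m hm => (hs1' x m).2 (hlow m (by omega)),
          (hs1 x _).2 ⟨N, Nat.lt_succ_self N, hN.1⟩, ?_⟩
        rw [hpaN, hg]
        exact h
      · rintro (⟨n, h3, h4, h5⟩ | ⟨h3, -⟩)
        · have h6 : n = N + 1 := by
            rcases lt_trichotomy n (N + 1) with h7 | h7 | h7
            · exact absurd ((hs1 x n).1 h4) (hlow n (by omega))
            · exact h7
            · exact absurd ⟨N, Nat.lt_succ_self N, hN.1⟩ ((hs1' x _).1 (h3 (N + 1) h7))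
          subst h6
          rw [hpaN, hg] at h5
          exact h5
        · exact absurd ⟨N, Nat.lt_succ_self N, hN.1⟩ ((hs1' x _).1 (h3 (N + 1)))

end Pool.Agent.Helper30.WL
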