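import Pool.Agent.Helper30.WL.St

/-!
# PROJECT WL: module KEY (absorption)
-/

set_option autoImplicit false

namespace Pool.Agent.Helper30.WL

open Set
open Pool.Agent.Helper24.WH (Tre pT)
open Ordinal hiding univ

theorem hKEY (hCLS : StCLS) (hLT : StLT) : StKEY := by
  intro U V C C' hU hC' hCC hV X i A hA
  obtain ⟨-, -, -, h4⟩ := hLT
  have hE : LtC (ExpC C) (ExpC C') := h4 C C' hCC
  rcases hA with ⟨B, hB, hBE, hoff⟩ | ⟨B, hB, hBE, hoff⟩
  · refine hCLS U C' hU hC' X i A B hB (hE _ _ _ (Or.inl hBE)) fun x hx => ?_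
    obtain ⟨n, hd, hn⟩ := hoff x hx
    exact ⟨n, hd, hV _ _ _ hn⟩
  · refine hCLS U C' hU hC' X i A B hB (hE _ _ _ (Or.inr hBE)) fun x hx => ?_
    obtain ⟨n, hd, hn⟩ := hoff x hx
    rw [compl_compl] at hn
    exact ⟨n, hd, hV _ _ _ hn.symm⟩

end Pool.Agent.Helper30.WL
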