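import Pool.Agent.Helper30.WL.St2

/-!
# PROJECT WL (MP_76577a_lc), modules LG and DPN
-/

set_option autoImplicit false

namespace Pool.Agent.Helper30.WL

open Set
open Pool.Agent.Helper24.WH

theorem hLG (hF1 : StF1) (hF2 : StF2) : StLG := by
  intro P φ hφ V
  have h1 : φ.SEM (fun _ => ∅) = φ.SEM V :=
    (hF2 P φ).2.1 _ _ fun i hi => absurd hi (hφ i)
  rw [← h1]
  ext t
  have h2 := hF1 P φ t (fun _ => ∅) []
  have h3 : (fun n : ℕ => {w : List Bool | t.sub w ∈ ((fun _ => ∅ : ℕ → Set (Tre (Set P))) n)}) =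
      fun _ => ∅ := by
    funext n
    ext w
    simp
  rw [h3] at h2
  have h4 : t.sub [] = t := rfl
  rw [h4] at h2
  exact h2

theorem hDPN : StDPN := by
  intro P φ
  induction φ with
  | prop p => exact fun n => ⟨id, id⟩
  | nprop p => exact fun n => ⟨id, id⟩
  | top => exact fun n => ⟨id, id⟩
  | bot => exact fun n => ⟨id, id⟩
  | var k => exact fun n => ⟨fun h => h.elim, fun h => h.elim⟩
  | and φ ψ h1 h2 =>
    exact fun n => ⟨Or.imp (h1 n).1 (h2 n).1, Or.imp (h1 n).2 (h2 n).2⟩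
  | or φ ψ h1 h2 =>
    exact fun n => ⟨Or.imp (h1 n).1 (h2 n).1, Or.imp (h1 n).2 (h2 n).2⟩
  | dia φ h1 => exact fun n => h1 n
  | box φ h1 => exact fun n => h1 n
  | mu φ h1 => exact fun n => ⟨(h1 (n + 1)).1, id⟩
  | nu φ h1 => exact fun n => ⟨id, (h1 (n + 1)).2⟩

end Pool.Agent.Helper30.WL
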