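import Pool.Agent.Helper30.WL.St2

set_option autoImplicit false

namespace Pool.Agent.Helper30.WL

open Set
open Pool.Agent.Helper24.WH
open Ordinal hiding univ

/-- inverse of `toB` -/
def ofB_LO {P : Type} (t : Tre (P → Bool)) : Tre (Set P) := fun u => {p | t u p = true}

theorem toB_ofB_LO {P : Type} (t : Tre (P → Bool)) : toB (ofB_LO t) = t := by
  classical
  funext u p
  have h1 : (toB (ofB_LO t) u p = true) ↔ t u p = true := by
    unfold toB
    rw [decide_eq_true_iff]
    exact Iff.rfl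
  cases h : t u p
  · rw [h] at h1
    simpa using h1
  · exact h1.mpr h

theorem ofB_toB_LO {P : Type} (t : Tre (Set P)) : ofB_LO (toB t) = t := by
  funext u
  ext p
  simp [toB, ofB_LO]

/-- a letterwise map of trees is continuous -/
theorem letter_cont_LO (A B : Type) (φ : A → B) :
    @Continuous (Tre A) (Tre B) (pT A) (pT B) (fun t u => φ (t u)) := by
  let tA : TopologicalSpace A := ⊥
  let tB : TopologicalSpace B := ⊥
  have : DiscreteTopology A := ⟨rfl⟩
  change @Continuous (List Bool → A) (List Bool → B) Pi.topologicalSpace Pi.topologicalSpace (fun t u => φ (t u))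
  refine continuous_pi (fun u => ?_)
  exact (continuous_of_discreteTopology (f := φ)).comp (continuous_apply u)

theorem toB_cont_LO (P : Type) : @Continuous _ _ (pT (Set P)) (pT (P → Bool)) (toB (P := P)) := by
  classical
  exact letter_cont_LO (Set P) (P → Bool) (fun s p => decide (p ∈ s))

theorem ofB_cont_LO (P : Type) : @Continuous _ _ (pT (P → Bool)) (pT (Set P)) (ofB_LO (P := P)) :=
  letter_cont_LO (P → Bool) (Set P) (fun f => {p | f p = true})

/-- transfer of reductions from the boolean form -/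
theorem red_LO {P : Type} (K K' : Set (Tre (P → Bool)))
    (h : ∃ f : Tre (P → Bool) → Tre (P → Bool), @Continuous _ _ (pT (P → Bool)) (pT (P → Bool)) f ∧ ∀ t, t ∈ K ↔ f t ∈ K') :
    WLe {t : Tre (Set P) | toB t ∈ K} {t : Tre (Set P) | toB t ∈ K'} := by
  obtain ⟨f, hf, hfK⟩ := h
  refine ⟨fun t => ofB_LO (f (toB t)), ?_, ?_⟩
  · exact @Continuous.comp _ _ _ (pT (Set P)) (pT (P → Bool)) (pT (Set P)) _ _ (ofB_cont_LO P)
      (@Continuous.comp _ _ _ (pT (Set P)) (pT (P → Bool)) (pT (P → Bool)) _ _ hf (toB_cont_LO P))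
  · ext t
    simp only [mem_preimage, mem_ofPred_eq, toB_ofB_LO]
    exact (hfK (toB t)).symm

/-- transfer of reductions to the boolean form -/
theorem red'_LO {P : Type} (K K' : Set (Tre (P → Bool)))
    (h : WLe {t : Tre (Set P) | toB t ∈ K} {t : Tre (Set P) | toB t ∈ K'}) :
    ∃ f : Tre (P → Bool) → Tre (P → Bool), @Continuous _ _ (pT (P → Bool)) (pT (P → Bool)) f ∧ ∀ t, t ∈ K ↔ f t ∈ K' := by
  obtain ⟨F, hF, hFK⟩ := h
  refine ⟨fun t => toB (F (ofB_LO t)), ?_, ?_⟩
  · exact @Continuous.comp _ _ _ (pT (P → Bool)) (pT (Set P)) (pT (P → Bool)) _ _ (toB_cont_LO P)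
      (@Continuous.comp _ _ _ (pT (P → Bool)) (pT (Set P)) (pT (Set P)) _ _ hF (ofB_cont_LO P))
  · intro t
    have h1 : ofB_LO t ∈ F ⁻¹' {t : Tre (Set P) | toB t ∈ K'} ↔ ofB_LO t ∈ {t : Tre (Set P) | toB t ∈ K} := by
      rw [hFK]
    simp only [mem_preimage, mem_ofPred_eq, toB_ofB_LO] at h1
    exact h1.symm

theorem hLO (hCN : StCN) (hNS : StNS) : StLO := by
  intro a ha
  obtain ⟨hch, hth⟩ := hCN
  obtain ⟨m, hm⟩ := hth a ha
  obtain ⟨hfin, C, L, hC⟩ := hch m
  have := hfin
  refine ⟨QQ m ⊕ Fin 3, inferInstance, ⟨_, hC.df a hm⟩, ?_⟩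
  intro h
  have key : ∀ b : Ordinal.{0}, ∀ hb : b ≤ a,
      b ≤ (h.apply (⟨_, hC.df b (lt_of_le_of_lt hb hm)⟩ : {L : Set (Tre (Set (QQ m ⊕ Fin 3))) // Definable L})).rank := by
    intro b
    induction b using WellFoundedLT.induction with
    | ind b ih =>
      intro hb
      refine le_of_forall_lt (fun c hc => ?_)
      have hca : c ≤ a := (hc.le).trans hb
      refine lt_of_le_of_lt (ih c hc hca) ?_
      refine Acc.rank_lt_of_rel _ ?_
      have hcθ : c < th m := lt_of_le_of_lt hca hm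
      have hbθ : b < th m := lt_of_le_of_lt hb hm
      have hns := (hNS (QQ m) (C c) (C b) (L c) (L b) (hC.good c hcθ) (hC.cpl c hcθ)).2
        (hC.lt c b hc hbθ) (hC.cpl b hbθ)
      refine ⟨red_LO (L c) (L b) hns.1, ?_⟩
      intro hw
      exact hns.2 (red'_LO (L b) (L c) hw)
  exact key a le_rfl

end Pool.Agent.Helper30.WL
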