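import Pool.Agent.Helper30.WL.St

/-!
# PROJECT WL, modules LT and HZ
-/

set_option autoImplicit false

namespace Pool.Agent.Helper30.WL

open Set
open Pool.Agent.Helper24.WH (Tre pT)
open Ordinal hiding univ

private theorem cts_val_LT {X : Type} (i : Bits X) (O : Set X) :
    Cts (res i O) i (Subtype.val : O → X) := by
  intro n y
  exact ⟨n, fun y' h => h⟩

theorem hLT : StLT := by
  refine ⟨?_, ?_, ?_, ?_⟩
  · intro C C' h X i A hA
    exact h X i A (Or.inl hA)
  · intro C C' C'' h h' X i A hA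
    exact h' X i A (h X i A hA)
  · intro U E hU hE X i A hA
    refine ⟨∅, ?_, ?_, ?_⟩
    · intro x _
      exact ⟨0, fun y _ => by simp⟩
    · have h1 : tr (∅ : Set X) A = ∅ := by
        ext x
        exact absurd x.2 (Set.notMem_empty _)
      rw [h1]
      exact hE.empty _ _
    · intro x _
      refine ⟨0, Set.disjoint_empty _, ?_⟩
      rcases hA with hA | hA
      · exact Or.inl (hU.pre X _ i _ Subtype.val A (cts_val_LT i _) hA)
      · exact Or.inr (hU.pre X _ i _ Subtype.val Aᶜ (cts_val_LT i _) hA)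
  · intro C C' h X i A hA
    rcases hA with ⟨j, hj, hA⟩ | ⟨j, hj, hA⟩
    · exact ⟨j, hj, h X j A (Or.inl hA)⟩
    · exact ⟨j, hj, h X j A (Or.inr hA)⟩

theorem hHZ : StHZ := by
  intro Q _
  refine ⟨rfl, ?_⟩
  intro X i A hA
  refine ⟨fun _ _ _ => false, ?_, fun _ => rfl, ?_⟩
  · intro u x y _
    rfl
  · intro x
    have hA' : A = ∅ := hA
    rw [hA']
    simp

end Pool.Agent.Helper30.WL
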