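import Pool.Agent.Helper30.WL.St

/-!
# PROJECT WL (MP_76577a_lc), module ME: membership of the exponential language
-/

set_option autoImplicit false

namespace Pool.Agent.Helper30.WL

open Set
open Pool.Agent.Helper24.WH (Tre pT)
open Ordinal hiding univ

section ME

private theorem ag_mono_ME {X : Type} {i : Bits X} {m n : ℕ} {x y : X} (h : m ≤ n)
    (hA : Ag i n x y) : Ag i m x y := fun k hk => hA k (hk.trans_le h)

private theorem finite_ME {X U : Type} (i : Bits X) (x : X) (R : U → X → Prop)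
    (h : ∀ u, ∃ N, ∀ y, Ag i N x y → R u y) (F : Set U) (hF : F.Finite) :
    ∃ N, ∀ y, Ag i N x y → ∀ u ∈ F, R u y := by
  choose N hN using h
  exact ⟨hF.toFinset.sup N, fun y hy u hu =>
    hN u y (ag_mono_ME (Finset.le_sup (hF.mem_toFinset.2 hu)) hy)⟩

private theorem sub_sub_ME {A : Type} (t : Tre A) (v w : List Bool) :
    (t.sub v).sub w = t.sub (v ++ w) := by
  funext u
  change t (v ++ (w ++ u)) = t (v ++ w ++ u)
  rw [List.append_assoc]

variable {Q : Type}

/-- `WFn n` depends on the letters at nodes of length at most `3 * n` -/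
private theorem WFn_congr_ME (n : ℕ) : ∀ t t' : Tre (Lt3 Q),
    (∀ u : List Bool, u.length ≤ 3 * n → t u = t' u) → WFn n t → WFn n t' := by
  induction n with
  | zero => intro t t' _ _; trivial
  | succ n ih =>
    intro t t' h hw e
    obtain ⟨h1, h2, h3⟩ := hw e
    have e1 : ∀ s : Bool, t [e, s] = t' [e, s] := fun s => h [e, s] (by
      simp only [List.length_cons, List.length_nil]; omega)
    have ed : dk (t.sub [e]) = dk (t'.sub [e]) := by
      change t [e, false] (Sum.inr 0) = t' [e, false] (Sum.inr 0)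
      rw [e1]
    have e2 : ∀ d s : Bool, t [e, d, s] = t' [e, d, s] := fun d s => h [e, d, s] (by
      simp only [List.length_cons, List.length_nil]; omega)
    refine ⟨?_, ?_, ?_⟩
    · rw [← e1, ← e1]; exact h1
    · rw [← ed, ← e2, ← e2]; exact h2
    · intro s
      rw [← ed]
      refine ih _ _ (fun u hu => ?_) (h3 s)
      exact h _ (by simp only [List.length_append, List.length_cons, List.length_nil]; omega)

open Classical in
/-- the new bits -/
private noncomputable def jj_ME [Countable Q] : Bits (Tre (Lt3 Q)) := fun t n =>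
  if n.unpair.1 = 0 then std t n.unpair.2
  else if n.unpair.1 = 1 then decide (∀ n, WFn n t)
  else match (Encodable.decode n.unpair.2 : Option (List Bool)) with
    | some v => decide (NB (t.sub v))
    | none => false

private theorem jj1_ME [Countable Q] (t : Tre (Lt3 Q)) :
    jj_ME t (Nat.pair 1 0) = true ↔ ∀ n, WFn n t := by
  classical
  unfold jj_ME
  rw [Nat.unpair_pair, if_neg (show ¬ (1, 0).1 = 0 from one_ne_zero),
    if_pos (show (1, 0).1 = 1 from rfl)]
  exact decide_eq_true_iff

private theorem jj2_ME [Countable Q] (t : Tre (Lt3 Q)) (v : List Bool) :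
    jj_ME t (Nat.pair 2 (Encodable.encode v)) = true ↔ NB (t.sub v) := by
  classical
  unfold jj_ME
  rw [Nat.unpair_pair, if_neg (show ¬ (2, Encodable.encode v).1 = 0 from two_ne_zero),
    if_neg (show ¬ (2, Encodable.encode v).1 = 1 by norm_num)]
  simp only [Encodable.encodek]
  exact decide_eq_true_iff

variable [Finite Q]

/-- small cylinders fix all letters up to a given length -/
private theorem len_ME (hSB : StSB) (m : ℕ) : ∃ N, ∀ t t' : Tre (Lt3 Q), Ag std N t t' →
    ∀ u : List Bool, u.length ≤ m → t u = t' u := by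
  obtain ⟨_, h2, _⟩ := hSB (Q ⊕ Fin 3)
  choose N hN using h2
  have hF : {u : List Bool | u.length ≤ m}.Finite := List.finite_length_le Bool m
  refine ⟨hF.toFinset.sup N, fun t t' h u hu => ?_⟩
  exact hN u t t' (ag_mono_ME (Finset.le_sup (hF.mem_toFinset.2 hu)) h)

private theorem closed_ME (hSB : StSB) (k : ℕ) :
    Cl (std : Bits (Tre (Lt3 Q))) {t | jj_ME t k = true} := by
  classical
  intro t ht
  have ht' : ¬ jj_ME t k = true := ht
  by_cases h0 : k.unpair.1 = 0
  · refine ⟨k.unpair.2 + 1, fun t' h' hc => ht' ?_⟩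
    have hc' : jj_ME t' k = true := hc
    unfold jj_ME at hc' ⊢
    rw [if_pos h0] at hc' ⊢
    rw [← hc']
    exact h' _ (Nat.lt_succ_self _)
  · by_cases h1 : k.unpair.1 = 1
    · unfold jj_ME at ht'
      rw [if_neg h0, if_pos h1, decide_eq_true_iff] at ht'
      push Not at ht'
      obtain ⟨n, hn⟩ := ht'
      obtain ⟨N, hN⟩ := len_ME (Q := Q) hSB (3 * n)
      refine ⟨N, fun t' h' hc => hn ?_⟩
      have hc' : jj_ME t' k = true := hc
      unfold jj_ME at hc'
      rw [if_neg h0, if_pos h1, decide_eq_true_iff] at hc'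
      exact WFn_congr_ME n t' t (fun u hu => (hN t t' h' u hu).symm) (hc' n)
    · rcases hd : (Encodable.decode k.unpair.2 : Option (List Bool)) with _ | v
      · refine ⟨0, fun t' _ hc => ?_⟩
        have hc' : jj_ME t' k = true := hc
        unfold jj_ME at hc'
        rw [if_neg h0, if_neg h1, hd] at hc'
        exact absurd hc' (by simp)
      · unfold jj_ME at ht'
        rw [if_neg h0, if_neg h1, hd] at ht'
        have ht2 : ¬ NB (t.sub v) := fun h => ht' (decide_eq_true h)
        unfold NB at ht2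
        push Not at ht2
        obtain ⟨w, hw, hw1, hw2⟩ := ht2
        obtain ⟨N, hN⟩ := len_ME (Q := Q) hSB (v.length + w.length)
        refine ⟨N, fun t' h' hc => ?_⟩
        have hc' : jj_ME t' k = true := hc
        unfold jj_ME at hc'
        rw [if_neg h0, if_neg h1, hd] at hc'
        have hnb : NB (t'.sub v) := of_decide_eq_true hc'
        refine hw2 ?_
        have e : ∀ w' : List Bool, w' <+: w → (t.sub v) w' = (t'.sub v) w' := fun w' hw' =>
          hN t t' h' (v ++ w') (by rw [List.length_append]; exact Nat.add_le_add_left hw'.length_le _)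
        rw [e w (List.prefix_refl w)]
        refine hnb w hw (fun w' hw' hp => ?_)
        rw [← e w' hp]
        exact hw1 w' hw' hp

/-- the new bits fix the standard bits -/
private theorem ag_std_ME (N : ℕ) : ∃ M, ∀ t t' : Tre (Lt3 Q), Ag jj_ME M t t' → Ag std N t t' := by
  classical
  refine ⟨Nat.pair 0 N, fun t t' h k hk => ?_⟩
  have h1 := h (Nat.pair 0 k) (Nat.pair_lt_pair_right 0 hk)
  unfold jj_ME at h1
  simpa only [Nat.unpair_pair, if_true] using h1

private theorem letter_ME (hSB : StSB) (v : List Bool) : ∃ M, ∀ t t' : Tre (Lt3 Q),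
    Ag jj_ME M t t' → t v = t' v := by
  obtain ⟨N, hN⟩ := len_ME (Q := Q) hSB v.length
  obtain ⟨M, hM⟩ := ag_std_ME (Q := Q) N
  exact ⟨M, fun t t' h => hN t t' (hM t t' h) v le_rfl⟩

private theorem nb_ME (v : List Bool) : ∃ M, ∀ t t' : Tre (Lt3 Q),
    Ag jj_ME M t t' → (NB (t.sub v) ↔ NB (t'.sub v)) := by
  classical
  refine ⟨Nat.pair 2 (Encodable.encode v) + 1, fun t t' h => ?_⟩
  have h1 := h (Nat.pair 2 (Encodable.encode v)) (Nat.lt_succ_self _)
  rw [← jj2_ME, ← jj2_ME, h1]

private theorem sel_ME (hSB : StSB) (v : List Bool) (t : Tre (Lt3 Q)) : ∃ M, ∀ t' : Tre (Lt3 Q),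
    Ag jj_ME M t t' → sel (t.sub v) = sel (t'.sub v) := by
  obtain ⟨M1, h1⟩ := letter_ME (Q := Q) hSB (v ++ [false])
  obtain ⟨M2, h2⟩ := letter_ME (Q := Q) hSB (v ++ [dk (t.sub v), false])
  obtain ⟨M3, h3⟩ := nb_ME (Q := Q) v
  refine ⟨max M1 (max M2 M3), fun t' h => ?_⟩
  have e1 := h1 t t' (ag_mono_ME (le_max_left _ _) h)
  have e2 := h2 t t' (ag_mono_ME ((le_max_left _ _).trans (le_max_right _ _)) h)
  have e3 := h3 t t' (ag_mono_ME ((le_max_right _ _).trans (le_max_right _ _)) h)
  have ed : dk (t.sub v) = dk (t'.sub v) := congrFun e1 (Sum.inr 0)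
  have e4 : (t.sub v) [dk (t.sub v), false] (Sum.inr 1) =
      (t'.sub v) [dk (t.sub v), false] (Sum.inr 1) := congrFun e2 (Sum.inr 1)
  unfold sel
  rw [← ed, ← e4]
  by_cases h5 : NB (t.sub v)
  · rw [if_pos h5, if_pos (e3.1 h5)]
  · rw [if_neg h5, if_neg (fun h6 => h5 (e3.2 h6))]

private theorem dec_ME (hSB : StSB) (u : List Bool) : ∀ (v : List Bool) (t : Tre (Lt3 Q)),
    ∃ M, ∀ t' : Tre (Lt3 Q), Ag jj_ME M t t' → dec u (t.sub v) = dec u (t'.sub v) := by
  induction u with
  | nil =>
    intro v t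
    obtain ⟨M, hM⟩ := letter_ME (Q := Q) hSB (v ++ [])
    refine ⟨M, fun t' h => ?_⟩
    funext p
    exact congrFun (hM t t' h) (Sum.inl p)
  | cons e u ih =>
    intro v t
    obtain ⟨M1, h1⟩ := sel_ME (Q := Q) hSB (v ++ [e]) t
    obtain ⟨M2, h2⟩ := ih (v ++ (e :: sel (t.sub (v ++ [e])))) t
    refine ⟨max M1 M2, fun t' h => ?_⟩
    have e1 := h1 t' (ag_mono_ME (le_max_left _ _) h)
    have e2 := h2 t' (ag_mono_ME (le_max_right _ _) h)
    simp only [dec, sub_sub_ME]
    rw [e2, e1]

private theorem cts_ME (hSB : StSB) (S : Set (Tre (Lt3 Q))) :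
    Cts (res jj_ME S) (std : Bits (Tre (Q → Bool))) (fun x : S => fun u => dec u x.1) := by
  intro n y
  have h := dec_ME (Q := Q) hSB
  obtain ⟨N, hN⟩ := finite_ME (jj_ME : Bits (Tre (Lt3 Q))) y.1
    (fun (u : List Bool) t' => dec u y.1 = dec u t') (fun u => h u [] y.1)
    {u : List Bool | u.length ≤ n} (List.finite_length_le Bool n)
  refine ⟨N, fun y' hy' k hk => ?_⟩
  refine (hSB Q).1 k _ _ (fun u hu => ?_)
  exact hN y'.1 hy' u (hu.trans hk.le)

end ME

/-- **ME** -/
theorem hME (hSB : StSB) : StME := by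
  classical
  intro Q _ C L hC hL
  refine ⟨jj_ME, closed_ME hSB, ?_⟩
  set κ : Tre (Lt3 (Q ⊕ Fin 3)) → ℕ := fun t => if ∀ n, WFn n t then 0 else 1 with hκ
  refine hC.paste _ jj_ME κ _ (fun x => ⟨Nat.pair 1 0 + 1, fun y hy => ?_⟩) (fun c => ?_)
  · have h1 := hy (Nat.pair 1 0) (Nat.lt_succ_self _)
    have h2 : (∀ n, WFn n x) ↔ ∀ n, WFn n y := by
      rw [← jj1_ME, ← jj1_ME, h1]
    simp only [hκ, h2]
  · by_cases hc : c = 0
    · subst hc
      have e : tr {x | κ x = 0} (Ex L) =
          (fun x : {x | κ x = 0} => (fun u => dec u x.1 : Tre (Lt3 Q))) ⁻¹' L := by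
        ext ⟨x, hx⟩
        have hw : ∀ n, WFn n x := by
          by_contra hn
          have hx' : κ x = 0 := hx
          simp only [hκ, if_neg hn] at hx'
          exact absurd hx' (by norm_num)
        exact ⟨fun h => h.2, fun h => ⟨hw, h⟩⟩
      rw [e]
      exact hC.pre _ _ std _ _ L (cts_ME hSB _) hL
    · have e : tr {x | κ x = c} (Ex L) = ∅ := by
        ext ⟨x, hx⟩
        refine ⟨fun h => hc ?_, fun h => absurd h (Set.notMem_empty _)⟩
        have hx' : κ x = c := hx
        have hw : ∀ n, WFn n x := h.1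
        simp only [hκ, if_pos hw] at hx'
        exact hx'.symm
      rw [e]
      exact hC.empty _ _

end Pool.Agent.Helper30.WL
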