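import Pool.Agent.Helper30.WL.St

/-! Project WL (MP_76577a_lc), module MS (helper93): the sum of two languages is in the sum class. -/

set_option autoImplicit false

namespace Pool.Agent.Helper30.WL

open Set
open Pool.Agent.Helper24.WH (Tre pT)
open Ordinal hiding univ

/-- agreement up to depth `D` -/
private def Agd {A : Type} (D : ℕ) (t t' : Tre A) : Prop := ∀ u : List Bool, u.length ≤ D → t u = t' u

private theorem Ag_mono_MS {X : Type} {i : Bits X} {n n' : ℕ} (h : n' ≤ n) {x y : X}
    (hx : Ag i n x y) : Ag i n' x y := fun k hk => hx k (lt_of_lt_of_le hk h)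

private theorem fin_MS {P : Type} [Countable P]
    (h2 : ∀ u : List Bool, ∃ N, ∀ t t' : Tre (P → Bool), Ag std N t t' → t u = t' u) (D : ℕ) :
    ∃ N, ∀ t t' : Tre (P → Bool), Ag std N t t' → Agd D t t' := by
  choose f hf using h2
  have hfin : {l : List Bool | l.length ≤ D}.Finite := List.finite_length_le Bool D
  obtain ⟨N, hN⟩ := (hfin.image f).bddAbove
  refine ⟨N, fun t t' h u hu => hf u t t' (Ag_mono_MS ?_ h)⟩
  exact hN ⟨u, hu, rfl⟩

private theorem cts_MS {P : Type} [Countable P]
    (h1 : ∀ (n : ℕ) (t t' : Tre (P → Bool)), (∀ u : List Bool, u.length ≤ n → t u = t' u) →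
      std t n = std t' n)
    (h2 : ∀ u : List Bool, ∃ N, ∀ t t' : Tre (P → Bool), Ag std N t t' → t u = t' u)
    (p : Set (Tre (P → Bool))) (f : Tre (P → Bool) → Tre (P → Bool)) (c : ℕ)
    (hf : ∀ D, ∀ t ∈ p, ∀ t' ∈ p, Agd (D + c) t t' → Agd D (f t) (f t')) :
    Cts (res (std : Bits (Tre (P → Bool))) p) std (fun t : p => f t.1) := by
  intro n y
  obtain ⟨N, hN⟩ := fin_MS h2 (n + c)
  refine ⟨N, fun y' hy k hk => ?_⟩
  have h3 := hf n y.1 y.2 y'.1 y'.2 (hN y.1 y'.1 hy)
  exact h1 k _ _ fun u hu => h3 u (by omega)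

section path

variable {Q : Type}

private theorem dX_MS {t t' : Tre (Lt3 Q)} {D : ℕ} (h : Agd (D + 1) t t') : dX t = dX t' := by
  unfold dX
  rw [h [false] (by simp)]

private theorem sub_MS {t t' : Tre (Lt3 Q)} {D : ℕ} (w : List Bool) (h : Agd (D + w.length) t t') :
    Agd D (t.sub w) (t'.sub w) := by
  intro u hu
  exact h (w ++ u) (by rw [List.length_append]; omega)

private theorem nx_MS {t t' : Tre (Lt3 Q)} {D : ℕ} (h : Agd (D + 1) t t') : Agd D (nx t) (nx t') := by
  unfold nx
  rw [dX_MS h]
  exact sub_MS _ h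

private theorem nxn_MS {D : ℕ} (n : ℕ) : ∀ {t t' : Tre (Lt3 Q)}, Agd (D + n) t t' →
    Agd D (nx^[n] t) (nx^[n] t') := by
  induction n with
  | zero => exact fun h => h
  | succ n ih =>
      intro t t' h
      rw [Function.iterate_succ_apply, Function.iterate_succ_apply]
      exact ih (nx_MS h)

private theorem wfX_MS {t t' : Tre (Lt3 Q)} (h : Agd 1 t t') : wfX t ↔ wfX t' := by
  unfold wfX
  rw [h [false] (by simp), h [true] (by simp)]

private theorem stay_MS {t t' : Tre (Lt3 Q)} (h : Agd 1 t t') : stay t ↔ stay t' := by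
  unfold stay
  rw [wfX_MS h, h [] (by simp)]

/-- the path of the spine -/
private def pa : ℕ → Tre (Lt3 Q) → List Bool
  | 0, _ => []
  | n + 1, t => dX t :: pa n (nx t)

private theorem pa_MS (n : ℕ) : ∀ t : Tre (Lt3 Q), nx^[n] t = t.sub (pa n t) := by
  induction n with
  | zero => intro t; rfl
  | succ n ih =>
      intro t
      rw [Function.iterate_succ_apply, ih (nx t)]
      rfl

private theorem pa_congr_MS (n : ℕ) : ∀ {t t' : Tre (Lt3 Q)}, Agd n t t' → pa n t = pa n t' := by
  induction n with
  | zero => intro t t' _; rfl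
  | succ n ih =>
      intro t t' h
      show dX t :: pa n (nx t) = dX t' :: pa n (nx t')
      rw [dX_MS h, ih (nx_MS h)]

end path

theorem hMS (hSB : StSB) : StMS := by
  intro Q _ U E K H hU hE hK hH
  obtain ⟨h1, h2, -⟩ := hSB (Q ⊕ Fin 3)
  have hne : ∀ (t : Tre (Lt3 Q)), Sw K t → ¬ stay t := by
    rintro t ⟨-, h3, -⟩ ⟨-, h4⟩
    rw [h3] at h4
    exact Bool.noConfusion h4
  refine ⟨{t | ∀ n, stay (nx^[n] t)}, ?_, ?_, ?_⟩
  · -- closed
    intro t ht
    have ht' : ∃ n, ¬ stay (nx^[n] t) := by
      by_contra hcon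
      push Not at hcon
      exact ht hcon
    obtain ⟨n, hn⟩ := ht'
    obtain ⟨N, hN⟩ := fin_MS h2 (1 + n)
    refine ⟨N, fun t' ht' hB => hn ?_⟩
    exact (stay_MS (nxn_MS n (hN t t' ht'))).2 (hB n)
  · -- the trace on the closed set
    have htr : tr {t : Tre (Lt3 Q) | ∀ n, stay (nx^[n] t)} (Su K H) =
        (fun t : {t : Tre (Lt3 Q) | ∀ n, stay (nx^[n] t)} => pt t.1) ⁻¹' H := by
      ext t
      constructor
      · rintro (⟨n, -, hs⟩ | ⟨-, hs⟩)
        · exact absurd (t.2 n) (hne _ hs)
        · exact hs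
      · intro hs
        exact Or.inr ⟨t.2, hs⟩
    rw [htr]
    refine hE.pre _ _ _ _ _ _ (cts_MS h1 h2 _ pt 1 ?_) hH
    intro D t _ t' _ h
    unfold pt
    rw [dX_MS h]
    exact sub_MS _ h
  · -- off the closed set
    intro t ht
    have ht' : ∃ n, ¬ stay (nx^[n] t) := by
      by_contra hcon
      push Not at hcon
      exact ht hcon
    classical
    obtain ⟨n, hn, hmin⟩ : ∃ n, ¬ stay (nx^[n] t) ∧ ∀ m, m < n → stay (nx^[m] t) :=
      ⟨Nat.find ht', Nat.find_spec ht', fun m hm => not_not.1 (Nat.find_min ht' hm)⟩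
    obtain ⟨N, hN⟩ := fin_MS h2 (1 + n)
    have hag : ∀ t' ∈ Cy std N t, Agd (1 + n) t t' := fun t' h => hN t t' h
    have hSu : ∀ t' ∈ Cy std N t, (t' ∈ Su K H ↔ Sw K (nx^[n] t')) := by
      intro t' h
      have h3 : ¬ stay (nx^[n] t') := fun h4 => hn ((stay_MS (nxn_MS n (hag t' h))).2 h4)
      have h4 : ∀ m, m < n → stay (nx^[m] t') := by
        intro m hm
        refine (stay_MS (nxn_MS m (D := 1) fun u hu => hag t' h u ?_)).1 (hmin m hm)
        omega
      constructor
      · rintro (⟨m, hm, hs⟩ | ⟨hs, -⟩)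
        · have h5 : m = n := by
            rcases lt_trichotomy m n with h5 | h5 | h5
            · exact absurd (h4 m h5) (hne _ hs)
            · exact h5
            · exact absurd (hm n h5) h3
          rw [← h5]
          exact hs
        · exact absurd (hs n) h3
      · intro hs
        exact Or.inl ⟨n, h4, hs⟩
    refine ⟨N, ?_, ?_⟩
    · rw [Set.disjoint_left]
      intro t' h hB
      exact hn ((stay_MS (nxn_MS n (hag t' h))).2 (hB n))
    · by_cases hw : wfX (nx^[n] t)
      · -- the switch
        have hr1 : (nx^[n] t) [] (Sum.inr 1) = true := by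
          by_contra h3
          exact hn ⟨hw, by simpa using h3⟩
        have hpt : ∀ t' ∈ Cy std N t, pt (nx^[n] t') =
            t'.sub (pa n t ++ [!(dX (nx^[n] t))]) := by
          intro t' h
          have h3 := hag t' h
          have h4 : pa n t' = pa n t :=
            (pa_congr_MS n fun u hu => (h3 u (by omega))).symm
          have h5 : dX (nx^[n] t') = dX (nx^[n] t) := (dX_MS (D := 0) (nxn_MS n h3)).symm
          unfold pt
          rw [h5, pa_MS n t', h4]
          funext u
          show t' (pa n t ++ ([!(dX (nx^[n] t))] ++ u)) = t' ((pa n t ++ [!(dX (nx^[n] t))]) ++ u)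
          rw [List.append_assoc]
        have hroot : ∀ t' ∈ Cy std N t, (nx^[n] t') [] = (nx^[n] t) [] := fun t' h =>
          (nxn_MS n (hag t' h) [] (by simp)).symm
        have hSu2 : ∀ t' ∈ Cy std N t, (t' ∈ Su K H ↔
            (t'.sub (pa n t ++ [!(dX (nx^[n] t))]) ∈ K ↔ (nx^[n] t) [] (Sum.inr 2) = false)) := by
          intro t' h
          rw [hSu t' h]
          unfold Sw
          rw [hpt t' h, hroot t' h]
          constructor
          · rintro ⟨-, -, h3⟩
            exact h3
          · intro h3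
            exact ⟨(wfX_MS (nxn_MS n (hag t' h))).1 hw, hr1, h3⟩
        have hcts : Cts (res (std : Bits (Tre (Lt3 Q))) (Cy std N t)) std
            (fun t' : (Cy std N t : Set (Tre (Lt3 Q))) =>
              t'.1.sub (pa n t ++ [!(dX (nx^[n] t))])) :=
          cts_MS h1 h2 _ (fun t' => t'.sub (pa n t ++ [!(dX (nx^[n] t))])) _
            (fun D t' _ t'' _ h => sub_MS _ h)
        rcases Bool.eq_false_or_eq_true ((nx^[n] t) [] (Sum.inr 2)) with hb | hb
        · right
          have htr : tr (Cy std N t) (Su K H)ᶜ =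
              (fun t' : (Cy std N t : Set (Tre (Lt3 Q))) =>
                t'.1.sub (pa n t ++ [!(dX (nx^[n] t))])) ⁻¹' K := by
            ext t'
            show ¬ (t'.1 ∈ Su K H) ↔ _
            rw [hSu2 t'.1 t'.2, hb]
            simp
          rw [htr]
          exact hU.pre _ _ _ _ _ _ hcts hK
        · left
          have htr : tr (Cy std N t) (Su K H) =
              (fun t' : (Cy std N t : Set (Tre (Lt3 Q))) =>
                t'.1.sub (pa n t ++ [!(dX (nx^[n] t))])) ⁻¹' K := by
            ext t'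
            show (t'.1 ∈ Su K H) ↔ _
            rw [hSu2 t'.1 t'.2, hb]
            simp
          rw [htr]
          exact hU.pre _ _ _ _ _ _ hcts hK
      · left
        have htr : tr (Cy std N t) (Su K H) = ∅ := by
          ext t'
          constructor
          · intro h
            have h3 := (hSu t'.1 t'.2).1 h
            exact hw ((wfX_MS (nxn_MS n (hag t'.1 t'.2))).2 h3.1)
          · intro h
            exact absurd h (Set.notMem_empty _)
        rw [htr]
        exact hU.empty _ _

end Pool.Agent.Helper30.WL
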