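import Pool.Agent.Helper30.WL.St2

set_option autoImplicit false

namespace Pool.Agent.Helper30.WL

open Set
open Pool.Agent.Helper24.WH
open Ordinal hiding univ

/-- negation of formulas -/
def ng_NG {P : Type} : Fm P → Fm P
  | .prop p => .nprop p
  | .nprop p => .prop p
  | .top => .bot
  | .bot => .top
  | .var n => .var n
  | .and φ ψ => .or (ng_NG φ) (ng_NG ψ)
  | .or φ ψ => .and (ng_NG φ) (ng_NG ψ)
  | .dia φ => .box (ng_NG φ)
  | .box φ => .dia (ng_NG φ)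
  | .mu φ => .nu (ng_NG φ)
  | .nu φ => .mu (ng_NG φ)

theorem free_NG {P : Type} (φ : Fm P) : ∀ n, (ng_NG φ).free n ↔ φ.free n := by
  induction φ with
  | prop p => intro n; exact Iff.rfl
  | nprop p => intro n; exact Iff.rfl
  | top => intro n; exact Iff.rfl
  | bot => intro n; exact Iff.rfl
  | var k => intro n; exact Iff.rfl
  | and φ ψ h1 h2 => intro n; exact or_congr (h1 n) (h2 n)
  | or φ ψ h1 h2 => intro n; exact or_congr (h1 n) (h2 n)
  | dia φ h => intro n; exact h n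
  | box φ h => intro n; exact h n
  | mu φ h => intro n; exact h (n + 1)
  | nu φ h => intro n; exact h (n + 1)

theorem dep_NG {P : Type} (φ : Fm P) :
    ∀ n, ((ng_NG φ).nuDep n ↔ φ.muDep n) ∧ ((ng_NG φ).muDep n ↔ φ.nuDep n) := by
  induction φ with
  | prop p => intro n; exact ⟨Iff.rfl, Iff.rfl⟩
  | nprop p => intro n; exact ⟨Iff.rfl, Iff.rfl⟩
  | top => intro n; exact ⟨Iff.rfl, Iff.rfl⟩
  | bot => intro n; exact ⟨Iff.rfl, Iff.rfl⟩
  | var k => intro n; exact ⟨Iff.rfl, Iff.rfl⟩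
  | and φ ψ h1 h2 => intro n; exact ⟨or_congr (h1 n).1 (h2 n).1, or_congr (h1 n).2 (h2 n).2⟩
  | or φ ψ h1 h2 => intro n; exact ⟨or_congr (h1 n).1 (h2 n).1, or_congr (h1 n).2 (h2 n).2⟩
  | dia φ h => intro n; exact h n
  | box φ h => intro n; exact h n
  | mu φ h => intro n; exact ⟨free_NG φ (n + 1), (h (n + 1)).2⟩
  | nu φ h => intro n; exact ⟨(h (n + 1)).1, free_NG φ (n + 1)⟩

theorem alt_NG {P : Type} (φ : Fm P) : (ng_NG φ).altFree ↔ φ.altFree := by
  induction φ with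
  | prop p => exact Iff.rfl
  | nprop p => exact Iff.rfl
  | top => exact Iff.rfl
  | bot => exact Iff.rfl
  | var k => exact Iff.rfl
  | and φ ψ h1 h2 => exact and_congr h1 h2
  | or φ ψ h1 h2 => exact and_congr h1 h2
  | dia φ h => exact h
  | box φ h => exact h
  | mu φ h => exact and_congr h (not_congr (dep_NG φ 0).2)
  | nu φ h => exact and_congr h (not_congr (dep_NG φ 0).1)

theorem ec_NG {α : Type} (X : Set α) (V : ℕ → Set α) :
    ec Xᶜ (fun n => (V n)ᶜ) = fun n => (ec X V n)ᶜ := by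
  funext n
  cases n <;> rfl

theorem sem_NG {P : Type} (φ : Fm P) :
    ∀ V : ℕ → Set (Tre (Set P)), (ng_NG φ).SEM (fun n => (V n)ᶜ) = (φ.SEM V)ᶜ := by
  induction φ with
  | prop p => intro V; rfl
  | nprop p =>
    intro V
    ext t
    show p ∈ t [] ↔ ¬ (p ∉ t [])
    exact not_not.symm
  | top =>
    intro V
    show (∅ : Set (Tre (Set P))) = univᶜ
    exact compl_univ.symm
  | bot =>
    intro V
    show (univ : Set (Tre (Set P))) = ∅ᶜ
    exact compl_empty.symm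
  | var k => intro V; rfl
  | and φ ψ h1 h2 =>
    intro V
    show (ng_NG φ).SEM _ ∪ (ng_NG ψ).SEM _ = (φ.SEM V ∩ ψ.SEM V)ᶜ
    rw [h1, h2, compl_inter]
  | or φ ψ h1 h2 =>
    intro V
    show (ng_NG φ).SEM _ ∩ (ng_NG ψ).SEM _ = (φ.SEM V ∪ ψ.SEM V)ᶜ
    rw [h1, h2, compl_union]
  | dia φ h =>
    intro V
    ext t
    show (∀ b : Bool, t.sub [b] ∈ (ng_NG φ).SEM (fun n => (V n)ᶜ)) ↔
      ¬ ∃ b : Bool, t.sub [b] ∈ φ.SEM V
    rw [h V]
    exact not_exists.symm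
  | box φ h =>
    intro V
    ext t
    show (∃ b : Bool, t.sub [b] ∈ (ng_NG φ).SEM (fun n => (V n)ᶜ)) ↔
      ¬ ∀ b : Bool, t.sub [b] ∈ φ.SEM V
    rw [h V]
    exact not_forall.symm
  | mu φ h =>
    intro V
    ext t
    show t ∈ ⋃₀ {X | X ⊆ (ng_NG φ).SEM (ec X (fun n => (V n)ᶜ))} ↔
      ¬ t ∈ ⋂₀ {X | φ.SEM (ec X V) ⊆ X}
    constructor
    · rintro ⟨X, hX, ht⟩ h2
      have hX' : X ⊆ (ng_NG φ).SEM (ec X (fun n => (V n)ᶜ)) := hX
      have h3 : t ∈ Xᶜ := by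
        apply h2
        show φ.SEM (ec Xᶜ V) ⊆ Xᶜ
        have h4 := h (ec Xᶜ V)
        rw [← ec_NG, compl_compl] at h4
        rw [h4] at hX'
        exact subset_compl_comm.mp hX'
      exact h3 ht
    · intro h2
      have h3 : ∃ X, φ.SEM (ec X V) ⊆ X ∧ t ∉ X := by
        by_contra hcon
        apply h2
        intro X hX
        by_contra hx
        exact hcon ⟨X, hX, hx⟩
      obtain ⟨X, hX, hx⟩ := h3
      refine ⟨Xᶜ, ?_, hx⟩
      show Xᶜ ⊆ (ng_NG φ).SEM (ec Xᶜ (fun n => (V n)ᶜ))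
      rw [ec_NG, h]
      exact compl_subset_compl.mpr hX
  | nu φ h =>
    intro V
    ext t
    show t ∈ ⋂₀ {X | (ng_NG φ).SEM (ec X (fun n => (V n)ᶜ)) ⊆ X} ↔
      ¬ t ∈ ⋃₀ {X | X ⊆ φ.SEM (ec X V)}
    constructor
    · rintro h2 ⟨X, hX, ht⟩
      have hX' : X ⊆ φ.SEM (ec X V) := hX
      have h3 : t ∈ Xᶜ := by
        apply h2
        show (ng_NG φ).SEM (ec Xᶜ (fun n => (V n)ᶜ)) ⊆ Xᶜ
        rw [ec_NG, h]
        exact compl_subset_compl.mpr hX'
      exact h3 ht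
    · intro h2 X hX
      have hX' : (ng_NG φ).SEM (ec X (fun n => (V n)ᶜ)) ⊆ X := hX
      by_contra hx
      apply h2
      refine ⟨Xᶜ, ?_, hx⟩
      show Xᶜ ⊆ φ.SEM (ec Xᶜ V)
      have h4 := h (ec Xᶜ V)
      rw [← ec_NG, compl_compl] at h4
      rw [h4] at hX'
      exact compl_subset_comm.mp hX'

theorem hNG : StNG := by
  intro P φ hf ha
  refine ⟨ng_NG φ, fun n hn => hf n ((free_NG φ n).mp hn), (alt_NG φ).mpr ha, sem_NG φ⟩

end Pool.Agent.Helper30.WL
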