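import Pool.Agent.Helper30.WL.St

set_option autoImplicit false

/-!
Project WL (MP_76577a_lc): complete languages are not self dual.
-/

namespace Pool.Agent.Helper30.WL

open Set
open Pool.Agent.Helper24.WH (Tre pT)

private lemma ag_mono_NS {X : Type} (i : Bits X) {m n : ℕ} (h : m ≤ n) {x y : X}
    (hxy : Ag i n x y) : Ag i m x y := fun k hk => hxy k (lt_of_lt_of_le hk h)

theorem hNS (hSB : StSB) : StNS := by
  intro Q _ C C' L L' hC hL
  obtain ⟨sb1, sb2, sb3⟩ := hSB (Q ⊕ Fin 3)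
  have hag : ∀ (n : ℕ) (t t' : Tre (Lt3 Q)), (∀ u : List Bool, u.length < n → t u = t' u) →
      Ag std n t t' := by
    intro n t t' h m hm
    exact sb1 m t t' (fun u hu => h u (lt_of_le_of_lt hu hm))
  have hcts : ∀ k : Tre (Lt3 Q) → Tre (Lt3 Q), Ctr std k → Cts std std k := by
    intro k hk n y
    refine ⟨n, fun y' hy => hag n _ _ (fun u hu => hk u y y' (ag_mono_NS std hu.le hy))⟩
  have hcont : ∀ k : Tre (Lt3 Q) → Tre (Lt3 Q), Ctr std k →
      @Continuous _ _ (pT (Lt3 Q)) (pT (Lt3 Q)) k :=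
    fun k hk => (sb3 (Q ⊕ Fin 3) k).1 (hcts k hk)
  have hfix : ∀ k : Tre (Lt3 Q) → Tre (Lt3 Q), Ctr std k → ∃ t, k t = t := by
    intro k hk
    let t : ℕ → Tre (Lt3 Q) := fun n => k^[n] (fun _ _ => false)
    have hts : ∀ n, t (n + 1) = k (t n) := fun n => Function.iterate_succ_apply' k n _
    have hstep : ∀ n, ∀ u : List Bool, u.length < n → t n u = t (n + 1) u := by
      intro n
      induction n with
      | zero => intro u hu; exact absurd hu (Nat.not_lt_zero _)
      | succ n ih =>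
        intro u hu
        rw [hts n, hts (n + 1)]
        exact hk u _ _ (ag_mono_NS std (Nat.lt_succ_iff.1 hu) (hag n _ _ ih))
    have hst : ∀ (u : List Bool) (d : ℕ), t (u.length + 1 + d) u = t (u.length + 1) u := by
      intro u d
      induction d with
      | zero => rfl
      | succ d ih =>
        rw [← ih]
        exact (hstep (u.length + 1 + d) u (by omega)).symm
    refine ⟨fun u => t (u.length + 1) u, ?_⟩
    funext u
    have h1 : Ag std u.length (fun v => t (v.length + 1) v) (t (u.length + 1)) := by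
      apply hag
      intro v hv
      have := hst v (u.length - v.length)
      have e : v.length + 1 + (u.length - v.length) = u.length + 1 := by omega
      rw [e] at this
      exact this.symm
    rw [hk u _ _ h1, ← hts]
    exact hst u 1
  have hpart1 : ¬ ∃ f : Tre (Lt3 Q) → Tre (Lt3 Q),
      @Continuous _ _ (pT (Lt3 Q)) (pT (Lt3 Q)) f ∧ ∀ t, t ∉ L ↔ f t ∈ L := by
    rintro ⟨f, hf, hfL⟩
    have hpre : C (Tre (Lt3 Q)) std (f ⁻¹' L) := by
      exact hC.pre _ _ std std f L ((sb3 (Q ⊕ Fin 3) f).2 hf) hL.1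
    obtain ⟨k, hk, -, hkL⟩ := hL.2 _ _ _ hpre
    obtain ⟨t, ht⟩ := hfix k hk
    have h1 := hkL t
    rw [ht] at h1
    have h2 := hfL t
    have h3 : t ∈ f ⁻¹' L ↔ f t ∈ L := Iff.rfl
    tauto
  refine ⟨hpart1, ?_⟩
  intro hlt hL'
  refine ⟨?_, ?_⟩
  · obtain ⟨k, hk, -, hkL⟩ := hL'.2 _ _ _ (hlt _ _ L (Or.inl hL.1))
    exact ⟨k, hcont k hk, hkL⟩
  · rintro ⟨f, hf, hfL⟩
    have hc : C' (Tre (Lt3 Q)) std Lᶜ := hlt _ _ Lᶜ (Or.inr (by rw [compl_compl]; exact hL.1))
    obtain ⟨k, hk, -, hkL⟩ := hL'.2 _ _ _ hc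
    apply hpart1
    refine ⟨fun t => f (k t), ?_, ?_⟩
    · exact @Continuous.comp _ _ _ (pT (Lt3 Q)) (pT (Lt3 Q)) (pT (Lt3 Q)) k f hf (hcont k hk)
    · intro t
      have h1 := hkL t
      have h2 := hfL (k t)
      rw [mem_compl_iff] at h1
      tauto

end Pool.Agent.Helper30.WL
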