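import Pool.Agent.Helper30.WL.St

/-!
# PROJECT WL, module SB: the standard bits of trees
-/

set_option autoImplicit false

namespace Pool.Agent.Helper30.WL

open Set
open Pool.Agent.Helper24.WH (Tre pT)

/-- neighbourhoods in a product of discrete spaces -/
theorem nhdsPi_SB {A : Type} (t : List Bool → A) (S : Set (List Bool → A)) :
    S ∈ @nhds _ (@Pi.topologicalSpace (List Bool) (fun _ => A) (fun _ => ⊥)) t ↔
      ∃ I : Finset (List Bool), ∀ t' : List Bool → A, (∀ u ∈ I, t' u = t u) → t' ∈ S := by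
  let _ : TopologicalSpace A := ⊥
  have : DiscreteTopology A := ⟨rfl⟩
  change S ∈ nhds t ↔ _
  rw [nhds_pi]
  simp only [nhds_discrete]
  constructor
  · intro h
    obtain ⟨I, hI, V, hV, hS⟩ := Filter.mem_pi.mp h
    refine ⟨hI.toFinset, fun t' ht' => hS ?_⟩
    intro u hu
    have h1 : t' u = t u := ht' u (hI.mem_toFinset.mpr hu)
    have h2 : t u ∈ V u := by simpa using hV u
    rw [h1]
    exact h2
  · rintro ⟨I, hI⟩
    refine Filter.mem_pi.mpr ⟨(I : Set (List Bool)), I.finite_toSet, fun u => {t u}, fun u => by simp, ?_⟩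
    intro t' ht'
    exact hI t' (fun u hu => ht' u hu)

/-- neighbourhoods in the product topology of discrete letters -/
theorem nhds_SB {A : Type} (t : Tre A) (S : Set (Tre A)) :
    S ∈ @nhds _ (pT A) t ↔ ∃ I : Finset (List Bool), ∀ t' : Tre A, (∀ u ∈ I, t' u = t u) → t' ∈ S :=
  nhdsPi_SB t S

/-- continuity of maps of trees -/
theorem cont_iff_SB {A B : Type} (f : Tre A → Tre B) :
    @Continuous _ _ (pT A) (pT B) f ↔
      ∀ (t : Tre A) (J : Finset (List Bool)), ∃ I : Finset (List Bool), ∀ t' : Tre A,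
        (∀ u ∈ I, t' u = t u) → ∀ v ∈ J, f t' v = f t v := by
  constructor
  · intro h t J
    have h1 : Filter.Tendsto f (@nhds _ (pT A) t) (@nhds _ (pT B) (f t)) :=
      @Continuous.tendsto _ _ (pT A) (pT B) f h t
    have h2 : {s : Tre B | ∀ v ∈ J, s v = f t v} ∈ @nhds _ (pT B) (f t) :=
      (nhds_SB _ _).mpr ⟨J, fun t' ht' => ht'⟩
    obtain ⟨I, hI⟩ := (nhds_SB _ _).mp (h1 h2)
    exact ⟨I, fun t' ht' => hI t' ht'⟩
  · intro h
    refine (@continuous_iff_continuousAt _ _ (pT A) (pT B) f).mpr ?_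
    intro t S hS
    obtain ⟨J, hJ⟩ := (nhds_SB _ _).mp hS
    obtain ⟨I, hI⟩ := h t J
    exact (nhds_SB _ _).mpr ⟨I, fun t' ht' => hJ _ (hI t' ht')⟩

/-- part 1 -/
theorem std_congr_SB (P : Type) [Countable P] (n : ℕ) (t t' : Tre (P → Bool))
    (h : ∀ u : List Bool, u.length ≤ n → t u = t' u) : std t n = std t' n := by
  unfold std
  split
  · next u p _ =>
    by_cases hu : u.length ≤ n
    · rw [if_pos hu, if_pos hu, h u hu]
    · rw [if_neg hu, if_neg hu]
  · rfl

/-- value of a standard bit -/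
theorem std_val_SB (P : Type) [Countable P] (u : List Bool) (p : P) :
    ∃ n : ℕ, ∀ t : Tre (P → Bool), std t n = t u p := by
  refine ⟨Nat.pair (@Encodable.encode (List Bool × P) (Encodable.ofCountable _) (u, p)) u.length, fun t => ?_⟩
  unfold std
  have h1 : @Encodable.decode (List Bool × P) (Encodable.ofCountable _)
      (Nat.pair (@Encodable.encode (List Bool × P) (Encodable.ofCountable _) (u, p)) u.length).unpair.1 =
        some (u, p) := by
    rw [Nat.unpair_pair]
    exact @Encodable.encodek _ (Encodable.ofCountable _) (u, p)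
  rw [h1]
  simp only
  rw [if_pos (Nat.right_le_pair _ _)]

/-- part 2 -/
theorem std_sep_SB (P : Type) [Finite P] (u : List Bool) :
    ∃ N, ∀ t t' : Tre (P → Bool), Ag std N t t' → t u = t' u := by
  choose n hn using fun p : P => std_val_SB P u p
  obtain ⟨M, hM⟩ := (Set.finite_range n).bddAbove
  refine ⟨M + 1, fun t t' h => ?_⟩
  funext p
  have h1 : n p < M + 1 := Nat.lt_succ_of_le (hM ⟨p, rfl⟩)
  rw [← hn p t, ← hn p t']
  exact h _ h1

/-- finitely many letters -/
theorem std_sepF_SB (P : Type) [Finite P] (I : Finset (List Bool)) :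
    ∃ N, ∀ t t' : Tre (P → Bool), Ag std N t t' → ∀ u ∈ I, t u = t' u := by
  choose N hN using fun u => std_sep_SB P u
  refine ⟨I.sup N, fun t t' h u hu => hN u t t' ?_⟩
  intro k hk
  exact h k (lt_of_lt_of_le hk (Finset.le_sup (f := N) hu))

/-- **SB** -/
theorem hSB : StSB := by
  intro P _
  refine ⟨fun n t t' h => std_congr_SB P n t t' h, fun u => std_sep_SB P u, ?_⟩
  intro P' _ f
  rw [cont_iff_SB]
  constructor
  · intro h t J
    obtain ⟨N, hN⟩ := std_sepF_SB P' J
    obtain ⟨n', hn'⟩ := h N t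
    have hfin : {u : List Bool | u.length ≤ n'}.Finite := List.finite_length_le Bool n'
    refine ⟨hfin.toFinset, fun t' ht' v hv => ?_⟩
    have h1 : Ag std n' t t' := by
      intro k hk
      refine std_congr_SB P k t t' (fun u hu => ?_)
      exact (ht' u (hfin.mem_toFinset.mpr (by
        change u.length ≤ n'
        omega))).symm
    exact (hN _ _ (hn' t' h1) v hv).symm
  · intro h n t
    have hfin : {u : List Bool | u.length ≤ n}.Finite := List.finite_length_le Bool n
    obtain ⟨I, hI⟩ := h t hfin.toFinset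
    obtain ⟨N, hN⟩ := std_sepF_SB P I
    refine ⟨N, fun t' ht' => ?_⟩
    intro k hk
    refine std_congr_SB P' k (f t) (f t') (fun v hv => ?_)
    refine (hI t' (fun u hu => (hN t t' ht' u hu).symm) v (hfin.mem_toFinset.mpr ?_)).symm
    change v.length ≤ n
    omega

end Pool.Agent.Helper30.WL
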