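import Pool.Agent.Helper30.WL.St2

/-!
# PROJECT WL, module ST: from chains of length `θ` to chains of length `ω ^ θ`
-/

set_option autoImplicit false

namespace Pool.Agent.Helper30.WL

open Set
open Pool.Agent.Helper24.WH
open Ordinal hiding univ

private theorem dfb_empty_ST (P : Type) : Dfb (∅ : Set (Tre (P → Bool))) :=
  ⟨.bot, fun _ h => h, trivial, by ext t; simp [Fm.lang, Fm.sem]⟩

private theorem fold_zero_ST {W : Type 1} (st : W → Ordinal.{0} → W) (w : W) : fold st 0 w = w := by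
  rw [fold]
  simp

private theorem fold_ne_ST {W : Type 1} (st : W → Ordinal.{0} → W) {b : Ordinal.{0}} (hb : b ≠ 0)
    (w : W) : fold st b w = fold st (b - ω ^ log ω b) (st w (log ω b)) := by
  rw [fold]
  simp [hb]

private theorem log_lt_ST {b θ : Ordinal.{0}} (hb : b ≠ 0) (h : b < ω ^ θ) : log ω b < θ :=
  (lt_opow_iff_log_lt one_lt_omega0 hb).1 h

/-- Invariants of the fold. -/
private theorem ind_ST {W : Type 1} (st : W → Ordinal.{0} → W) (θ : Ordinal.{0}) (P : W → Prop)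
    (hst : ∀ w a, a < θ → P w → P (st w a)) : ∀ b : Ordinal.{0}, b < ω ^ θ → ∀ w, P w → P (fold st b w) := by
  intro b
  induction b using WellFoundedLT.induction with
  | ind b ih =>
    intro hb w hw
    by_cases h0 : b = 0
    · subst h0
      rwa [fold_zero_ST]
    · rw [fold_ne_ST st h0]
      have h1 := sub_log_lt b h0
      exact ih _ h1 (h1.trans hb) _ (hst _ _ (log_lt_ST h0 hb) hw)

/-- The first component of the fold. -/
private theorem fst_ST {Q : Type} (C : Ordinal.{0} → Cls) (L : Ordinal.{0} → Set (Tre (Lt3 Q))) :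
    ∀ (b : Ordinal.{0}) (w : Cls × Set (Tre (Lt3 (Q ⊕ Fin 3)))),
      (fold (fun (w : Cls × Set (Tre (Lt3 (Q ⊕ Fin 3)))) a => (SumC w.1 (ExpC (C a)), Su w.2 (Ex (L a)))) b w).1 =
        fold (fun U a => SumC U (ExpC (C a))) b w.1 := by
  intro b
  induction b using WellFoundedLT.induction with
  | ind b ih =>
    intro w
    by_cases h0 : b = 0
    · subst h0
      rw [fold_zero_ST, fold_zero_ST]
    · rw [fold_ne_ST _ h0, fold_ne_ST _ h0, ih _ (sub_log_lt b h0)]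

theorem hST (hFD : StFD) (hGE : StGE) (hHZ : StHZ) (hHE : StHE) (hHS : StHS) (hME : StME)
    (hMS : StMS) (hDS : StDS) (hDE : StDE) (hGS : StGS) : StST := by
  intro Q _ θ C L h
  let st : Cls × Set (Tre (Lt3 (Q ⊕ Fin 3))) → Ordinal.{0} → Cls × Set (Tre (Lt3 (Q ⊕ Fin 3))) :=
    fun w a => (SumC w.1 (ExpC (C a)), Su w.2 (Ex (L a)))
  have hinv := ind_ST st θ (fun w => Good w.1 ∧ Cpl w.1 w.2 ∧ Dfb w.2) (by
    rintro w a ha ⟨hg, ⟨hm, hh⟩, hd⟩
    have hE : Good (ExpC (C a)) := hGE.2 _ (h.good a ha)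
    have hc := h.cpl a ha
    refine ⟨hGS _ _ hg hE, ⟨?_, ?_⟩, ?_⟩
    · exact hMS _ _ _ _ _ hg hE hm (hME Q (C a) (L a) (h.good a ha) hc.1)
    · exact hHS _ _ _ _ _ hh (hHE Q (C a) (L a) hc.2)
    · exact hDS _ _ _ hd (hDE _ _ (h.df a ha)))
  have h0 : Good C0 ∧ Cpl C0 (∅ : Set (Tre (Lt3 (Q ⊕ Fin 3)))) ∧
      Dfb (∅ : Set (Tre (Lt3 (Q ⊕ Fin 3)))) := ⟨hGE.1, hHZ _, dfb_empty_ST _⟩
  have hfd := (hFD C θ h.good h.lt C0 hGE.1).2
  refine ⟨fun b => (fold st b (C0, ∅)).1, fun b => (fold st b (C0, ∅)).2, ?_⟩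
  constructor
  · intro b hb
    exact (hinv b hb _ h0).1
  · intro b hb
    exact (hinv b hb _ h0).2.1
  · intro b b' hbb hb'
    have h1 := hfd b b' hbb hb'
    have e1 : (fold st b (C0, ∅)).1 = fold (fun U a => SumC U (ExpC (C a))) b C0 := fst_ST C L b _
    have e2 : (fold st b' (C0, ∅)).1 = fold (fun U a => SumC U (ExpC (C a))) b' C0 := fst_ST C L b' _
    show LtC (fold st b (C0, ∅)).1 (fold st b' (C0, ∅)).1
    rw [e1, e2]
    exact h1
  · intro b hb
    exact (hinv b hb _ h0).2.2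

end Pool.Agent.Helper30.WL
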