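import Pool.Agent.Helper30.WL.St2

/-! WL module TA: the tests -/

set_option autoImplicit false

namespace Pool.Agent.Helper30.WL

open Set
open Pool.Agent.Helper24.WH

variable {Q : Type}

private theorem toB_sub_TA (t : Tre (Set (Q ⊕ Fin 3))) (u : List Bool) :
    toB (t.sub u) = (toB t).sub u := rfl

private theorem toB_true_TA (t : Tre (Set (Q ⊕ Fin 3))) (u : List Bool) (p : Q ⊕ Fin 3) :
    toB t u p = true ↔ p ∈ t u := by
  unfold toB
  exact @decide_eq_true_iff _ (Classical.propDecidable _)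

private theorem toB_false_TA (t : Tre (Set (Q ⊕ Fin 3))) (u : List Bool) (p : Q ⊕ Fin 3) :
    toB t u p = false ↔ p ∉ t u := by
  unfold toB
  exact @decide_eq_false_iff_not _ (Classical.propDecidable _)

/-- one step of the operator of `nb` -/
private def stepN_TA (X : Set (Tre (Set (Q ⊕ Fin 3)))) (t : Tre (Set (Q ⊕ Fin 3))) : Prop :=
  ∀ b : Bool, Sum.inr 0 ∉ t [b] ∨ (Sum.inr 2 ∉ t [b] ∧ t.sub [b] ∈ X)

private theorem nb_post_TA (t : Tre (Set (Q ⊕ Fin 3))) (h : NB (toB t)) :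
    stepN_TA {t | NB (toB t)} t := by
  intro b
  by_cases h0 : (Sum.inr 0 : Q ⊕ Fin 3) ∈ t [b]
  · right
    refine ⟨?_, ?_⟩
    · rw [← toB_false_TA]
      refine h [b] (by simp) ?_
      intro w hw hwb
      rcases List.prefix_cons_iff.1 hwb with h1 | ⟨w', h1, h2⟩
      · exact absurd h1 hw
      · rw [List.prefix_nil] at h2
        rw [h1, h2, toB_true_TA]
        exact h0
    · intro v hv hm
      refine h (b :: v) (by simp) ?_
      intro w hw hwb
      rcases List.prefix_cons_iff.1 hwb with h1 | ⟨w', h1, h2⟩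
      · exact absurd h1 hw
      · rw [h1]
        by_cases h3 : w' = []
        · rw [h3, toB_true_TA]
          exact h0
        · exact hm w' h3 h2
  · left
    exact h0

private theorem nb_max_TA (X : Set (Tre (Set (Q ⊕ Fin 3)))) (hX : ∀ t ∈ X, stepN_TA X t) :
    ∀ v : List Bool, ∀ t ∈ X, v ≠ [] →
      (∀ w : List Bool, w ≠ [] → w <+: v → toB t w (Sum.inr 0) = true) →
        toB t v (Sum.inr 2) = false := by
  intro v
  induction v with
  | nil =>
    intro t _ hv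
    exact absurd rfl hv
  | cons b v ih =>
    intro t ht _ hm
    have h0 : toB t [b] (Sum.inr 0) = true := hm [b] (by simp) (by simp)
    rw [toB_true_TA] at h0
    rcases hX t ht b with h1 | ⟨h1, h2⟩
    · exact absurd h0 h1
    · by_cases hv : v = []
      · rw [hv, toB_false_TA]
        exact h1
      · refine ih (t.sub [b]) h2 hv ?_
        intro w hw hwv
        exact hm (b :: w) (by simp) (List.cons_prefix_cons.2 ⟨rfl, hwv⟩)

private theorem nb_SEM_TA (V : ℕ → Set (Tre (Set (Q ⊕ Fin 3)))) :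
    (nb : Fm (Q ⊕ Fin 3)).SEM V = {t | NB (toB t)} := by
  apply Set.Subset.antisymm
  · rintro t ⟨X, hX, ht⟩
    intro v hv hm
    exact nb_max_TA X (fun s hs b => hX hs b) v t ht hv hm
  · intro t ht
    exact ⟨{t | NB (toB t)}, fun s hs b => nb_post_TA s hs b, ht⟩

private theorem bt_SEM_TA (V : ℕ → Set (Tre (Set (Q ⊕ Fin 3)))) :
    (bt : Fm (Q ⊕ Fin 3)).SEM V = {t | ¬ NB (toB t)} := by
  apply Set.Subset.antisymm
  · intro t ht
    have h1 : t ∈ ⋂₀ {X | ((Fm.dia (.and (.prop (.inr 0)) (.or (.prop (.inr 2)) (.var 0)))) :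
        Fm (Q ⊕ Fin 3)).SEM (ec X V) ⊆ X} := ht
    refine h1 {t | ¬ NB (toB t)} ?_
    rintro s ⟨b, hb0, hb⟩ hs
    rcases nb_post_TA s hs b with h2 | ⟨h2, h3⟩
    · exact h2 hb0
    · rcases hb with hb | hb
      · exact h2 hb
      · exact hb h3
  · intro t ht X hX
    by_contra hc
    apply ht
    intro v hv hm
    refine nb_max_TA Xᶜ ?_ v t hc hv hm
    intro s hs b
    by_cases h0 : (Sum.inr 0 : Q ⊕ Fin 3) ∈ s [b]
    · right
      refine ⟨fun h2 => hs (hX ⟨b, h0, Or.inl h2⟩), fun h2 => hs (hX ⟨b, h0, Or.inr h2⟩)⟩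
    · left
      exact h0

private theorem wf_post_TA (t : Tre (Set (Q ⊕ Fin 3))) (h : ∀ n, WFn n (toB t)) (e : Bool) :
    ((∃ b : Bool, (Sum.inr 0 : Q ⊕ Fin 3) ∈ t [e, b]) ∧ (∃ b : Bool, (Sum.inr 0 : Q ⊕ Fin 3) ∉ t [e, b])) ∧
      ∀ b : Bool, (Sum.inr 0 : Q ⊕ Fin 3) ∈ t [e, b] ∨
        (((∃ s : Bool, (Sum.inr 1 : Q ⊕ Fin 3) ∈ t [e, b, s]) ∧
          (∃ s : Bool, (Sum.inr 1 : Q ⊕ Fin 3) ∉ t [e, b, s])) ∧
          ∀ s : Bool, ∀ n, WFn n (toB (t.sub [e, b, s]))) := by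
  have h1 := h 1 e
  have hdk : dk ((toB t).sub [e]) = toB t [e, false] (Sum.inr 0) := rfl
  refine ⟨?_, ?_⟩
  · have h2 := h1.1
    rcases hf : toB t [e, false] (Sum.inr 0) with _ | _
    · rcases ht : toB t [e, true] (Sum.inr 0) with _ | _
      · rw [hf, ht] at h2
        exact absurd rfl h2
      · exact ⟨⟨true, (toB_true_TA _ _ _).1 ht⟩, ⟨false, (toB_false_TA _ _ _).1 hf⟩⟩
    · rcases ht : toB t [e, true] (Sum.inr 0) with _ | _
      · exact ⟨⟨false, (toB_true_TA _ _ _).1 hf⟩, ⟨true, (toB_false_TA _ _ _).1 ht⟩⟩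
      · rw [hf, ht] at h2
        exact absurd rfl h2
  · intro b
    by_cases h0 : (Sum.inr 0 : Q ⊕ Fin 3) ∈ t [e, b]
    · left
      exact h0
    · right
      have hb : b = dk ((toB t).sub [e]) := by
        rw [hdk]
        rw [← toB_false_TA] at h0
        cases b with
        | false => exact h0.symm
        | true =>
          have h2 := h1.1
          rw [h0] at h2
          rcases hf : toB t [e, false] (Sum.inr 0) with _ | _
          · exact absurd hf h2
          · rfl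
      rw [hb]
      refine ⟨?_, fun s n => (h (n + 1) e).2.2 s⟩
      have h2 := h1.2.1
      rcases hf : toB t [e, dk ((toB t).sub [e]), false] (Sum.inr 1) with _ | _
      · rcases ht : toB t [e, dk ((toB t).sub [e]), true] (Sum.inr 1) with _ | _
        · rw [hf, ht] at h2
          exact absurd rfl h2
        · exact ⟨⟨true, (toB_true_TA _ _ _).1 ht⟩, ⟨false, (toB_false_TA _ _ _).1 hf⟩⟩
      · rcases ht : toB t [e, dk ((toB t).sub [e]), true] (Sum.inr 1) with _ | _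
        · exact ⟨⟨false, (toB_true_TA _ _ _).1 hf⟩, ⟨true, (toB_false_TA _ _ _).1 ht⟩⟩
        · rw [hf, ht] at h2
          exact absurd rfl h2

private theorem ne_of_TA (t : Tre (Set (Q ⊕ Fin 3))) (u : List Bool → List Bool) (p : Q ⊕ Fin 3)
    (h1 : ∃ b : Bool, p ∈ t (u [b])) (h2 : ∃ b : Bool, p ∉ t (u [b])) :
    toB t (u [false]) p ≠ toB t (u [true]) p := by
  intro h3
  obtain ⟨b, hb⟩ := h1
  obtain ⟨b', hb'⟩ := h2
  rw [← toB_true_TA] at hb
  rw [← toB_false_TA] at hb'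
  cases b <;> cases b' <;> simp_all

private theorem wf_max_TA (X : Set (Tre (Set (Q ⊕ Fin 3))))
    (hX : ∀ t ∈ X, ∀ e : Bool,
      ((∃ b : Bool, (Sum.inr 0 : Q ⊕ Fin 3) ∈ t [e, b]) ∧ (∃ b : Bool, (Sum.inr 0 : Q ⊕ Fin 3) ∉ t [e, b])) ∧
      ∀ b : Bool, (Sum.inr 0 : Q ⊕ Fin 3) ∈ t [e, b] ∨
        (((∃ s : Bool, (Sum.inr 1 : Q ⊕ Fin 3) ∈ t [e, b, s]) ∧
          (∃ s : Bool, (Sum.inr 1 : Q ⊕ Fin 3) ∉ t [e, b, s])) ∧
          ∀ s : Bool, t.sub [e, b, s] ∈ X)) :
    ∀ n, ∀ t ∈ X, WFn n (toB t) := by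
  intro n
  induction n with
  | zero =>
    intro t _
    exact trivial
  | succ n ih =>
    intro t ht e
    obtain ⟨⟨h1, h2⟩, h3⟩ := hX t ht e
    have hne : toB t [e, false] (Sum.inr 0) ≠ toB t [e, true] (Sum.inr 0) :=
      ne_of_TA t (fun l => e :: l) _ h1 h2
    have hdk : dk ((toB t).sub [e]) = toB t [e, false] (Sum.inr 0) := rfl
    have h0 : (Sum.inr 0 : Q ⊕ Fin 3) ∉ t [e, dk ((toB t).sub [e])] := by
      rw [← toB_false_TA]
      rcases hf : toB t [e, false] (Sum.inr 0) with _ | _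
      · rw [hdk, hf]
        exact hf
      · rw [hdk, hf]
        rcases hg : toB t [e, true] (Sum.inr 0) with _ | _
        · rfl
        · rw [hf, hg] at hne
          exact absurd rfl hne
    rcases h3 (dk ((toB t).sub [e])) with h4 | ⟨⟨h5, h6⟩, h7⟩
    · exact absurd h4 h0
    · exact ⟨hne, ne_of_TA t (fun l => e :: dk ((toB t).sub [e]) :: l) _ h5 h6,
        fun s => ih _ (h7 s)⟩

private theorem wff_SEM_TA (V : ℕ → Set (Tre (Set (Q ⊕ Fin 3)))) :
    (wff : Fm (Q ⊕ Fin 3)).SEM V = {t | ∀ n, WFn n (toB t)} := by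
  apply Set.Subset.antisymm
  · rintro t ⟨X, hX, ht⟩
    intro n
    exact wf_max_TA X (fun s hs e => hX hs e) n t ht
  · intro t ht
    exact ⟨{t | ∀ n, WFn n (toB t)}, fun s hs e => wf_post_TA s hs e, ht⟩

theorem hTA : StTA := by
  intro Q V
  refine ⟨nb_SEM_TA V, bt_SEM_TA V, wff_SEM_TA V, ?_⟩
  intro t ht e n
  exact (ht (n + 1) e).2.2 _

end Pool.Agent.Helper30.WL
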