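import Pool.Agent.Helper30.WL.St2

/-!
# PROJECT WL, module TL: the translation lemma
-/

set_option autoImplicit false

namespace Pool.Agent.Helper30.WL

open Set
open Pool.Agent.Helper24.WH
open Ordinal hiding univ

private theorem toB_sub_TL {P : Type} (t : Tre (Set P)) (w : List Bool) : toB (t.sub w) = (toB t).sub w := rfl

private theorem toB_iff_TL {P : Type} (t : Tre (Set P)) (u : List Bool) (p : P) : toB t u p = true ↔ p ∈ t u := by
  simp [toB]

private theorem toB_false_TL {P : Type} (t : Tre (Set P)) (u : List Bool) (p : P) : toB t u p = false ↔ p ∉ t u := by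
  simp [toB]

private theorem sub_sub_TL {A : Type} (t : Tre A) (u v : List Bool) : (t.sub u).sub v = t.sub (u ++ v) := by
  funext w
  simp [Tre.sub, List.append_assoc]

private theorem dcS_sub_TL {Q : Type} (t : Tre (Set (Q ⊕ Fin 3))) (e : Bool) :
    dcS (t.sub (e :: sel (toB (t.sub [e])))) = (dcS t).sub [e] := rfl

/-- the selected node -/
private theorem slf_TL (hTA : StTA) {Q : Type} (ψ : Fm (Q ⊕ Fin 3)) (V : ℕ → Set (Tre (Set (Q ⊕ Fin 3))))
    (c : Tre (Set (Q ⊕ Fin 3))) (h0 : toB c [false] (Sum.inr 0) ≠ toB c [true] (Sum.inr 0))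
    (h1 : toB c [dk (toB c), false] (Sum.inr 1) ≠ toB c [dk (toB c), true] (Sum.inr 1)) :
    c ∈ (slf ψ).SEM V ↔ c.sub (sel (toB c)) ∈ ψ.SEM V := by
  obtain ⟨hnb, hbt, -, -⟩ := hTA Q V
  have hA : ∀ b : Bool, (Sum.inr 0 ∉ c [b] ↔ b = dk (toB c)) := by
    intro b
    rw [← toB_false_TL]
    simp only [dk]
    revert h0
    cases b <;> cases toB c [false] (Sum.inr 0) <;> cases toB c [true] (Sum.inr 0) <;> simp
  have hB : ∀ s : Bool, (Sum.inr 1 ∈ c [dk (toB c), s] ↔ s = !(toB c [dk (toB c), false] (Sum.inr 1))) := by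
    intro s
    rw [← toB_iff_TL]
    revert h1
    cases s <;> cases toB c [dk (toB c), false] (Sum.inr 1) <;> cases toB c [dk (toB c), true] (Sum.inr 1) <;> simp
  have hC : ∀ s : Bool, (Sum.inr 1 ∉ c [dk (toB c), s] ↔ s = toB c [dk (toB c), false] (Sum.inr 1)) := by
    intro s
    rw [← toB_false_TL]
    revert h1
    cases s <;> cases toB c [dk (toB c), false] (Sum.inr 1) <;> cases toB c [dk (toB c), true] (Sum.inr 1) <;> simp
  have hS : c ∈ (slf ψ).SEM V ↔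
      (c ∈ bt.SEM V ∧ ∃ b : Bool, Sum.inr 0 ∉ c [b] ∧ ∃ s : Bool, Sum.inr 1 ∈ c [b, s] ∧ c.sub [b, s] ∈ ψ.SEM V) ∨
      (c ∈ nb.SEM V ∧ ∃ b : Bool, Sum.inr 0 ∉ c [b] ∧ ∃ s : Bool, Sum.inr 1 ∉ c [b, s] ∧ c.sub [b, s] ∈ ψ.SEM V) :=
    Iff.rfl
  rw [hS, hbt, hnb]
  simp only [Set.mem_ofPred_eq]
  by_cases hN : NB (toB c)
  · have hsel : sel (toB c) = [dk (toB c), toB c [dk (toB c), false] (Sum.inr 1)] := by
      simp [sel, hN]
    rw [hsel]
    constructor
    · rintro (⟨h, -⟩ | ⟨-, b, hb, s, hs, h⟩)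
      · exact absurd hN h
      · rw [hA] at hb
        subst hb
        rw [hC] at hs
        rw [← hs]
        exact h
    · intro h
      exact Or.inr ⟨hN, dk (toB c), (hA _).2 rfl, _, (hC _).2 rfl, h⟩
  · have hsel : sel (toB c) = [dk (toB c), !(toB c [dk (toB c), false] (Sum.inr 1))] := by
      simp [sel, hN]
    rw [hsel]
    constructor
    · rintro (⟨-, b, hb, s, hs, h⟩ | ⟨h, -⟩)
      · rw [hA] at hb
        subst hb
        rw [hB] at hs
        rw [← hs]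
        exact h
      · exact absurd h hN
    · intro h
      exact Or.inl ⟨hN, dk (toB c), (hA _).2 rfl, _, (hB _).2 rfl, h⟩

private theorem lfp_TL (hF2 : StF2) {P : Type} (φ : Fm P) (V : ℕ → Set (Tre (Set P))) :
    φ.SEM (ec ((Fm.mu φ).SEM V) V) ⊆ (Fm.mu φ).SEM V := by
  intro t ht X hX
  refine hX ((hF2 P φ).1 _ _ ?_ ht)
  rintro (_ | i)
  · exact fun s hs => hs X hX
  · exact subset_rfl

private theorem gfp_TL (hF2 : StF2) {P : Type} (φ : Fm P) (V : ℕ → Set (Tre (Set P))) :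
    (Fm.nu φ).SEM V ⊆ φ.SEM (ec ((Fm.nu φ).SEM V) V) := by
  rintro t ⟨X, hX, ht⟩
  refine (hF2 P φ).1 _ _ ?_ (hX ht)
  rintro (_ | i)
  · exact fun s hs => ⟨X, hX, hs⟩
  · exact subset_rfl

private theorem mono_TL (hF2 : StF2) {P : Type} (φ : Fm P) (V : ℕ → Set (Tre (Set P))) (A B : Set (Tre (Set P)))
    (h : A ⊆ B) : φ.SEM (ec A V) ⊆ φ.SEM (ec B V) := by
  refine (hF2 P φ).1 _ _ ?_
  rintro (_ | i)
  · exact h
  · exact subset_rfl

theorem hTL (hTA : StTA) (hF2 : StF2) : StTL := by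
  intro Q φ
  induction φ with
  | prop p =>
    intro V' V hV t ht
    show Sum.inl p ∈ t [] ↔ toB t [] (Sum.inl p) = true
    rw [toB_iff_TL]
  | nprop p =>
    intro V' V hV t ht
    show Sum.inl p ∉ t [] ↔ ¬ (toB t [] (Sum.inl p) = true)
    rw [toB_iff_TL]
  | top => intro V' V hV t ht; exact Iff.rfl
  | bot => intro V' V hV t ht; exact Iff.rfl
  | var n => intro V' V hV t ht; exact hV n t ht
  | and φ ψ ih1 ih2 =>
    intro V' V hV t ht
    exact and_congr (ih1 V' V hV t ht) (ih2 V' V hV t ht)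
  | or φ ψ ih1 ih2 =>
    intro V' V hV t ht
    exact or_congr (ih1 V' V hV t ht) (ih2 V' V hV t ht)
  | dia φ ih =>
    intro V' V hV t ht
    refine exists_congr fun e => ?_
    have h := ht 1 e
    rw [slf_TL hTA (trf φ) V' (t.sub [e]) h.1 h.2.1, sub_sub_TL]
    have h2 := ih V' V hV (t.sub (e :: sel (toB (t.sub [e])))) ((hTA Q V').2.2.2 t ht e)
    rw [dcS_sub_TL] at h2
    exact h2
  | box φ ih =>
    intro V' V hV t ht
    refine forall_congr' fun e => ?_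
    have h := ht 1 e
    rw [slf_TL hTA (trf φ) V' (t.sub [e]) h.1 h.2.1, sub_sub_TL]
    have h2 := ih V' V hV (t.sub (e :: sel (toB (t.sub [e])))) ((hTA Q V').2.2.2 t ht e)
    rw [dcS_sub_TL] at h2
    exact h2
  | mu φ ih =>
    intro V' V hV t ht
    constructor
    · intro h
      have key : (trf φ).SEM (ec {s | (∀ m, WFn m (toB s)) → dcS s ∈ (Fm.mu φ).SEM V} V') ⊆
          {s | (∀ m, WFn m (toB s)) → dcS s ∈ (Fm.mu φ).SEM V} := by
        intro s hs hsW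
        refine lfp_TL hF2 φ V ((ih _ (ec ((Fm.mu φ).SEM V) V) ?_ s hsW).1 hs)
        rintro (_ | n) x hx
        · exact ⟨fun h => h hx, fun h _ => h⟩
        · exact hV n x hx
      exact h _ key ht
    · intro h
      have key : φ.SEM (ec {y | ∀ s, (∀ m, WFn m (toB s)) → dcS s = y → s ∈ (Fm.mu (trf φ)).SEM V'} V) ⊆
          {y | ∀ s, (∀ m, WFn m (toB s)) → dcS s = y → s ∈ (Fm.mu (trf φ)).SEM V'} := by
        intro y hy s hs hsy
        subst hsy
        refine lfp_TL hF2 (trf φ) V' (mono_TL hF2 (trf φ) V'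
          {x | (∀ m, WFn m (toB x)) ∧ dcS x ∈ {y | ∀ s, (∀ m, WFn m (toB s)) → dcS s = y → s ∈ (Fm.mu (trf φ)).SEM V'}} _ ?_ ?_)
        · rintro x ⟨hx1, hx2⟩
          exact hx2 x hx1 rfl
        · refine (ih _ _ ?_ s hs).2 hy
          rintro (_ | n) x hx
          · exact ⟨fun h => h.2, fun h => ⟨hx, h⟩⟩
          · exact hV n x hx
      exact h _ key t ht rfl
  | nu φ ih =>
    intro V' V hV t ht
    constructor
    · intro h
      refine ⟨{y | ∃ s, (∀ m, WFn m (toB s)) ∧ dcS s = y ∧ s ∈ (Fm.nu (trf φ)).SEM V'}, ?_, ⟨t, ht, rfl, h⟩⟩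
      rintro y ⟨s, hs, rfl, hs2⟩
      refine (ih (ec {x | (∀ m, WFn m (toB x)) → dcS x ∈
        {y | ∃ s, (∀ m, WFn m (toB s)) ∧ dcS s = y ∧ s ∈ (Fm.nu (trf φ)).SEM V'}} V') _ ?_ s hs).1 ?_
      · rintro (_ | n) x hx
        · exact ⟨fun h => h hx, fun h _ => h⟩
        · exact hV n x hx
      · refine mono_TL hF2 (trf φ) V' _ _ ?_ (gfp_TL hF2 (trf φ) V' hs2)
        intro x hx hxW
        exact ⟨x, hxW, rfl, hx⟩
    · intro h
      refine ⟨{x | (∀ m, WFn m (toB x)) ∧ dcS x ∈ (Fm.nu φ).SEM V}, ?_, ⟨ht, h⟩⟩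
      rintro x ⟨hx1, hx2⟩
      refine (ih _ (ec ((Fm.nu φ).SEM V) V) ?_ x hx1).2 (gfp_TL hF2 φ V hx2)
      rintro (_ | n) z hz
      · exact ⟨fun h => h.2, fun h => ⟨hz, h⟩⟩
      · exact hV n z hz

end Pool.Agent.Helper30.WL
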