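import Pool.Agent.Helper30.WL.M_CLS
import Pool.Agent.Helper30.WL.M_KEY
import Pool.Agent.Helper30.WL.M_LT
import Pool.Agent.Helper30.WL.M_GE
import Pool.Agent.Helper30.WL.M_GS
import Pool.Agent.Helper30.WL.M_FD
import Pool.Agent.Helper30.WL.M_SB
import Pool.Agent.Helper30.WL.M_NS
import Pool.Agent.Helper30.WL.M_HE
import Pool.Agent.Helper30.WL.M_HS
import Pool.Agent.Helper30.WL.M_ME
import Pool.Agent.Helper30.WL.M_MS
import Pool.Agent.Helper30.WL.M_NG
import Pool.Agent.Helper30.WL.M_LG
import Pool.Agent.Helper30.WL.M_DS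
import Pool.Agent.Helper30.WL.M_TA
import Pool.Agent.Helper30.WL.M_TL
import Pool.Agent.Helper30.WL.M_DE
import Pool.Agent.Helper30.WL.M_ST
import Pool.Agent.Helper30.WL.M_CN
import Pool.Agent.Helper30.WL.M_LO
import Pool.Agent.Helper24.WH.M_F1
import Pool.Agent.Helper24.WH.M_F2

/-!
# PROJECT WL (MP_76577a_lc): the lower bound
-/

set_option autoImplicit false

namespace Pool.Agent.Helper30.WL

/-- for every ordinal below `ε₀` some definable set has at least this rank -/
theorem lower : StLO := by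
  have f1 : Helper24.WH.StF1 := Helper24.WH.hF1
  have f2 : Helper24.WH.StF2 := Helper24.WH.hF2
  have hlg : StLG := hLG f1 f2
  have hkey : StKEY := hKEY hCLS hLT
  have hfd : StFD := hFD hGE hGS hLT hkey
  have hme : StME := hME hSB
  have hms : StMS := hMS hSB
  have hds : StDS := hDS f2 hNG hlg hDPN
  have htl : StTL := hTL hTA f2
  have hde : StDE := hDE hTA htl hlg
  have hst : StST := hST hfd hGE hHZ hHE hHS hme hms hds hde hGS
  have hcn : StCN := hCN hst hHZ hGE
  exact hLO hcn (hNS hSB)

end Pool.Agent.Helper30.WL
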