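import Pool.Agent.Helper30.WL.St

set_option autoImplicit false

namespace Pool.Agent.Helper30.WL

open Set

private theorem ag_refl_CLS {X : Type} (i : Bits X) (n : ℕ) (x : X) : Ag i n x x := fun _ _ => rfl

private theorem ag_mono_CLS {X : Type} {i : Bits X} {m n : ℕ} {x y : X} (h : m ≤ n) (hn : Ag i n x y) : Ag i m x y :=
  fun k hk => hn k (lt_of_lt_of_le hk h)

private theorem ag_symm_CLS {X : Type} {i : Bits X} {n : ℕ} {x y : X} (hn : Ag i n x y) : Ag i n y x :=
  fun k hk => (hn k hk).symm

/-- the word of the first `n` bits -/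
private def pre_CLS {X : Type} (i : Bits X) (n : ℕ) (x : X) : List Bool := (List.range n).map (i x)

private theorem pre_len_CLS {X : Type} (i : Bits X) (n : ℕ) (x : X) : (pre_CLS i n x).length = n := by
  simp [pre_CLS]

private theorem pre_eq_CLS {X : Type} (i : Bits X) (n : ℕ) (x y : X) :
    pre_CLS i n x = pre_CLS i n y ↔ Ag i n x y := by
  unfold pre_CLS Ag
  rw [List.map_inj_left]
  constructor
  · intro h k hk
    exact h k (List.mem_range.mpr hk)
  · intro h k hk
    exact h k (List.mem_range.mp hk)

/-- cylinder of a word -/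
private def cyl_CLS {X : Type} (i : Bits X) (w : List Bool) : Set X := {y | pre_CLS i w.length y = w}

private theorem cy_eq_CLS {X : Type} (i : Bits X) (n : ℕ) (x : X) : Cy i n x = cyl_CLS i (pre_CLS i n x) := by
  ext y
  unfold Cy cyl_CLS
  rw [mem_ofPred_eq, mem_ofPred_eq, pre_len_CLS, pre_eq_CLS]
  exact ⟨ag_symm_CLS, ag_symm_CLS⟩

/-- `b` with the bits `j` is a witness for `ExpC C` at the trace of `A` -/
private structure EO_CLS (C : Cls) {X : Type} (i : Bits X) (A b : Set X) (j : Bits X) : Prop where
  cl : ∀ k x, x ∈ b → j x k = false → ∃ n, ∀ y ∈ b, Ag i n x y → j y k = false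
  mem : C b (fun y => j y.1) (tr b A)

open Classical in
private theorem eo_of_CLS (C : Cls) {X : Type} (i : Bits X) (A b : Set X)
    (h : ExpC C b (res i b) (tr b A)) : ∃ j : Bits X, EO_CLS C i A b j := by
  obtain ⟨j, hj, hm⟩ := h
  refine ⟨fun x k => if hx : x ∈ b then j ⟨x, hx⟩ k else false, ?_, ?_⟩
  · intro k x hx hjx
    rw [dif_pos hx] at hjx
    have h1 : (⟨x, hx⟩ : b) ∈ {x | j x k = true}ᶜ := by
      simp [hjx]
    obtain ⟨n, hn⟩ := hj k ⟨x, hx⟩ h1
    refine ⟨n, fun y hy hxy => ?_⟩
    rw [dif_pos hy]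
    have h2 : (⟨y, hy⟩ : b) ∈ Cy (res i b) n ⟨x, hx⟩ := hxy
    have h3 := hn h2
    simpa using h3
  · have : (fun y : b => (fun (x : X) (k : ℕ) => if hx : x ∈ b then j ⟨x, hx⟩ k else false) y.1) = j := by
      funext y k
      simp [y.2]
    rw [this]
    exact hm

/-- the data of `SumC U (ExpC C)` on a subset `O`, in terms of subsets of `X` -/
private structure SO_CLS (U C : Cls) {X : Type} (i : Bits X) (A O b : Set X) (j : Bits X) : Prop where
  sub : b ⊆ O
  cl : ∀ x ∈ O, x ∉ b → ∃ n, ∀ y ∈ O, Ag i n x y → y ∉ b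
  eo : EO_CLS C i A b j
  off : ∀ x ∈ O, x ∉ b → ∃ n, ∃ O' : Set X, (∀ y ∈ O, Ag i n x y → y ∈ O') ∧ Disjoint O' b ∧
    (U O' (res i O') (tr O' A) ∨ U O' (res i O') (tr O' Aᶜ))

private theorem so_of_CLS (U C : Cls) (hU : Good U) (hC : Good C) {X : Type} (i : Bits X) (A O : Set X)
    (h : SumC U (ExpC C) O (res i O) (tr O A)) : ∃ (b : Set X) (j : Bits X), SO_CLS U C i A O b j := by
  obtain ⟨B, hB, hE, hoff⟩ := h
  let b : Set X := {x | ∃ hx : x ∈ O, (⟨x, hx⟩ : O) ∈ B}
  have hbO : b ⊆ O := fun x hx => hx.1
  have hEb : ExpC C b (res i b) (tr b A) := by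
    obtain ⟨j, hj, hm⟩ := hE
    let f : b → B := fun x => ⟨⟨x.1, x.2.1⟩, x.2.2⟩
    refine ⟨fun x => j (f x), ?_, ?_⟩
    · intro k x hx
      have h1 : f x ∈ {x | j x k = true}ᶜ := hx
      obtain ⟨n, hn⟩ := hj k (f x) h1
      refine ⟨n, fun y hy => ?_⟩
      exact hn (show f y ∈ Cy (res (res i O) B) n (f x) from hy)
    · exact hC.pre B b j (fun x => j (f x)) f (tr B (tr O A)) (fun n y => ⟨n, fun y' h => h⟩) hm
  obtain ⟨j, hj⟩ := eo_of_CLS C i A b hEb
  refine ⟨b, j, hbO, ?_, hj, ?_⟩
  · intro x hx hxb
    have h1 : (⟨x, hx⟩ : O) ∈ Bᶜ := fun h => hxb ⟨hx, h⟩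
    obtain ⟨n, hn⟩ := hB ⟨x, hx⟩ h1
    refine ⟨n, fun y hy hxy hyb => ?_⟩
    exact hn (show (⟨y, hy⟩ : O) ∈ Cy (res i O) n ⟨x, hx⟩ from hxy) hyb.2
  · intro x hx hxb
    have h1 : (⟨x, hx⟩ : O) ∉ B := fun h => hxb ⟨hx, h⟩
    obtain ⟨n, hd, hUU⟩ := hoff ⟨x, hx⟩ h1
    let O' : Set X := {y | ∃ hy : y ∈ O, (⟨y, hy⟩ : O) ∈ Cy (res i O) n ⟨x, hx⟩}
    refine ⟨n, O', fun y hy hxy => ⟨hy, hxy⟩, ?_, ?_⟩
    · rw [Set.disjoint_left] at hd ⊢
      intro y hy hyb
      exact hd hy.2 hyb.2
    · let g : O' → (Cy (res i O) n ⟨x, hx⟩) := fun y => ⟨⟨y.1, y.2.1⟩, y.2.2⟩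
      have hg : Cts (res i O') (res (res i O) (Cy (res i O) n ⟨x, hx⟩)) g := fun n y => ⟨n, fun y' h => h⟩
      rcases hUU with h | h
      · exact Or.inl (hU.pre _ _ _ _ g _ hg h)
      · exact Or.inr (hU.pre _ _ _ _ g _ hg h)

open Classical in
theorem hCLS : StCLS := by
  intro U C hU hC X i A B hB hEB hoff
  -- the property of words
  let W : Set X → Prop := fun O => Disjoint O B ∧ SumC U (ExpC C) O (res i O) (tr O A)
  let R : List Bool → Prop := fun w => W (cyl_CLS i w)
  have hoff' : ∀ x, x ∉ B → ∃ n, R (pre_CLS i n x) := by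
    intro x hx
    obtain ⟨n, h1, h2⟩ := hoff x hx
    refine ⟨n, ?_⟩
    rw [cy_eq_CLS] at h1 h2
    exact ⟨h1, h2⟩
  obtain ⟨jB, hjB⟩ := eo_of_CLS C i A B hEB
  have hch : ∀ w : List Bool, ∃ (b : Set X) (j : Bits X), R w → SO_CLS U C i A (cyl_CLS i w) b j := by
    intro w
    by_cases hw : R w
    · obtain ⟨b, j, h⟩ := so_of_CLS U C hU hC i A (cyl_CLS i w) hw.2
      exact ⟨b, j, fun _ => h⟩
    · exact ⟨∅, fun _ _ => false, fun h => absurd h hw⟩
  choose bw jw hw using hch
  let Nx : X → ℕ := fun x => if h : ∃ n, R (pre_CLS i n x) then Nat.find h else 0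
  let wx : X → List Bool := fun x => pre_CLS i (Nx x) x
  have hR : ∀ x, x ∉ B → R (wx x) := by
    intro x hx
    have h := hoff' x hx
    show R (pre_CLS i (if h : ∃ n, R (pre_CLS i n x) then Nat.find h else 0) x)
    rw [dif_pos h]
    exact Nat.find_spec h
  have hmemcyl : ∀ x, x ∈ cyl_CLS i (wx x) := by
    intro x
    show pre_CLS i (pre_CLS i (Nx x) x).length x = pre_CLS i (Nx x) x
    rw [pre_len_CLS]
  have hNx : ∀ x y, x ∉ B → Ag i (Nx x) x y → y ∉ B ∧ wx y = wx x := by
    intro x y hx hxy
    have hy : y ∈ cyl_CLS i (wx x) := by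
      show pre_CLS i (pre_CLS i (Nx x) x).length y = pre_CLS i (Nx x) x
      rw [pre_len_CLS, pre_eq_CLS]
      exact ag_symm_CLS hxy
    have hyB : y ∉ B := fun h => Set.disjoint_left.mp (hR x hx).1 hy h
    refine ⟨hyB, ?_⟩
    have h1 := hoff' x hx
    have h2 := hoff' y hyB
    have e1 : Nx x = Nat.find h1 := dif_pos h1
    have e2 : Nx y = Nat.find h2 := dif_pos h2
    have hle : Nx y ≤ Nx x := by
      rw [e2]
      apply Nat.find_min'
      have : pre_CLS i (Nx x) y = pre_CLS i (Nx x) x := by
        rw [pre_eq_CLS]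
        exact ag_symm_CLS hxy
      rw [this]
      exact hR x hx
    have hge : Nx x ≤ Nx y := by
      rw [e1]
      apply Nat.find_min'
      have : pre_CLS i (Nx y) x = pre_CLS i (Nx y) y := by
        rw [pre_eq_CLS]
        exact ag_mono_CLS hle hxy
      rw [this]
      exact hR y hyB
    have e : Nx y = Nx x := le_antisymm hle hge
    show pre_CLS i (Nx y) y = pre_CLS i (Nx x) x
    rw [e, pre_eq_CLS]
    exact ag_symm_CLS hxy
  let B' : Set X := {x | x ∈ B ∨ (x ∉ B ∧ x ∈ bw (wx x))}
  have hB'1 : ∀ x, x ∉ B' → x ∉ B ∧ x ∉ bw (wx x) := by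
    intro x hx
    have h1 : x ∉ B := fun h => hx (Or.inl h)
    exact ⟨h1, fun h => hx (Or.inr ⟨h1, h⟩)⟩
  have hnot : ∀ x y, x ∉ B → Ag i (Nx x) x y → y ∉ bw (wx x) → y ∉ B' := by
    intro x y hx hxy hy hyB'
    obtain ⟨h1, h2⟩ := hNx x y hx hxy
    rcases hyB' with h | h
    · exact h1 h
    · rw [h2] at h
      exact hy h.2
  refine ⟨B', ?_, ?_, ?_⟩
  · -- closed
    intro x hx
    obtain ⟨h1, h2⟩ := hB'1 x hx
    obtain ⟨n1, hn1⟩ := (hw (wx x) (hR x h1)).cl x (hmemcyl x) h2
    refine ⟨max n1 (Nx x), fun y hy => ?_⟩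
    have hy1 : Ag i (Nx x) x y := ag_mono_CLS (le_max_right _ _) hy
    have hyc : y ∈ cyl_CLS i (wx x) := by
      have := hmemcyl y
      rw [(hNx x y h1 hy1).2] at this
      exact this
    exact hnot x y h1 hy1 (hn1 y hyc (ag_mono_CLS (le_max_left _ _) hy))
  · -- the class on B'
    let J : Bits X := fun x n => match n.unpair with
      | (0, _) => decide (x ∈ B)
      | (1, b) => i x b
      | (2, b) => decide (x ∈ B) && jB x b
      | (a + 3, b) => decide (x ∉ B ∧ Encodable.encode (wx x) = a) && jw (wx x) x b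
    have J0 : ∀ x b, J x (Nat.pair 0 b) = decide (x ∈ B) := by
      intro x b
      simp [J]
    have J1 : ∀ x b, J x (Nat.pair 1 b) = i x b := by
      intro x b
      simp [J]
    have J2 : ∀ x b, J x (Nat.pair 2 b) = (decide (x ∈ B) && jB x b) := by
      intro x b
      simp [J]
    have J3 : ∀ x a b, J x (Nat.pair (a + 3) b) =
        (decide (x ∉ B ∧ Encodable.encode (wx x) = a) && jw (wx x) x b) := by
      intro x a b
      simp [J]
    refine ⟨fun x => J x.1, ?_, ?_⟩
    · intro n
      -- closedness
      have key : ∀ x ∈ B', J x n = false → ∃ m, ∀ y ∈ B', Ag i m x y → J y n = false := by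
        intro x hx hJ
        obtain ⟨a, b, rfl⟩ : ∃ a b, n = Nat.pair a b := ⟨n.unpair.1, n.unpair.2, (Nat.pair_unpair n).symm⟩
        match a with
        | 0 =>
          rw [J0] at hJ
          have hxB : x ∉ B := by simpa using hJ
          refine ⟨Nx x, fun y _ hxy => ?_⟩
          rw [J0]
          simpa using (hNx x y hxB hxy).1
        | 1 =>
          rw [J1] at hJ
          refine ⟨b + 1, fun y _ hxy => ?_⟩
          rw [J1, ← hxy b (Nat.lt_succ_self b)]
          exact hJ
        | 2 =>
          rw [J2] at hJ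
          by_cases hxB : x ∈ B
          · have hj : jB x b = false := by simpa [hxB] using hJ
            obtain ⟨m, hm⟩ := hjB.cl b x hxB hj
            refine ⟨m, fun y _ hxy => ?_⟩
            rw [J2]
            by_cases hyB : y ∈ B
            · simp [hyB, hm y hyB hxy]
            · simp [hyB]
          · refine ⟨Nx x, fun y _ hxy => ?_⟩
            rw [J2]
            simp [(hNx x y hxB hxy).1]
        | a + 3 =>
          rw [J3] at hJ
          by_cases hxB : x ∈ B
          · by_cases hex : ∃ w : List Bool, Encodable.encode w = a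
            · obtain ⟨w, hwa⟩ := hex
              refine ⟨w.length, fun y _ hxy => ?_⟩
              rw [J3]
              by_cases hy : y ∉ B ∧ Encodable.encode (wx y) = a
              · exfalso
                have hwy : wx y = w := Encodable.encode_injective (hy.2.trans hwa.symm)
                have hRw : R w := by
                  rw [← hwy]
                  exact hR y hy.1
                have hyc : y ∈ cyl_CLS i w := by
                  rw [← hwy]
                  exact hmemcyl y
                have hxc : x ∈ cyl_CLS i w := by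
                  have h1 : pre_CLS i w.length y = w := hyc
                  show pre_CLS i w.length x = w
                  rw [← h1, pre_len_CLS, pre_eq_CLS]
                  exact hxy
                exact Set.disjoint_left.mp hRw.1 hxc hxB
              · simp only [hy, decide_false, Bool.false_and]
            · refine ⟨0, fun y _ _ => ?_⟩
              rw [J3]
              have hy : ¬ (y ∉ B ∧ Encodable.encode (wx y) = a) := fun h => hex ⟨_, h.2⟩
              simp only [hy, decide_false, Bool.false_and]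
          · by_cases ha : Encodable.encode (wx x) = a
            · have hj : jw (wx x) x b = false := by simpa [hxB, ha] using hJ
              have hxb : x ∈ bw (wx x) := by
                rcases hx with h | h
                · exact absurd h hxB
                · exact h.2
              obtain ⟨m, hm⟩ := (hw (wx x) (hR x hxB)).eo.cl b x hxb hj
              refine ⟨max m (Nx x), fun y hy hxy => ?_⟩
              obtain ⟨hyB, hwy⟩ := hNx x y hxB (ag_mono_CLS (le_max_right _ _) hxy)
              rw [J3]
              have hyb : y ∈ bw (wx x) := by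
                rcases hy with h | h
                · exact absurd h hyB
                · rw [← hwy]
                  exact h.2
              rw [hwy, hm y hyb (ag_mono_CLS (le_max_left _ _) hxy), Bool.and_false]
            · refine ⟨Nx x, fun y _ hxy => ?_⟩
              obtain ⟨_, hwy⟩ := hNx x y hxB hxy
              rw [J3]
              have hy : ¬ (y ∉ B ∧ Encodable.encode (wx y) = a) := by
                rw [hwy]
                exact fun h => ha h.2
              simp only [hy, decide_false, Bool.false_and]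
      intro x hx
      have hJ : J x.1 n = false := by simpa using hx
      obtain ⟨m, hm⟩ := key x.1 x.2 hJ
      refine ⟨m, fun y hy => ?_⟩
      have : J y.1 n = false := hm y.1 y.2 hy
      simp [this]
    · -- paste
      let κ : B' → ℕ := fun x => if x.1 ∈ B then 0 else 1 + Encodable.encode (wx x.1)
      have hJmem : ∀ (x y : B'), (∃ n, Nat.pair 0 0 < n ∧ Ag (fun x : B' => J x.1) n x y) → (x.1 ∈ B ↔ y.1 ∈ B) := by
        rintro x y ⟨n, hn, h⟩
        have h1 : J x.1 (Nat.pair 0 0) = J y.1 (Nat.pair 0 0) := h _ hn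
        rw [J0, J0] at h1
        simpa using h1
      refine hC.paste B' _ κ (tr B' A) ?_ ?_
      · intro x
        by_cases hxB : x.1 ∈ B
        · refine ⟨Nat.pair 0 0 + 1, fun y hxy => ?_⟩
          have hyB := (hJmem x y ⟨_, Nat.lt_succ_self _, hxy⟩).mp hxB
          show (if y.1 ∈ B then 0 else 1 + Encodable.encode (wx y.1)) =
            (if x.1 ∈ B then 0 else 1 + Encodable.encode (wx x.1))
          rw [if_pos hyB, if_pos hxB]
        · refine ⟨Nat.pair 0 0 + 1 + Nat.pair 1 (Nx x.1), fun y hxy => ?_⟩
          have hyB : y.1 ∉ B := fun h => hxB ((hJmem x y ⟨_, by omega, hxy⟩).mpr h)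
          have hag : Ag i (Nx x.1) x.1 y.1 := by
            intro k hk
            have h2 : Nat.pair 1 k < Nat.pair 0 0 + 1 + Nat.pair 1 (Nx x.1) := by
              have := Nat.pair_lt_pair_right 1 hk
              omega
            have h1 : J x.1 (Nat.pair 1 k) = J y.1 (Nat.pair 1 k) := hxy _ h2
            rw [J1, J1] at h1
            exact h1
          show (if y.1 ∈ B then 0 else 1 + Encodable.encode (wx y.1)) =
            (if x.1 ∈ B then 0 else 1 + Encodable.encode (wx x.1))
          rw [if_neg hyB, if_neg hxB, (hNx x.1 y.1 hxB hag).2]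
      · intro c
        by_cases hne : ∃ x : B', κ x = c
        · obtain ⟨x0, hx0⟩ := hne
          by_cases hx0B : x0.1 ∈ B
          · have hc : c = 0 := by
              rw [← hx0]
              exact if_pos hx0B
            subst hc
            have hpB : ∀ x : B', κ x = 0 → x.1 ∈ B := by
              intro x hx
              by_contra h
              have : κ x = 1 + Encodable.encode (wx x.1) := if_neg h
              omega
            let f : {x : B' | κ x = 0} → B := fun x => ⟨x.1.1, hpB x.1 x.2⟩
            refine hC.pre B _ (fun y => jB y.1) _ f (tr B A) ?_ hjB.mem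
            intro n y
            refine ⟨Nat.pair 2 n, fun y' h k hk => ?_⟩
            have h1 : J y.1.1 (Nat.pair 2 k) = J y'.1.1 (Nat.pair 2 k) := h _ (Nat.pair_lt_pair_right 2 hk)
            rw [J2, J2] at h1
            simpa [hpB y.1 y.2, hpB y'.1 y'.2] using h1
          · set w := wx x0.1 with hwdef
            have hc : c = 1 + Encodable.encode w := by
              rw [← hx0]
              exact if_neg hx0B
            subst hc
            have hp : ∀ x : B', κ x = 1 + Encodable.encode w → x.1 ∉ B ∧ wx x.1 = w ∧ x.1 ∈ bw w := by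
              intro x hx
              have hxB : x.1 ∉ B := by
                intro h
                have : κ x = 0 := if_pos h
                omega
              have h1 : κ x = 1 + Encodable.encode (wx x.1) := if_neg hxB
              have h2 : wx x.1 = w := Encodable.encode_injective (by omega)
              refine ⟨hxB, h2, ?_⟩
              rcases x.2 with h | h
              · exact absurd h hxB
              · rw [← h2]
                exact h.2
            let f : {x : B' | κ x = 1 + Encodable.encode w} → bw w := fun x => ⟨x.1.1, (hp x.1 x.2).2.2⟩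
            refine hC.pre (bw w) _ (fun y => jw w y.1) _ f (tr (bw w) A) ?_ (hw w (hR x0.1 hx0B)).eo.mem
            intro n y
            refine ⟨Nat.pair (Encodable.encode w + 3) n, fun y' h k hk => ?_⟩
            have h1 : J y.1.1 (Nat.pair (Encodable.encode w + 3) k) = J y'.1.1 (Nat.pair (Encodable.encode w + 3) k) :=
              h _ (Nat.pair_lt_pair_right _ hk)
            rw [J3, J3] at h1
            obtain ⟨a1, a2, _⟩ := hp y.1 y.2
            obtain ⟨b1, b2, _⟩ := hp y'.1 y'.2
            simpa [a1, a2, b1, b2] using h1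
        · have : tr {x : B' | κ x = c} (tr B' A) = ∅ := by
            ext x
            exact ⟨fun _ => hne ⟨x.1, x.2⟩, fun h => h.elim⟩
          rw [this]
          exact hC.empty _ _
  · -- off B'
    intro x hx
    obtain ⟨h1, h2⟩ := hB'1 x hx
    have hS := hw (wx x) (hR x h1)
    obtain ⟨n1, O', hO', hd, hUU⟩ := hS.off x (hmemcyl x) h2
    have hsub : ∀ y, y ∈ Cy i (max n1 (Nx x)) x → y ∈ O' := by
      intro y hy
      have hy1 : Ag i (Nx x) x y := ag_mono_CLS (le_max_right _ _) hy
      have hyc : y ∈ cyl_CLS i (wx x) := by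
        have := hmemcyl y
        rw [(hNx x y h1 hy1).2] at this
        exact this
      exact hO' y hyc (ag_mono_CLS (le_max_left _ _) hy)
    refine ⟨max n1 (Nx x), ?_, ?_⟩
    · rw [Set.disjoint_left]
      intro y hy
      exact hnot x y h1 (ag_mono_CLS (le_max_right _ _) hy) (Set.disjoint_left.mp hd (hsub y hy))
    · let g : (Cy i (max n1 (Nx x)) x) → O' := fun y => ⟨y.1, hsub y.1 y.2⟩
      have hg : Cts (res i (Cy i (max n1 (Nx x)) x)) (res i O') g := fun n y => ⟨n, fun y' h => h⟩
      rcases hUU with h | h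
      · exact Or.inl (hU.pre _ _ _ _ g _ hg h)
      · exact Or.inr (hU.pre _ _ _ _ g _ hg h)

end Pool.Agent.Helper30.WL
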