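import Pool.Agent.Helper30.WL.St2

/-!
# WL module DS: the sum of two definable languages is definable
-/

set_option autoImplicit false

namespace Pool.Agent.Helper30.WL

open Set
open Pool.Agent.Helper24.WH
open Ordinal hiding univ

section DS

variable {Q : Type}

/-- well formedness of a spine node -/
def wf_DS : Fm (Q ⊕ Fin 3) := .and (.dia (.prop (.inr 0))) (.dia (.nprop (.inr 0)))

/-- the spine goes on with the variable `0` -/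
def go_DS : Fm (Q ⊕ Fin 3) :=
  .and wf_DS (.and (.nprop (.inr 1)) (.dia (.and (.prop (.inr 0)) (.var 0))))

/-- the spine stays forever -/
def N_DS : Fm (Q ⊕ Fin 3) := .nu go_DS

/-- the switch case -/
def sw_DS (k k' : Fm (Q ⊕ Fin 3)) : Fm (Q ⊕ Fin 3) :=
  .and wf_DS (.and (.prop (.inr 1)) (.or (.and (.nprop (.inr 2)) (.dia (.and (.nprop (.inr 0)) k)))
    (.and (.prop (.inr 2)) (.dia (.and (.nprop (.inr 0)) k')))))

/-- a switch is reached -/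
def M_DS (k k' : Fm (Q ⊕ Fin 3)) : Fm (Q ⊕ Fin 3) := .mu (.or (sw_DS k k') go_DS)

/-- the formula -/
def F_DS (k k' h : Fm (Q ⊕ Fin 3)) : Fm (Q ⊕ Fin 3) :=
  .or (M_DS k k') (.and N_DS (.dia (.and (.nprop (.inr 0)) h)))

/-- the next spine node, letters in `Set` -/
noncomputable def nxS_DS (t : Tre (Set (Q ⊕ Fin 3))) : Tre (Set (Q ⊕ Fin 3)) := t.sub [dX (toB t)]

theorem toB_nxS_DS (t : Tre (Set (Q ⊕ Fin 3))) : toB (nxS_DS t) = nx (toB t) := rfl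

theorem toB_it_DS (n : ℕ) (t : Tre (Set (Q ⊕ Fin 3))) : toB (nxS_DS^[n] t) = nx^[n] (toB t) := by
  induction n generalizing t with
  | zero => rfl
  | succ n ih => rw [Function.iterate_succ_apply, Function.iterate_succ_apply, ih, toB_nxS_DS]

theorem mark_DS (t : Tre (Set (Q ⊕ Fin 3))) (u : List Bool) (p : Q ⊕ Fin 3) :
    (toB t u p = true ↔ p ∈ t u) ∧ (toB t u p = false ↔ p ∉ t u) := by
  classical
  have h : toB t u p = decide (p ∈ t u) := by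
    unfold toB
    congr
  rw [h]
  exact ⟨decide_eq_true_iff, decide_eq_false_iff_not⟩

theorem wfX_DS (t : Tre (Set (Q ⊕ Fin 3))) :
    wfX (toB t) ↔ ((∃ b : Bool, (Sum.inr 0 : Q ⊕ Fin 3) ∈ t [b]) ∧ ∃ b : Bool, (Sum.inr 0 : Q ⊕ Fin 3) ∉ t [b]) := by
  unfold wfX
  have h1 := mark_DS t [false] (Sum.inr 0)
  have h2 := mark_DS t [true] (Sum.inr 0)
  constructor
  · intro h
    by_cases hf : (Sum.inr 0 : Q ⊕ Fin 3) ∈ t [false]
    · by_cases ht : (Sum.inr 0 : Q ⊕ Fin 3) ∈ t [true]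
      · exact absurd ((h1.1.mpr hf).trans (h2.1.mpr ht).symm) h
      · exact ⟨⟨false, hf⟩, ⟨true, ht⟩⟩
    · by_cases ht : (Sum.inr 0 : Q ⊕ Fin 3) ∈ t [true]
      · exact ⟨⟨true, ht⟩, ⟨false, hf⟩⟩
      · exact absurd ((h1.2.mpr hf).trans (h2.2.mpr ht).symm) h
  · rintro ⟨⟨b, hb⟩, ⟨b', hb'⟩⟩ h
    rcases b with _ | _ <;> rcases b' with _ | _
    · exact hb' hb
    · have e1 := h1.1.mpr hb
      rw [h] at e1
      exact hb' (h2.1.mp e1)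
    · have e1 := h2.1.mpr hb
      rw [← h] at e1
      exact hb' (h1.1.mp e1)
    · exact hb' hb

theorem dir_DS (t : Tre (Set (Q ⊕ Fin 3))) (hw : wfX (toB t)) (b : Bool) :
    ((Sum.inr 0 : Q ⊕ Fin 3) ∈ t [b] ↔ b = dX (toB t)) ∧ ((Sum.inr 0 : Q ⊕ Fin 3) ∉ t [b] ↔ b = !(dX (toB t))) := by
  unfold wfX at hw
  have h1 := mark_DS t [false] (Sum.inr 0)
  have h2 := mark_DS t [true] (Sum.inr 0)
  unfold dX
  rcases b with _ | _
  · rcases hf : toB t [false] (Sum.inr 0) with _ | _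
    · have := h1.2.mp hf
      simp [this]
    · have := h1.1.mp hf
      simp [this]
  · rcases hf : toB t [false] (Sum.inr 0) with _ | _
    · have h3 : toB t [true] (Sum.inr 0) = true := by
        rcases ht : toB t [true] (Sum.inr 0) with _ | _
        · exact absurd (hf.trans ht.symm) hw
        · rfl
      have := h2.1.mp h3
      simp [this]
    · have h3 : toB t [true] (Sum.inr 0) = false := by
        rcases ht : toB t [true] (Sum.inr 0) with _ | _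
        · rfl
        · exact absurd (hf.trans ht.symm) hw
      have := h2.2.mp h3
      simp [this]

theorem wfSEM_DS (V : ℕ → Set (Tre (Set (Q ⊕ Fin 3)))) : wf_DS.SEM V = {t | wfX (toB t)} := by
  ext t
  rw [mem_ofPred_eq, wfX_DS]
  rfl

theorem diaX_DS (ψ : Fm (Q ⊕ Fin 3)) (V : ℕ → Set (Tre (Set (Q ⊕ Fin 3)))) (t : Tre (Set (Q ⊕ Fin 3)))
    (hw : wfX (toB t)) : t ∈ (Fm.dia (.and (.prop (.inr 0)) ψ)).SEM V ↔ nxS_DS t ∈ ψ.SEM V := by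
  have h0 : t ∈ (Fm.dia (.and (.prop (.inr 0)) ψ)).SEM V ↔
      ∃ b : Bool, (Sum.inr 0 : Q ⊕ Fin 3) ∈ t [b] ∧ t.sub [b] ∈ ψ.SEM V := Iff.rfl
  rw [h0]
  constructor
  · rintro ⟨b, hb, hψ⟩
    rw [(dir_DS t hw b).1] at hb
    rw [hb] at hψ
    exact hψ
  · intro h
    exact ⟨dX (toB t), ((dir_DS t hw _).1).mpr rfl, h⟩

theorem diaN_DS (ψ : Fm (Q ⊕ Fin 3)) (V : ℕ → Set (Tre (Set (Q ⊕ Fin 3)))) (t : Tre (Set (Q ⊕ Fin 3)))
    (hw : wfX (toB t)) : t ∈ (Fm.dia (.and (.nprop (.inr 0)) ψ)).SEM V ↔ t.sub [!(dX (toB t))] ∈ ψ.SEM V := by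
  have h0 : t ∈ (Fm.dia (.and (.nprop (.inr 0)) ψ)).SEM V ↔
      ∃ b : Bool, (Sum.inr 0 : Q ⊕ Fin 3) ∉ t [b] ∧ t.sub [b] ∈ ψ.SEM V := Iff.rfl
  rw [h0]
  constructor
  · rintro ⟨b, hb, hψ⟩
    rw [(dir_DS t hw b).2] at hb
    rw [hb] at hψ
    exact hψ
  · intro h
    exact ⟨!(dX (toB t)), ((dir_DS t hw _).2).mpr rfl, h⟩

theorem goSEM_DS (V : ℕ → Set (Tre (Set (Q ⊕ Fin 3)))) (t : Tre (Set (Q ⊕ Fin 3))) :
    t ∈ go_DS.SEM V ↔ stay (toB t) ∧ nxS_DS t ∈ V 0 := by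
  have h0 : t ∈ go_DS.SEM V ↔ t ∈ wf_DS.SEM V ∧ (Sum.inr 1 : Q ⊕ Fin 3) ∉ t [] ∧
      t ∈ (Fm.dia (.and (.prop (.inr 0)) (.var 0))).SEM V := Iff.rfl
  rw [h0, wfSEM_DS]
  constructor
  · rintro ⟨h1, h2, h3⟩
    exact ⟨⟨h1, (mark_DS t [] _).2.mpr h2⟩, (diaX_DS (.var 0) V t h1).mp h3⟩
  · rintro ⟨⟨h1, h2⟩, h3⟩
    exact ⟨h1, (mark_DS t [] _).2.mp h2, (diaX_DS (.var 0) V t h1).mpr h3⟩

theorem swSEM_DS (K : Set (Tre (Lt3 Q))) (k k' : Fm (Q ⊕ Fin 3)) (V : ℕ → Set (Tre (Set (Q ⊕ Fin 3))))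
    (hk : k.SEM V = {t | toB t ∈ K}) (hk' : k'.SEM V = {t | toB t ∉ K})
    (t : Tre (Set (Q ⊕ Fin 3))) : t ∈ (sw_DS k k').SEM V ↔ Sw K (toB t) := by
  have h0 : t ∈ (sw_DS k k').SEM V ↔ t ∈ wf_DS.SEM V ∧ (Sum.inr 1 : Q ⊕ Fin 3) ∈ t [] ∧
      (((Sum.inr 2 : Q ⊕ Fin 3) ∉ t [] ∧ t ∈ (Fm.dia (.and (.nprop (.inr 0)) k)).SEM V) ∨
       ((Sum.inr 2 : Q ⊕ Fin 3) ∈ t [] ∧ t ∈ (Fm.dia (.and (.nprop (.inr 0)) k')).SEM V)) := Iff.rfl
  rw [h0, wfSEM_DS]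
  unfold Sw
  have e0 : toB (t.sub [!(dX (toB t))]) = pt (toB t) := rfl
  constructor
  · rintro ⟨h1, h2, h3⟩
    refine ⟨h1, (mark_DS t [] _).1.mpr h2, ?_⟩
    rcases h3 with ⟨h4, h5⟩ | ⟨h4, h5⟩
    · rw [diaN_DS k V t h1, hk, mem_ofPred_eq, e0] at h5
      exact ⟨fun _ => (mark_DS t [] _).2.mpr h4, fun _ => h5⟩
    · rw [diaN_DS k' V t h1, hk', mem_ofPred_eq, e0] at h5
      exact ⟨fun h => absurd h h5, fun h => absurd h4 ((mark_DS t [] _).2.mp h)⟩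
  · rintro ⟨h1, h2, h3⟩
    refine ⟨h1, (mark_DS t [] _).1.mp h2, ?_⟩
    by_cases h4 : (Sum.inr 2 : Q ⊕ Fin 3) ∈ t []
    · right
      refine ⟨h4, ?_⟩
      rw [diaN_DS k' V t h1, hk', mem_ofPred_eq, e0]
      intro h5
      exact (mark_DS t [] _).2.mp (h3.mp h5) h4
    · left
      refine ⟨h4, ?_⟩
      rw [diaN_DS k V t h1, hk, mem_ofPred_eq, e0]
      exact h3.mpr ((mark_DS t [] _).2.mpr h4)

theorem NSEM_DS (V : ℕ → Set (Tre (Set (Q ⊕ Fin 3)))) :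
    N_DS.SEM V = {t | ∀ n, stay (nx^[n] (toB t))} := by
  have h0 : N_DS.SEM V = ⋃₀ {X | X ⊆ go_DS.SEM (ec X V)} := rfl
  rw [h0]
  ext t
  constructor
  · rintro ⟨X, hX, htX⟩ n
    induction n generalizing t with
    | zero => exact ((goSEM_DS _ t).mp (hX htX)).1
    | succ n ih =>
      have h1 : nxS_DS t ∈ X := ((goSEM_DS _ t).mp (hX htX)).2
      have := ih (nxS_DS t) h1
      rw [toB_nxS_DS] at this
      exact this
  · intro ht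
    refine ⟨{t | ∀ n, stay (nx^[n] (toB t))}, ?_, ht⟩
    intro s hs
    rw [goSEM_DS]
    refine ⟨hs 0, fun n => ?_⟩
    rw [toB_nxS_DS]
    exact hs (n + 1)

theorem MSEM_DS (K : Set (Tre (Lt3 Q))) (k k' : Fm (Q ⊕ Fin 3)) (V : ℕ → Set (Tre (Set (Q ⊕ Fin 3))))
    (hk : ∀ V, k.SEM V = {t | toB t ∈ K}) (hk' : ∀ V, k'.SEM V = {t | toB t ∉ K}) :
    (M_DS k k').SEM V = {t | ∃ n, (∀ m, m < n → stay (nx^[m] (toB t))) ∧ Sw K (nx^[n] (toB t))} := by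
  have h0 : (M_DS k k').SEM V = ⋂₀ {X | (sw_DS k k').SEM (ec X V) ∪ go_DS.SEM (ec X V) ⊆ X} := rfl
  rw [h0]
  ext t
  constructor
  · intro ht
    refine ht _ ?_
    rintro s (hs | hs)
    · rw [swSEM_DS K k k' _ (hk _) (hk' _)] at hs
      exact ⟨0, fun m hm => absurd hm (Nat.not_lt_zero m), hs⟩
    · rw [goSEM_DS] at hs
      obtain ⟨h1, n, h2, h3⟩ := hs
      rw [toB_nxS_DS] at h2 h3
      refine ⟨n + 1, ?_, h3⟩
      intro m hm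
      rcases m with _ | m
      · exact h1
      · exact h2 m (by omega)
  · rintro ⟨n, h1, h2⟩ X hX
    induction n generalizing t with
    | zero =>
      refine hX (Or.inl ?_)
      rw [swSEM_DS K k k' _ (hk _) (hk' _)]
      exact h2
    | succ n ih =>
      refine hX (Or.inr ?_)
      rw [goSEM_DS]
      refine ⟨h1 0 (Nat.succ_pos n), ih (nxS_DS t) ?_ ?_⟩
      · intro m hm
        rw [toB_nxS_DS]
        exact h1 (m + 1) (by omega)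
      · rw [toB_nxS_DS]
        exact h2

theorem FSEM_DS (K H : Set (Tre (Lt3 Q))) (k k' h : Fm (Q ⊕ Fin 3)) (V : ℕ → Set (Tre (Set (Q ⊕ Fin 3))))
    (hk : ∀ V, k.SEM V = {t | toB t ∈ K}) (hk' : ∀ V, k'.SEM V = {t | toB t ∉ K})
    (hh : ∀ V, h.SEM V = {t | toB t ∈ H}) :
    (F_DS k k' h).SEM V = {t | toB t ∈ Su K H} := by
  ext t
  have h0 : t ∈ (F_DS k k' h).SEM V ↔ t ∈ (M_DS k k').SEM V ∨
      (t ∈ N_DS.SEM V ∧ t ∈ (Fm.dia (.and (.nprop (.inr 0)) h)).SEM V) := Iff.rfl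
  rw [h0, MSEM_DS K k k' V hk hk', NSEM_DS]
  have e0 : toB (t.sub [!(dX (toB t))]) = pt (toB t) := rfl
  constructor
  · rintro (h1 | ⟨h1, h2⟩)
    · exact Or.inl h1
    · rw [diaN_DS h V t (h1 0).1, hh, mem_ofPred_eq, e0] at h2
      exact Or.inr ⟨h1, h2⟩
  · rintro (h1 | ⟨h1, h2⟩)
    · exact Or.inl h1
    · refine Or.inr ⟨h1, ?_⟩
      rw [diaN_DS h V t (h1 0).1, hh, mem_ofPred_eq, e0]
      exact h2

end DS

theorem hDS (_hF2 : StF2) (hNG : StNG) (hLG : StLG) (hDP : StDPN) : StDS := by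
  intro Q K H hK hH
  obtain ⟨k, hk1, hk2, hk3⟩ := hK
  obtain ⟨h, hh1, hh2, hh3⟩ := hH
  obtain ⟨k', hk'1, hk'2, hk'3⟩ := hNG _ k hk1 hk2
  have hk : ∀ V, k.SEM V = {t | toB t ∈ K} := fun V => by rw [← hLG _ k hk1 V, hk3]
  have hh : ∀ V, h.SEM V = {t | toB t ∈ H} := fun V => by rw [← hLG _ h hh1 V, hh3]
  have hk' : ∀ V, k'.SEM V = {t | toB t ∉ K} := by
    intro V
    have := hk'3 (fun n => (V n)ᶜ)
    simp only [compl_compl] at this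
    rw [this, hk]
    rfl
  have hfree : ∀ n, ¬ (F_DS k k' h).free n := by
    intro n hn
    simp only [F_DS, M_DS, sw_DS, go_DS, N_DS, wf_DS, Fm.free] at hn
    have a1 := hk1 (n + 1)
    have a2 := hk'1 (n + 1)
    have a3 := hh1 n
    simp_all
  refine ⟨F_DS k k' h, hfree, ?_, ?_⟩
  · have b1 : ¬ k.nuDep 0 := fun hc => hk1 0 ((hDP _ k 0).1 hc)
    have b2 : ¬ k'.nuDep 0 := fun hc => hk'1 0 ((hDP _ k' 0).1 hc)
    simp only [F_DS, M_DS, sw_DS, go_DS, N_DS, wf_DS, Fm.altFree, Fm.nuDep, Fm.muDep]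
    simp [hk2, hk'2, hh2, b1, b2]
  · rw [hLG _ (F_DS k k' h) hfree (fun _ => ∅)]
    exact FSEM_DS K H k k' h _ hk hk' hh

end Pool.Agent.Helper30.WL
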