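import Pool.Agent.Helper30.WL.Defs

/-!
# PROJECT WL (MP_76577a_lc, lower bound), statements with proofs

Every `StX` is to be proved in its own file `M_X.lean` (theorem `hX : StX`). Other statements may be taken as hypotheses.
Paper proof: these docstrings. `C X i A` is read: `A` is in the class `C` on the space `(X, i)`.
-/

set_option autoImplicit false

namespace Pool.Agent.Helper30.WL

open Set
open Pool.Agent.Helper24.WH (Tre pT)
open Ordinal hiding univ

/-! ## Classes -/

/-- **GE** (120 lines). `C0` is trivial. `ExpC C`: EMPTY: `j = fun _ _ => false`. PRE: `j ∘ f`; `{y | j (f y) k = true}` is the preimage of a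
closed set under a continuous map; `f` is continuous from the bits `j ∘ f` to the bits `j` (`n' = n`). PASTE: let `j_c` be the bits on
`P_c = {x | κ x = c}`. New bits at `n`, `n.unpair = (a, b)`: for `a = 0` the truth value of `κ x = b`; for `a = c + 1` the
truth value of (`κ x = c` and `j_c x b = true`). The set `κ x = b` is clopen for `i`; the set `κ x = c ∧ j_c x b = true` is closed in the
clopen set `P_c`, so closed. Apply PASTE of `C` for the new bits (`κ` is locally constant: look at the bit `pair 0 (κ x)`); on
`P_c` use PRE with the identity from (new bits restricted to `P_c`) to `j_c`. -/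
def StGE : Prop := Good C0 ∧ ∀ C : Cls, Good C → Good (ExpC C)

/-- **GS** (180 lines). `SumC U E` is good. EMPTY: `B = ∅`, `n = 0`. PRE: `B' = f ⁻¹' B`; on `B'` use PRE of `E` along `B' → B`; for `y ∉ B'` take `n`
for `f y` and `n'` from the continuity of `f`: `f` maps `Cy i' n' y` into `Cy i n (f y)`, PRE of `U`. PASTE: `B_c ⊆ P_c` on the pieces, `B = {x | x ∈ B_{κ x}}`
is closed (look at a neighbourhood on which `κ` is constant); on `B` PASTE of `E` for `κ` restricted to `B`, the piece `{x ∈ B | κ x = c}` maps to
`B_c` (PRE); for `x ∉ B` take a cylinder of `X` contained in `P_{κ x}` and in the cylinder of `P_{κ x}` given by the hypothesis (PRE of `U` along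
the inclusion). -/
def StGS : Prop := ∀ U E : Cls, Good U → Good E → Good (SumC U E)

/-- **LT** (60 lines). Third part: `B = ∅`, `n = 0`, `Cy i 0 x = univ`, PRE along `univ → X`; `E ∅ ..` by EMPTY of `E` (the trace is empty). -/
def StLT : Prop :=
  (∀ C C' : Cls, LtC C C' → LeC C C') ∧
  (∀ C C' C'' : Cls, LtC C C' → LeC C' C'' → LtC C C'') ∧
  (∀ U E : Cls, Good U → Good E → LtC U (SumC U E)) ∧
  (∀ C C' : Cls, LtC C C' → LtC (ExpC C) (ExpC C'))

/-- **CLS** (220 lines). The class `W = SumC U (ExpC C)` is closed under the operation: `ExpC C` on a closed set `B`, locally `W` off `B`.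
PROOF. For a word `w : List Bool` let `cyl w = {y | ∀ k (h : k < w.length), i y k = w[k]}` (so `Cy i n x = cyl (first n bits of x)`) and
`R w : Prop := Disjoint (cyl w) B ∧ SumC U (ExpC C) (cyl w) (res ..) (tr ..)`; `w` is GOOD if `R w` and no proper initial segment of `w` satisfies `R`.
For `x ∉ B` let `w x` be the unique good word with `x ∈ cyl (w x)` (initial segment of the bits of `x` of least length with `R`). Two good
words with a common point are equal. For a good `w` choose the closed set `B_w ⊆ cyl w` of the definition of `SumC`, with bits `j_w` on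
`B_w` (from `ExpC`). `B' := B ∪ ⋃ w good, B_w`.
(1) `B'` is closed: `x ∉ B'`, `w = w x`; a cylinder around `x` inside `cyl w` misses `B_w`, and misses `B` and all other `B_v` (which lie in `cyl v`).
(2) `x ∉ B'`: the set `B_{w x}` and a cylinder of the subspace `cyl (w x)` from the definition of `SumC`; take a cylinder of `X` contained in it and in
`cyl (w x)`; PRE of `U` along the inclusion; it misses `B'`.
(3) `A` is in `ExpC C` on `B'`: bits (indexed by a countable type, encoded in `ℕ`; value false if decoding fails): the bit `x ∈ B`; the bits `i x k`; for the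
bits `j^B` on `B`: `x ∈ B ∧ j^B x k = true`; for each word `w` and `k`: `w good ∧ x ∈ B_w ∧ j_w x k = true`. All these subsets of `B'` are closed.
PASTE of `C` on `B'` with `κ x = 0` on `B`, `κ x = 1 + encode (w x)` off `B` (locally constant for the new bits: the bit `x ∈ B`, and for `x ∉ B` the
bits of `i` up to the length of `w x`). On `κ = 0` use PRE of `C` along the map to `(B, j^B)`, on `κ = 1 + encode w` (`w` good) along the map to
`(B_w, j_w)`; if `c` is not of this form the piece is empty and EMPTY of `C` applies (PRE along a map of an empty space). -/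
def StCLS : Prop := ∀ (U C : Cls), Good U → Good C → ∀ (X : Type) (i : Bits X) (A B : Set X), Cl i B →
  ExpC C B (res i B) (tr B A) →
  (∀ x, x ∉ B → ∃ n, Disjoint (Cy i n x) B ∧ SumC U (ExpC C) (Cy i n x) (res i (Cy i n x)) (tr (Cy i n x) A)) →
  SumC U (ExpC C) X i A

/-- **KEY** (60 lines; uses CLS, LT). Absorption. PROOF. Let `A` or `Aᶜ` be in `SumC V (ExpC C)` with the closed set `B`. On `B`: `A` or its complement
is in `ExpC C`, so `A` is in `ExpC C'` (LT). Off `B`: locally `A` or its complement is in `V`, so `A` is in `SumC U (ExpC C')` by hypothesis. CLS. -/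
def StKEY : Prop := ∀ (U V C C' : Cls), Good U → Good C' → LtC C C' → LtC V (SumC U (ExpC C')) →
  LtC (SumC V (ExpC C)) (SumC U (ExpC C'))

/-- **FD** (150 lines; uses GE, GS, LT, KEY). The fold along the Cantor normal form is strictly increasing. Write `E a = ExpC (C a)`, `st U a = SumC U (E a)`,
`F b U = fold st b U`; `F 0 U = U`, `F b U = F (b - ω ^ log ω b) (st U (log ω b))`; `log ω b < θ` if `0 < b < ω ^ θ`. PROOF. Goodness: induction on `b`.
(a) If `g < θ`, `b < ω ^ g` and `V` is good with `LtC V (SumC U (E g))` then `LtC (F b V) (SumC U (E g))`: induction on `b` for all `V`; `b ≠ 0`: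
`a = log ω b < g`, KEY gives `LtC (SumC V (E a)) (SumC U (E g))`. (b) `LeC U (F b U)`: induction on `b`, LT. (c) `b < b'`: strong induction on
`b'`, `a = log ω b'`. If `b < ω ^ a`: by (a) with `V = U` (LT) `LtC (F b U) (SumC U (E a))`, and `LeC (SumC U (E a)) (F b' U)` by (b). Otherwise
`log ω b = a` and `b - ω ^ a < b' - ω ^ a`; induction hypothesis for `SumC U (E a)`. -/
def StFD : Prop := ∀ (C : Ordinal.{0} → Cls) (θ : Ordinal.{0}), (∀ a, a < θ → Good (C a)) →
  (∀ a b, a < b → b < θ → LtC (C a) (C b)) → ∀ U : Cls, Good U →
  (∀ b, b < ω ^ θ → Good (fold (fun U a => SumC U (ExpC (C a))) b U)) ∧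
  ∀ b b', b < b' → b' < ω ^ θ →
    LtC (fold (fun U a => SumC U (ExpC (C a))) b U) (fold (fun U a => SumC U (ExpC (C a))) b' U)

/-! ## Standard bits -/

/-- **SB** (120 lines). (1) by definition. (2) the pair `(u, p)` is decoded at all `n` with `n.unpair.1 = encode (u, p)`, one of them is `≥ u.length`
(`Nat.pair a b ≥ b`); `P` finite. (3) from (1), (2): the cylinders of `std` are a basis of the product topology. -/
def StSB : Prop := ∀ (P : Type) [Finite P],
  (∀ (n : ℕ) (t t' : Tre (P → Bool)), (∀ u : List Bool, u.length ≤ n → t u = t' u) → std t n = std t' n) ∧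
  (∀ u : List Bool, ∃ N, ∀ t t' : Tre (P → Bool), Ag std N t t' → t u = t' u) ∧
  (∀ (P' : Type) [Finite P'] (f : Tre (P → Bool) → Tre (P' → Bool)),
    Cts std std f ↔ @Continuous _ _ (pT (P → Bool)) (pT (P' → Bool)) f)

/-- **NS** (120 lines; uses SB). A complete language is not self dual, and classes give strict reducibility. PROOF of the first part. `Lᶜ = f ⁻¹' L` is in `C` by
PRE, so `Hard` gives a contracting `k : Tre → Tre` (for `std`) with `t ∉ L ↔ k t ∈ L`. FIXED POINT: `t_n = k^[n] t_0`; if two trees agree on all nodes of length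
`< d` then (SB (1)) their first `d` standard bits agree, so their images under `k` agree on all nodes of length `≤ d`; hence `t_n`, `t_(n+1)` agree on nodes of
length `< n`; `t* u = t_(|u|+1) u` satisfies `k t* = t*`: contradiction. Second part: `L` is in `C ⊆ C'`, `Hard C' L'` gives a contracting map, which is
continuous (SB: `Cts std std`). Third part: `Lᶜ` is in `C'` as well (`Lᶜᶜ = L`), so `Lᶜ` reduces to `L'`, and if `L'` reduced to `L` then `Lᶜ` would reduce to `L`. -/
def StNS : Prop := ∀ (Q : Type) [Finite Q] (C C' : Cls) (L L' : Set (Tre (Lt3 Q))), Good C → Cpl C L →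
  (¬ ∃ f : Tre (Lt3 Q) → Tre (Lt3 Q), @Continuous _ _ (pT (Lt3 Q)) (pT (Lt3 Q)) f ∧ ∀ t, t ∉ L ↔ f t ∈ L) ∧
  (LtC C C' → Cpl C' L' →
    (∃ f : Tre (Lt3 Q) → Tre (Lt3 Q), @Continuous _ _ (pT (Lt3 Q)) (pT (Lt3 Q)) f ∧ ∀ t, t ∈ L ↔ f t ∈ L') ∧
    ¬ ∃ f : Tre (Lt3 Q) → Tre (Lt3 Q), @Continuous _ _ (pT (Lt3 Q)) (pT (Lt3 Q)) f ∧ ∀ t, t ∈ L' ↔ f t ∈ L)

/-! ## Hardness -/

/-- **HZ** (20 lines). The empty language is complete for `C0`. -/
def StHZ : Prop := ∀ (Q : Type) [Countable Q], Cpl C0 (∅ : Set (Tre (Lt3 Q)))

/-- **HE** (200 lines). PROOF. Let `j` be closed bits with `C X j A` and `k : X → Tre (Lt3 Q)` from `Hard C L`, contracting for `j`. For a reversed word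
`s : List Bool` (head = last bit) put `K s u := k x' u` for some `x'` whose first `s.length` bits `j x' 0, j x' 1, ..` are `s.reverse` if there is one (junk letter
otherwise); so `k x u = K s u` if `s` is the reversed word of the first `u.length` bits of `x`. `Vi x m N : Prop := ∀ y, Ag i N x y → j y m = false`; since
`{x | j x m = true}` is closed: `j x m = false ↔ ∃ N, Vi x m N`. Define the tree `ψ x s u : List Bool → Lt3 (Q ⊕ Fin 3)` (the letter at the path below the logical
node `(s, u)`) by recursion on the path:
`[]`: propositions `K s u`, mark 1 iff the head of `s` is `false`, no other marks; `[e]`: no propositions, no marks; `e :: false :: v`: mark 0, and mark 2 iff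
`Vi x s.length v.length`; `[e, true]`: nothing; `e :: true :: σ :: v`: `ψ x (σ :: s) (u ++ [e]) v`.
Then `ψ x := ψ x [] []`. It is contracting (only the marks 2 depend on `x`; at the path `v` they use `N ≤ v.length`), has no mark 0 at the root, is well formed
(`[e,false]` has the mark 0, `[e,true]` has not; `[e,true,false]` has the mark 1, `[e,true,true]` has not). At the choice node `[e]` below `(s, u)`:
`NB ↔ ∀ N, ¬ Vi x s.length N ↔ j x s.length = true`, and `sel = [true, j x s.length]`. By induction on `u'` the decoded letter at `u'` below `(s, u)` is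
`K s' (u ++ u')` where `s'` extends `s` by the bits `j x s.length, ..`; so `dec u (ψ x) = k x u`, and `ψ x ∈ Ex L ↔ k x ∈ L`. -/
def StHE : Prop := ∀ (Q : Type) (C : Cls) (L : Set (Tre (Lt3 Q))), Hard C L → Hard (Q := Q ⊕ Fin 3) (ExpC C) (Ex L)

/-- **HS** (200 lines). PROOF. Let `B` be the closed set, `k_B : B → Tre` contracting with `x ∈ A ↔ k_B x ∈ H` on `B`. For a set `O` with `Off U i B A O`
choose a contracting `k_O : O → Tre` and a sign `g_O : Bool` with `(x ∈ A ↔ (k_O x ∈ K ↔ g_O = false))` on `O`. For `x` let
`P x n : Prop := Off U i B A (Cy i n x)`; it depends on the first `n` bits of `x` only (`Cy i n x = Cy i n y` for such `y`); `x ∉ B ↔ ∃ n, P x n`; for such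
`x` let `n x` be the least `n`. The tree `ψ x`: at the spine node `replicate m true`: mark 0 iff `m ≠ 0`, mark 1 iff `∃ n < m, P x n`, mark 2 iff moreover
`g_O = true` for `O = Cy i (n x) x`; no propositions. At `replicate m true ++ false :: v`: for `m = 0`: the letter at `v` of `k_B y`, where `y ∈ B` is some point with
`Ag i v.length x y` (junk if there is none; no dependence on the choice, it is `k_B x v` if `x ∈ B`); for `m = n x + 1`: the letter at `v` of `k_O x`, `O = Cy i (n x) x`;
otherwise no propositions and no marks. `ψ` is contracting: `P x n` for `n < m` and the value of `n x` if it is `< m` depend on the first `m` bits. For `x ∈ B` the spine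
stays forever (`wfX`: the child `true` has the mark 0, the child `false` has not since the roots of `k_B`, `k_O` do not have it) and the other child of the root is `k_B x`.
For `x ∉ B` the first switch is at `m = n x + 1`, the other child is `k_O x`. -/
def StHS : Prop := ∀ (Q : Type) (U E : Cls) (K H : Set (Tre (Lt3 Q))), Hard U K → Hard E H → Hard (SumC U E) (Su K H)

/-! ## Membership -/

/-- **ME** (200 lines; uses SB). `Ex L` is in `ExpC C`. New bits on `Tre (Lt3 (Q ⊕ Fin 3))`, `n.unpair = (a, b)`: `a = 0`: the bit `std t b`; `a = 1`: the truth value of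
`∀ n, WFn n t`; `a = 2`: the truth value of `NB (t.sub v)`, `v` decoded from `b` (false if decoding fails). These sets are closed for `std` (`WFn n` depends on finitely
many letters, use SB (2); `¬ NB` is witnessed by finitely many letters). PASTE of `C` with `κ t = 0` if `∀ n, WFn n t`, `κ t = 1` otherwise, other pieces are empty. On `κ = 1` the
trace of `Ex L` is empty. On `κ = 0` it is the preimage of `L` under `t ↦ (fun u => dec u t)`, which is continuous from the new bits to `std`: every letter
`dec u t` depends on finitely many letters of `t` and finitely many truth values `NB (t.sub v)` (induction on `u`), and `std n` on finitely many letters (SB (1)). -/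
def StME : Prop := ∀ (Q : Type) [Finite Q] (C : Cls) (L : Set (Tre (Lt3 Q))), Good C → C (Tre (Lt3 Q)) std L →
  ExpC C (Tre (Lt3 (Q ⊕ Fin 3))) std (Ex L)

/-- **MS** (150 lines; uses SB). `Su K H` is in `SumC U E`. `B = {t | ∀ n, stay (nx^[n] t)}`. It is closed: `nx^[n] t` has the form `t.sub v_n` and
`v_n`, and whether `stay` holds there, depends on finitely many letters. On `B` the trace is the preimage of `H` under `pt`, which is continuous
(PRE of `E`). Let `t ∉ B`, `n` least with `¬ stay (nx^[n] t)`; on a small cylinder `O` (`Cy std N t`) `n` and the directions are the same, `O` misses `B`. If `wfX` fails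
there: `A = ∅` on `O`, EMPTY of `U`. If the mark 2 is not present: `A` is on `O` the preimage of `K` under `t' ↦ t'.sub v`, PRE of `U`. If it is: the same
for the complement of `A`. -/
def StMS : Prop := ∀ (Q : Type) [Finite Q] (U E : Cls) (K H : Set (Tre (Lt3 Q))), Good U → Good E →
  U (Tre (Lt3 Q)) std K → E (Tre (Lt3 Q)) std H → SumC U E (Tre (Lt3 Q)) std (Su K H)

end Pool.Agent.Helper30.WL
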