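import Pool.Agent.Helper30.WL.St
import Pool.Agent.Helper24.WH.St7

/-!
# PROJECT WL (MP_76577a_lc, lower bound), part 2: definability and final statements
-/

set_option autoImplicit false

namespace Pool.Agent.Helper30.WL

open Set
open Pool.Agent.Helper24.WH
open Ordinal hiding univ

/-! ## Definability -/

open Classical in
/-- boolean form of a tree with letters in `Set P` -/
noncomputable def toB {P : Type} (t : Tre (Set P)) : Tre (P → Bool) := fun u p => decide (p ∈ t u)

/-- definable languages in boolean form -/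
def Dfb {P : Type} (L : Set (Tre (P → Bool))) : Prop := Definable {t : Tre (Set P) | toB t ∈ L}

/-- **NG** (90 lines). Negation. Define `ng` by recursion (`prop`/`nprop`, `top`/`bot`, `and`/`or`, `dia`/`box`, `mu`/`nu` exchanged, `var` kept). Then
`(ng φ).free = φ.free`, `(ng φ).nuDep = φ.muDep`, `(ng φ).muDep = φ.nuDep`, `(ng φ).altFree ↔ φ.altFree`, and
`(ng φ).SEM (fun n => (V n)ᶜ) = (φ.SEM V)ᶜ` for all `V` (complements exchange pre-fixpoints and post-fixpoints). -/
def StNG : Prop := ∀ (P : Type) (φ : Fm P), (∀ n, ¬ φ.free n) → φ.altFree →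
  ∃ ψ : Fm P, (∀ n, ¬ ψ.free n) ∧ ψ.altFree ∧ ∀ V : ℕ → Set (Tre (Set P)), ψ.SEM (fun n => (V n)ᶜ) = (φ.SEM V)ᶜ

/-- **LG** (30 lines; uses StF1, StF2 of WH.St7). -/
def StLG : Prop := ∀ (P : Type) (φ : Fm P), (∀ n, ¬ φ.free n) → ∀ V : ℕ → Set (Tre (Set P)), φ.lang = φ.SEM V

/-- **DP** (20 lines). Dependence implies free occurrence. -/
def StDPN : Prop := ∀ (P : Type) (φ : Fm P) (n : ℕ), (φ.nuDep n → φ.free n) ∧ (φ.muDep n → φ.free n)

/-- **DS** (200 lines; uses StF2, NG, LG, DPN). `Su K H` is definable. Formulas `k`, `k'` (negation), `h` for `K`, its complement, `H`. Write `X = prop (inr 0)`,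
`nX = nprop (inr 0)`, `S, nS` for `inr 1`, `G, nG` for `inr 2`, `wf = and (dia X) (dia nX)`. For a tree with `wf`: `t.sub [b]` has the mark 0 iff `b = dX t`, so
`dia (and X ψ)` says `nx t ∈ ψ` and `dia (and nX ψ)` says `pt t ∈ ψ`. Formula:
`or M (and N (dia (and nX h)))` with `N = nu (and wf (and nS (dia (and X (var 0)))))` and
`M = mu (or (and wf (and S (or (and nG (dia (and nX k))) (and G (dia (and nX k')))))) (and wf (and nS (dia (and X (var 0))))))`.
The value of `N` is `{t | ∀ n, stay (nx^[n] t)}` (this set is a post-fixpoint; every post-fixpoint is contained in it by induction on `n`), the value of `M` is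
`{t | ∃ n, (∀ m < n, stay (nx^[m] t)) ∧ Sw K (nx^[n] t)}` (a pre-fixpoint; contained in every pre-fixpoint by induction on `n`). `k, k', h` are closed, so
their values do not depend on the environment (StF2), and the variable 0 is not free in a `ν`-subformula of the body of `M` (DPN). -/
def StDS : Prop := ∀ (Q : Type) (K H : Set (Tre (Lt3 Q))), Dfb K → Dfb H → Dfb (Su K H)

/-- auxiliary test: a mark 2 can be reached -/
def bt {Q : Type} : Fm (Q ⊕ Fin 3) := .mu (.dia (.and (.prop (.inr 0)) (.or (.prop (.inr 2)) (.var 0))))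

/-- auxiliary test: no mark 2 can be reached -/
def nb {Q : Type} : Fm (Q ⊕ Fin 3) := .nu (.box (.or (.nprop (.inr 0)) (.and (.nprop (.inr 2)) (.var 0))))

/-- the selected logical node below a choice node satisfies `ψ` -/
def slf {Q : Type} (ψ : Fm (Q ⊕ Fin 3)) : Fm (Q ⊕ Fin 3) :=
  .or (.and bt (.dia (.and (.nprop (.inr 0)) (.dia (.and (.prop (.inr 1)) ψ)))))
    (.and nb (.dia (.and (.nprop (.inr 0)) (.dia (.and (.nprop (.inr 1)) ψ)))))

/-- translation of formulas -/
def trf {Q : Type} : Fm Q → Fm (Q ⊕ Fin 3)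
  | .prop p => .prop (.inl p)
  | .nprop p => .nprop (.inl p)
  | .top => .top
  | .bot => .bot
  | .var n => .var n
  | .and φ ψ => .and (trf φ) (trf ψ)
  | .or φ ψ => .or (trf φ) (trf ψ)
  | .dia φ => .dia (slf (trf φ))
  | .box φ => .box (slf (trf φ))
  | .mu φ => .mu (trf φ)
  | .nu φ => .nu (trf φ)

/-- well formedness -/
def wff {Q : Type} : Fm (Q ⊕ Fin 3) :=
  .nu (.box (.and (.and (.dia (.prop (.inr 0))) (.dia (.nprop (.inr 0))))
    (.box (.or (.prop (.inr 0)) (.and (.and (.dia (.prop (.inr 1))) (.dia (.nprop (.inr 1)))) (.box (.var 0)))))))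

/-- the decoded tree, letters in `Set Q` -/
noncomputable def dcS {Q : Type} (t : Tre (Set (Q ⊕ Fin 3))) : Tre (Set Q) := fun u => {p | dec u (toB t) p = true}

/-- **TA** (100 lines). The tests: `bt`, `nb` (the set of trees without reachable mark 2 is a post-fixpoint and contains all
post-fixpoints; induction on the length of the path; dual for `bt`), and `wff` (post-fixpoint; induction on `n`); `WFn` for all `n` is inherited by the logical nodes. -/
def StTA : Prop := ∀ (Q : Type) (V : ℕ → Set (Tre (Set (Q ⊕ Fin 3)))),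
  (nb.SEM V = {t | NB (toB t)}) ∧ (bt.SEM V = {t | ¬ NB (toB t)}) ∧ (wff.SEM V = {t | ∀ n, WFn n (toB t)}) ∧
  ∀ t : Tre (Set (Q ⊕ Fin 3)), (∀ n, WFn n (toB t)) → ∀ e : Bool, ∀ n, WFn n (toB (t.sub (e :: sel (toB (t.sub [e])))))

/-- **TL** (150 lines; uses TA, StF2). The translation lemma. On well formed trees the translation is the preimage under decoding. Induction on `φ` for all `V`, `V'`.
Modalities: for a choice node `c` (child of a well formed tree) `c ∈ (slf ψ).SEM V ↔ c.sub (sel (toB c)) ∈ ψ.SEM V`, and `dcS (t.sub (e :: sel ..)) = (dcS t).sub [e]`.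
`mu`: write `W` for the set of well formed trees, `F`, `F'` for the two operators, `D = dcS`. If `V'`, `V` are related on `W` and `Y'`, `Y` too, then `F' Y'`, `F Y` are.
(⊆) `Y' = D ⁻¹' (lfp F) ∪ Wᶜ` is related to `lfp F`, so `F' Y' ⊆ Y'`. (⊇) let `Y = {y | ∀ t ∈ W, D t = y → t ∈ lfp F'}`; `Y' = D ⁻¹' Y ∩ W ⊆ lfp F'` is related to `Y`, so
`D ⁻¹' (F Y) ∩ W ⊆ F' Y' ⊆ F' (lfp F') = lfp F'`, hence `F Y ⊆ Y` and `lfp F ⊆ Y`. `nu`: dual, `Y = {y | ∃ t ∈ W, D t = y ∧ t ∈ gfp F'}` and `Y' = D ⁻¹' (gfp F) ∩ W`. -/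
def StTL : Prop := ∀ (Q : Type) (φ : Fm Q) (V' : ℕ → Set (Tre (Set (Q ⊕ Fin 3)))) (V : ℕ → Set (Tre (Set Q))),
  (∀ n (t : Tre (Set (Q ⊕ Fin 3))), (∀ m, WFn m (toB t)) → (t ∈ V' n ↔ dcS t ∈ V n)) →
  ∀ t : Tre (Set (Q ⊕ Fin 3)), (∀ m, WFn m (toB t)) → (t ∈ (trf φ).SEM V' ↔ dcS t ∈ φ.SEM V)

/-- **DE** (80 lines; uses TA, TL, LG). `Ex L` is definable by `and wff (trf φ)`. `(trf φ).free n ↔ φ.free n`, the same for `nuDep`, `muDep`, `altFree`; `bt`, `nb`, `wff` are closed.
`toB (dcS t) = fun u => dec u (toB t)`. -/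
def StDE : Prop := ∀ (Q : Type) (L : Set (Tre (Q → Bool))), Dfb L → Dfb (Ex L)

/-! ## Chains -/

/-- a chain of classes with complete definable languages -/
structure Chn (Q : Type) [Countable Q] (θ : Ordinal.{0}) (C : Ordinal.{0} → Cls) (L : Ordinal.{0} → Set (Tre (Lt3 Q))) : Prop where
  good : ∀ a, a < θ → Good (C a)
  cpl : ∀ a, a < θ → Cpl (C a) (L a)
  lt : ∀ a b, a < b → b < θ → LtC (C a) (C b)
  df : ∀ a, a < θ → Dfb (L a)

/-- **ST** (120 lines; uses FD, GE, HZ, HE, HS, ME, MS, DS, DE). From `θ` to `ω ^ θ`. Let `st w a = (SumC w.1 (ExpC (C a)), Su w.2 (Ex (L a)))` on pairs (class, language),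
`w_b = fold st b (C0, ∅)`, `C' b = w_b.1`, `L' b = w_b.2`. The first component of the fold is the fold of the first component (induction on `b`), so FD applies.
Completeness and definability are preserved by `st · a`, `a < θ` (`log ω b < θ` for `0 < b < ω ^ θ`); induction on `b`. -/
def StST : Prop := ∀ (Q : Type) [Finite Q] (θ : Ordinal.{0}) (C : Ordinal.{0} → Cls) (L : Ordinal.{0} → Set (Tre (Lt3 Q))),
  Chn Q θ C L → ∃ (C' : Ordinal.{0} → Cls) (L' : Ordinal.{0} → Set (Tre (Lt3 (Q ⊕ Fin 3)))), Chn (Q ⊕ Fin 3) (ω ^ θ) C' L'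

/-- **CN** (60 lines; uses ST, HZ, GE). Start: `θ = 1`, `C = fun _ => C0`, `L = fun _ => ∅` (definable by `bot`). Second part: `lt_epsilon_zero` (`th m` is the iterate of
`ω ^ ·` at `0`, `m + 1` times). -/
def StCN : Prop := (∀ m, ∃ (_ : Finite (QQ m)) (C : Ordinal.{0} → Cls) (L : Ordinal.{0} → Set (Tre (Lt3 (QQ m)))), Chn (QQ m) (th m) C L) ∧
  ∀ a, a < Ordinal.epsilon 0 → ∃ m, a < th m

/-- **LO** (120 lines; uses CN, NS). The lower bound. `α < th m`. `P = QQ m ⊕ Fin 3`, `g b = {t | toB t ∈ L b}` for `b ≤ α`. `toB` is a homeomorphism (inverse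
`fun t u => {p | t u p = true}`; continuity: product topology, discrete letters), so by NS `g b` is strictly below `g b'` for `b < b' ≤ α`. By induction the rank of `g b` is
`≥ b`. -/
def StLO : Prop := ∀ a, a < Ordinal.epsilon 0 → ∃ (P : Type) (_ : Finite P) (L : {L : Set (Tre (Set P)) // Definable L}),
  ∀ h : WellFounded (wlt P), a ≤ (h.apply L).rank

end Pool.Agent.Helper30.WL
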